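import Pool.Agent.Helper10.DE.X.Feas
import Pool.Agent.Helper10.DE.VP.CfgSwap

/-!
# DE X.6  Positive entropy at the centre of the triangle

PROOF.  For `k = 0, 1, 2` let `ω_k x = letter ((x 0 - x 1 + k) mod 3)`, `letter 0 = 2`, `letter 1 = 0`,
`letter 2 = 1` (letters of `Fin 3`, steps `st2 = (0,0), (1,0), (0,1)`).  With the class `c = x 0 - x 1 + k`
mod 3 the map `x ↦ x + st2 (ω_k x)` is: class `0`: `x + (0,1)`, class of the image `2`; class `1`: `x`, class
`1`; class `2`: `x + (1,0)`, class `0`.  It permutes the classes and is a translation on each: a bijection.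
`m = (1/3)(dirac ω_0 + dirac ω_1 + dirac ω_2)` is shift invariant (shifts permute the `ω_k`),
`Inv (Cfg st2) m`, mean `(1/3, 1/3)`.  Window `F = {(0,0), (-1,0), (-1,1), (1,0)}`, pattern
`a = (2, 1, 0, 0)` (in this order; the pattern of `ω_0`), `b = (0, 2, 1, 0)`.  `Same st2 F a b`: images
`a`: `(0,1), (0,0), (-1,1), (1,0)`; `b`: `(0,0), (-1,1), (0,1), (1,0)`.  `m(a) = 1/3`, `m(b) = 0`: `b` at `(0,0)`
forces `k = 1`, but then `ω_1 (1,0) = letter 2 = 1 ≠ 0`.  Apply `vp_gain` with `C = Cfg st2`, `c = chg st2`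
(`closed_cfg`, `shift_cfg`, `cfg_pswap`, `same_tr`, `same_charge`): an invariant `ν` with the same mean and
`hent ν > hent m ≥ 0`; `Emax ≥ hent ν` by `le_emax`.
-/

noncomputable section

open MeasureTheory Filter Topology

namespace Helper15.DE

namespace CenterPos

/-- The letter of a class. -/
def letter (c : ZMod 3) : Fin 3 := if c = 0 then 2 else if c = 1 then 0 else 1

/-- The class of the image of a point of class `c`. -/
def tau (c : ZMod 3) : ZMod 3 := if c = 0 then 2 else if c = 1 then 1 else 0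

/-- The class of a point. -/
def cls (k : ZMod 3) (x : V 2) : ZMod 3 := ((x 0 : ℤ) : ZMod 3) - ((x 1 : ℤ) : ZMod 3) + k

/-- The periodic configurations. -/
def om (k : ZMod 3) : V 2 → Fin 3 := fun x => letter (cls k x)

/-- The uniform measure on the three periodic configurations. -/
def m0 : Measure (V 2 → Fin 3) := (3 : ENNReal)⁻¹ • ∑ k : ZMod 3, Measure.dirac (om k)

theorem tau_inj : Function.Injective tau := by decide

theorem cls_mv (k : ZMod 3) (x : V 2) : cls k (mv st2 (om k) x) = tau (cls k x) := by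
  have h : ∀ c : ZMod 3, ((st2 (letter c) 0 : ℤ) : ZMod 3) - ((st2 (letter c) 1 : ℤ) : ZMod 3) + c =
      tau c := by decide
  rw [← h (cls k x)]
  unfold cls mv om cls
  simp only [Pi.add_apply]
  push_cast
  ring

theorem cls_sub (k : ZMod 3) (x s : V 2) :
    cls k (x - s) = cls k x - (((s 0 : ℤ) : ZMod 3) - ((s 1 : ℤ) : ZMod 3)) := by
  unfold cls
  simp only [Pi.sub_apply]
  push_cast
  ring

theorem om_cfg (k : ZMod 3) : om k ∈ Cfg st2 := by
  show Function.Bijective (mv st2 (om k))
  constructor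
  · intro x y h
    have h1 : cls k x = cls k y := tau_inj (by rw [← cls_mv, ← cls_mv, h])
    have h2 : om k x = om k y := by unfold om; rw [h1]
    unfold mv at h
    rw [h2] at h
    exact add_right_cancel h
  · intro y
    have h : ∀ c : ZMod 3, c - (((st2 (letter (tau c)) 0 : ℤ) : ZMod 3) -
        ((st2 (letter (tau c)) 1 : ℤ) : ZMod 3)) = tau c := by decide
    refine ⟨y - st2 (letter (tau (cls k y))), ?_⟩
    have h1 : cls k (y - st2 (letter (tau (cls k y)))) = tau (cls k y) := by
      rw [cls_sub, h]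
    unfold mv om
    rw [h1, sub_add_cancel]

theorem shift_om (v : V 2) (k : ZMod 3) :
    shift v (om k) = om (k + (((v 0 : ℤ) : ZMod 3) - ((v 1 : ℤ) : ZMod 3))) := by
  funext x
  unfold shift om cls
  congr 1
  simp only [Pi.add_apply]
  push_cast
  ring

theorem sum_three (f : ZMod 3 → ENNReal) : ∑ k : ZMod 3, f k = f 0 + f 1 + f 2 := by
  rw [show (Finset.univ : Finset (ZMod 3)) = {0, 1, 2} by decide,
    Finset.sum_insert (by decide), Finset.sum_insert (by decide), Finset.sum_singleton, add_assoc]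

theorem sum_three' (f : ZMod 3 → ℝ) : ∑ k : ZMod 3, f k = f 0 + f 1 + f 2 := by
  rw [show (Finset.univ : Finset (ZMod 3)) = {0, 1, 2} by decide,
    Finset.sum_insert (by decide), Finset.sum_insert (by decide), Finset.sum_singleton, add_assoc]

theorem m0_apply (S : Set (V 2 → Fin 3)) :
    m0 S = (3 : ENNReal)⁻¹ * (S.indicator 1 (om 0) + S.indicator 1 (om 1) + S.indicator 1 (om 2)) := by
  unfold m0
  rw [Measure.smul_apply, Measure.finsetSum_apply, smul_eq_mul, sum_three]
  simp only [Measure.dirac_apply]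

theorem m0_prob : IsProbabilityMeasure m0 := by
  constructor
  rw [m0_apply]
  simp only [Set.indicator_univ, Pi.one_apply]
  rw [show (1 + 1 + 1 : ENNReal) = 3 by norm_num]
  exact ENNReal.inv_mul_cancel (by norm_num) (by norm_num)

theorem m0_map (v : V 2) : m0.map (shift v) = m0 := by
  unfold m0
  rw [Measure.map_smul, Measure.map_finset_sum' (measurable_shiftE v).aemeasurable]
  congr 1
  simp_rw [Measure.map_dirac' (measurable_shiftE v), shift_om]
  exact Equiv.sum_comp (Equiv.addRight (((v 0 : ℤ) : ZMod 3) - ((v 1 : ℤ) : ZMod 3)))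
    fun k => Measure.dirac (om k)

theorem m0_supp : ∀ᵐ ω ∂m0, ω ∈ Cfg st2 := by
  rw [ae_iff, m0_apply]
  have h : ∀ k, Set.indicator {a | a ∉ Cfg st2} (1 : (V 2 → Fin 3) → ENNReal) (om k) = 0 := by
    intro k
    have h' : om k ∉ {a | a ∉ Cfg st2} := fun h => h (om_cfg k)
    exact Set.indicator_of_notMem h' _
  rw [h, h, h]
  simp

theorem m0_inv : Inv (Cfg st2) m0 := ⟨m0_prob, m0_map, m0_supp⟩

theorem om_zero (k : ZMod 3) : om k 0 = letter k := by
  unfold om cls
  simp

theorem m0_mean : mean (chg st2) m0 = fun _ => 1 / 3 := by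
  have := m0_prob
  funext i
  unfold mean m0
  rw [integral_smul_measure, integral_finsetSum_measure]
  · simp_rw [integral_dirac, om_zero]
    rw [sum_three', ENNReal.toReal_inv, ENNReal.toReal_ofNat]
    have e0 : letter 0 = 2 := rfl
    have e1 : letter 1 = 0 := rfl
    have e2 : letter 2 = 1 := rfl
    rw [e0, e1, e2]
    fin_cases i <;> simp [chg, st2]
  · intro k _
    exact integrable_dirac (by finiteness)

/-- The window. -/
def F : Finset (V 2) := {![0, 0], ![-1, 0], ![-1, 1], ![1, 0]}

/-- The second pattern. -/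
def b : V 2 → Fin 3 := fun x =>
  if x = ![0, 0] then 0 else if x = ![-1, 0] then 2 else if x = ![-1, 1] then 1 else 0

theorem same : Same st2 F (om 0) b := by
  refine ⟨?_, ?_, ?_⟩
  · intro x _ y _ h
    exact (om_cfg 0).1 h
  · have h : ∀ x ∈ F, ∀ y ∈ F, mv st2 b x = mv st2 b y → x = y := by decide
    exact fun x hx y hy hxy => h x hx y hy hxy
  · decide

theorem prob_a : m0.real {ω | ∀ x ∈ F, ω x = om 0 x} ≠ m0.real {ω | ∀ x ∈ F, ω x = b x} := by
  have h0 : ∀ k, k ≠ 0 → om k ∉ {ω : V 2 → Fin 3 | ∀ x ∈ F, ω x = om 0 x} := by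
    intro k hk h
    have h1 := h ![0, 0] (by simp [F])
    revert h1
    unfold om cls
    revert k
    decide
  have h1 : ∀ k, om k ∉ {ω : V 2 → Fin 3 | ∀ x ∈ F, ω x = b x} := by
    intro k h
    have h1 := h ![0, 0] (by simp [F])
    have h2 := h ![1, 0] (by simp [F])
    revert h1 h2
    unfold om cls b
    revert k
    decide
  rw [measureReal_def, measureReal_def, m0_apply, m0_apply]
  have h2 : om 0 ∈ {ω : V 2 → Fin 3 | ∀ x ∈ F, ω x = om 0 x} := fun x _ => rfl
  rw [Set.indicator_of_mem h2,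
    Set.indicator_of_notMem (h0 1 (by decide)), Set.indicator_of_notMem (h0 2 (by decide)),
    Set.indicator_of_notMem (h1 0), Set.indicator_of_notMem (h1 1), Set.indicator_of_notMem (h1 2)]
  simp

end CenterPos

theorem center_pos : 0 < Emax st2 (fun _ => 1 / 3) := by
  have h := vp_gain (Cfg st2) (closed_cfg st2) (shift_cfg st2) (chg st2) CenterPos.m0
    CenterPos.m0_inv CenterPos.F (CenterPos.om 0) CenterPos.b
    (fun v ω hω => cfg_pswap st2 _ _ _ (same_tr st2 _ _ _ CenterPos.same v) ω hω)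
    (fun i => same_charge st2 _ _ _ CenterPos.same i) CenterPos.prob_a
  obtain ⟨ν, h1, h2, h3⟩ := h
  have := CenterPos.m0_prob
  have h4 := le_emax st2 ν h1
  rw [h2, CenterPos.m0_mean] at h4
  have h5 := hent_nonneg CenterPos.m0
  linarith

end Helper15.DE
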