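import Pool.Agent.Helper10.DE.X.Feas

/-!
# DE X.13  Continuity of `Ethree` on the octahedron

* `ethree_concave`: `toV` is affine, `nV (toV s) = |s 0| + |s 1| + |s 2|` (`fromV (toV s) = s`), `feas3`,
  `emax_concaveOn`.
* `ethree_usc`: `emax_usc` along sequences.
* `cont3`: let `s n → s` in `octa`.  Upper bound: if `Ethree (s n) > Ethree s + ε` along a subsequence,
  `ethree_usc` with the constant `c = Ethree s + ε` gives a contradiction.  Lower bound: for `s' ∈ octa` let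
  `δ = min` over the eight sign vectors `ε` with `ε·s < 1` of `1 - ε·s` (`δ = 1` if there is none),
  `t = (∑ |s' i - s i|)/δ`.  If `0 < t < 1`, `z = s + (s' - s)/t` is in `octa`: `ε·z = ε·s + ε·(s' - s)/t`; if
  `ε·s = 1`, then `ε·(s' - s) ≤ 0`; else `ε·(s' - s)/t ≤ δ ≤ 1 - ε·s`.  So `s' = (1 - t) s + t z` and
  `Ethree s' ≥ (1 - t) Ethree s + t Ethree z ≥ (1 - t) Ethree s` (`emax_nonneg`).  As `s' → s`, `t → 0`.
-/

noncomputable section

open MeasureTheory Filter Topology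

namespace Helper15.DE

theorem fromV_toV (s : Fin 3 → ℝ) : fromV (toV s) = s := by
  funext i
  fin_cases i
  · change 1 - (1 - s 0 - s 2 + s 1) / 2 - (1 - s 0 - s 2 - s 1) / 2 - s 2 = s 0
    ring
  · change (1 - s 0 - s 2 + s 1) / 2 - (1 - s 0 - s 2 - s 1) / 2 = s 1
    ring
  · rfl

theorem toV_fromV (m : Fin 3 → ℝ) : toV (fromV m) = m := by
  funext i
  fin_cases i
  · change (1 - (1 - m 0 - m 1 - m 2) - m 2 + (m 0 - m 1)) / 2 = m 0
    ring
  · change (1 - (1 - m 0 - m 1 - m 2) - m 2 - (m 0 - m 1)) / 2 = m 1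
    ring
  · rfl

private theorem toV_feas (s : Fin 3 → ℝ) : toV s ∈ Feas st3 ↔ s ∈ octa := by
  rw [feas3, Set.mem_ofPred_eq]
  unfold nV octa
  rw [fromV_toV, Set.mem_ofPred_eq]

private theorem toV_comb (s s' : Fin 3 → ℝ) (a b : ℝ) (hab : a + b = 1) :
    toV (a • s + b • s') = a • toV s + b • toV s' := by
  have hb : b = 1 - a := by linarith
  subst hb
  funext i
  fin_cases i
  · change (1 - (a * s 0 + (1 - a) * s' 0) - (a * s 2 + (1 - a) * s' 2)
      + (a * s 1 + (1 - a) * s' 1)) / 2 = a * ((1 - s 0 - s 2 + s 1) / 2)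
      + (1 - a) * ((1 - s' 0 - s' 2 + s' 1) / 2)
    ring
  · change (1 - (a * s 0 + (1 - a) * s' 0) - (a * s 2 + (1 - a) * s' 2)
      - (a * s 1 + (1 - a) * s' 1)) / 2 = a * ((1 - s 0 - s 2 - s 1) / 2)
      + (1 - a) * ((1 - s' 0 - s' 2 - s' 1) / 2)
    ring
  · rfl

theorem ethree_concave : ConcaveOn ℝ octa Ethree := by
  have hC := emax_concaveOn (A := Fin 6) (by norm_num : 1 ≤ 3) st3
  refine ⟨fun s hs s' hs' a b ha hb hab => ?_, fun s hs s' hs' a b ha hb hab => ?_⟩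
  · rw [← toV_feas] at hs hs' ⊢
    rw [toV_comb s s' a b hab]
    exact hC.1 hs hs' ha hb hab
  · rw [← toV_feas] at hs hs'
    unfold Ethree
    rw [toV_comb s s' a b hab]
    exact hC.2 hs hs' ha hb hab

private theorem toV_cont : Continuous toV := by
  refine continuous_pi fun i => ?_
  fin_cases i
  · change Continuous fun s : Fin 3 → ℝ => (1 - s 0 - s 2 + s 1) / 2
    fun_prop
  · change Continuous fun s : Fin 3 → ℝ => (1 - s 0 - s 2 - s 1) / 2
    fun_prop
  · change Continuous fun s : Fin 3 → ℝ => s 2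
    fun_prop

theorem ethree_usc (s : ℕ → Fin 3 → ℝ) (s₀ : Fin 3 → ℝ) (hs : ∀ n, s n ∈ octa)
    (hs₀ : Tendsto s atTop (𝓝 s₀)) (c : ℕ → ℝ) (c₀ : ℝ) (hc : Tendsto c atTop (𝓝 c₀))
    (hle : ∀ n, c n ≤ Ethree (s n)) : c₀ ≤ Ethree s₀ := by
  have h1 : Tendsto (fun n => toV (s n)) atTop (𝓝 (toV s₀)) :=
    (toV_cont.tendsto s₀).comp hs₀
  exact (emax_usc st3 (fun n => toV (s n)) (toV s₀) h1
    (fun n => (toV_feas (s n)).2 (hs n)) c c₀ hc hle).2

private theorem coord (a u t δ : ℝ) (ht : 0 < t) (ht1 : t ≤ 1) (hu : |u| ≤ t * δ)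
    (hδ : a ≠ 0 → δ ≤ |a|) : |a + u / t| = |a| + (|a + u| - |a|) / t := by
  by_cases ha : a = 0
  · subst ha
    rw [zero_add, zero_add, abs_zero, sub_zero, zero_add, abs_div, abs_of_pos ht]
  · have h1 := hδ ha
    have h2 : |u| / t ≤ δ := by
      rw [div_le_iff₀ ht]
      linarith
    have h3 : |u| ≤ |u| / t := by
      rw [le_div_iff₀ ht]
      nlinarith [abs_nonneg u]
    have h4 : |u / t| = |u| / t := by rw [abs_div, abs_of_pos ht]
    have h5 := abs_le.1 (le_of_eq h4)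
    have h6 := abs_le.1 (le_refl |u|)
    rcases lt_or_gt_of_ne ha with h | h
    · rw [abs_of_neg h] at h1 ⊢
      rw [abs_of_nonpos (by linarith [h5.2] : a + u / t ≤ 0),
        abs_of_nonpos (by linarith [h6.2] : a + u ≤ 0)]
      ring
    · rw [abs_of_pos h] at h1 ⊢
      rw [abs_of_nonneg (by linarith [h5.1] : 0 ≤ a + u / t),
        abs_of_nonneg (by linarith [h6.1] : 0 ≤ a + u)]
      ring

private theorem exists_delta (s : Fin 3 → ℝ) : ∃ δ : ℝ, 0 < δ ∧ (∀ i, s i ≠ 0 → δ ≤ |s i|) ∧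
    (|s 0| + |s 1| + |s 2| < 1 → δ ≤ 1 - (|s 0| + |s 1| + |s 2|)) := by
  have h1 : ∀ x : ℝ, ∃ δ : ℝ, 0 < δ ∧ (x ≠ 0 → δ ≤ |x|) := by
    intro x
    by_cases hx : x = 0
    · exact ⟨1, one_pos, fun h => absurd hx h⟩
    · exact ⟨|x|, abs_pos.2 hx, fun _ => le_refl _⟩
  have h2 : ∀ x : ℝ, ∃ δ : ℝ, 0 < δ ∧ (x < 1 → δ ≤ 1 - x) := by
    intro x
    by_cases hx : x < 1
    · exact ⟨1 - x, by linarith, fun _ => le_refl _⟩
    · exact ⟨1, one_pos, fun h => absurd h hx⟩
  obtain ⟨a, ha, ha'⟩ := h1 (s 0)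
  obtain ⟨b, hb, hb'⟩ := h1 (s 1)
  obtain ⟨c, hc, hc'⟩ := h1 (s 2)
  obtain ⟨e, he, he'⟩ := h2 (|s 0| + |s 1| + |s 2|)
  refine ⟨min (min a b) (min c e), lt_min (lt_min ha hb) (lt_min hc he), ?_, ?_⟩
  · intro i hi
    fin_cases i
    · exact (min_le_left _ _).trans ((min_le_left _ _).trans (ha' hi))
    · exact (min_le_left _ _).trans ((min_le_right _ _).trans (hb' hi))
    · exact (min_le_right _ _).trans ((min_le_left _ _).trans (hc' hi))
  · intro h
    exact (min_le_right _ _).trans ((min_le_right _ _).trans (he' h))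

theorem cont3 : ContinuousOn Ethree octa := by
  intro s hs
  rw [ContinuousWithinAt, Metric.tendsto_nhds]
  intro ε hε
  have hup : ∀ᶠ s' in 𝓝[octa] s, Ethree s' < Ethree s + ε := by
    by_contra hcon
    have hfr : ∃ᶠ s' in 𝓝[octa] s, Ethree s + ε ≤ Ethree s' := by
      rw [Filter.Frequently]
      intro h
      exact hcon (h.mono fun x hx => not_le.1 hx)
    have hfr2 : ∃ᶠ s' in 𝓝[octa] s, Ethree s + ε ≤ Ethree s' ∧ s' ∈ octa :=
      hfr.and_eventually self_mem_nhdsWithin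
    obtain ⟨ns, hns, hp⟩ := Filter.exists_seq_forall_of_frequently hfr2
    have h1 : Tendsto ns atTop (𝓝 s) := hns.mono_right nhdsWithin_le_nhds
    have h2 := ethree_usc ns s (fun n => (hp n).2) h1 (fun _ => Ethree s + ε) (Ethree s + ε)
      tendsto_const_nhds (fun n => (hp n).1)
    linarith
  have hlow : ∀ᶠ s' in 𝓝[octa] s, Ethree s - ε < Ethree s' := by
    obtain ⟨δ, hδ, hδ1, hδ2⟩ := exists_delta s
    have hE : 0 ≤ Ethree s := emax_nonneg _ _
    obtain ⟨t, ht, ht1, htE⟩ : ∃ t : ℝ, 0 < t ∧ t ≤ 1 ∧ t * Ethree s < ε := by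
      refine ⟨min 1 (ε / (2 * (Ethree s + 1))), lt_min one_pos (by positivity), min_le_left _ _, ?_⟩
      have h1 : min 1 (ε / (2 * (Ethree s + 1))) * Ethree s ≤
          ε / (2 * (Ethree s + 1)) * Ethree s :=
        mul_le_mul_of_nonneg_right (min_le_right _ _) hE
      have h2 : ε / (2 * (Ethree s + 1)) * Ethree s < ε := by
        rw [div_mul_eq_mul_div, div_lt_iff₀ (by positivity)]
        nlinarith
      linarith
    have hev : ∀ᶠ s' in 𝓝 s, |s' 0 - s 0| + |s' 1 - s 1| + |s' 2 - s 2| < t * δ := by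
      have hcont : Continuous fun s' : Fin 3 → ℝ =>
          |s' 0 - s 0| + |s' 1 - s 1| + |s' 2 - s 2| := by fun_prop
      have h1 := hcont.tendsto s
      simp only [sub_self, abs_zero, add_zero] at h1
      exact h1.eventually_lt_const (mul_pos ht hδ)
    filter_upwards [nhdsWithin_le_nhds hev, self_mem_nhdsWithin] with s' hs' hs'o
    have hb0 : |s' 0 - s 0| ≤ t * δ := by
      linarith [abs_nonneg (s' 1 - s 1), abs_nonneg (s' 2 - s 2)]
    have hb1 : |s' 1 - s 1| ≤ t * δ := by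
      linarith [abs_nonneg (s' 0 - s 0), abs_nonneg (s' 2 - s 2)]
    have hb2 : |s' 2 - s 2| ≤ t * δ := by
      linarith [abs_nonneg (s' 1 - s 1), abs_nonneg (s' 0 - s 0)]
    have c0 := coord (s 0) (s' 0 - s 0) t δ ht ht1 hb0 (hδ1 0)
    have c1 := coord (s 1) (s' 1 - s 1) t δ ht ht1 hb1 (hδ1 1)
    have c2 := coord (s 2) (s' 2 - s 2) t δ ht ht1 hb2 (hδ1 2)
    rw [add_sub_cancel] at c0 c1 c2
    set z : Fin 3 → ℝ := fun i => s i + (s' i - s i) / t with hz
    have hsO : |s 0| + |s 1| + |s 2| ≤ 1 := hs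
    have hsO' : |s' 0| + |s' 1| + |s' 2| ≤ 1 := hs'o
    have hzO : z ∈ octa := by
      change |s 0 + (s' 0 - s 0) / t| + |s 1 + (s' 1 - s 1) / t| + |s 2 + (s' 2 - s 2) / t| ≤ 1
      rw [c0, c1, c2]
      have h1 : |s 0| + (|s' 0| - |s 0|) / t + (|s 1| + (|s' 1| - |s 1|) / t)
          + (|s 2| + (|s' 2| - |s 2|) / t) = (|s 0| + |s 1| + |s 2|)
          + ((|s' 0| + |s' 1| + |s' 2|) - (|s 0| + |s 1| + |s 2|)) / t := by ring
      rw [h1]
      rcases lt_or_eq_of_le hsO with h2 | h2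
      · have h3 := hδ2 h2
        have h4 : (|s' 0| + |s' 1| + |s' 2|) - (|s 0| + |s 1| + |s 2|) ≤ t * δ := by
          have a0 := abs_sub_abs_le_abs_sub (s' 0) (s 0)
          have a1 := abs_sub_abs_le_abs_sub (s' 1) (s 1)
          have a2 := abs_sub_abs_le_abs_sub (s' 2) (s 2)
          linarith
        have h5 : ((|s' 0| + |s' 1| + |s' 2|) - (|s 0| + |s 1| + |s 2|)) / t ≤ δ := by
          rw [div_le_iff₀ ht]
          linarith
        linarith
      · rw [h2]
        have h5 : ((|s' 0| + |s' 1| + |s' 2|) - 1) / t ≤ 0 :=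
          div_nonpos_of_nonpos_of_nonneg (by linarith) ht.le
        linarith
    have hcomb : (1 - t) • s + t • z = s' := by
      funext i
      change (1 - t) * s i + t * (s i + (s' i - s i) / t) = s' i
      field_simp
      ring
    have hconc := ethree_concave.2 hs hzO (by linarith : (0 : ℝ) ≤ 1 - t) ht.le (by ring)
    rw [hcomb, smul_eq_mul, smul_eq_mul] at hconc
    have hEz : 0 ≤ Ethree z := emax_nonneg _ _
    nlinarith [mul_nonneg ht.le hEz]
  filter_upwards [hup, hlow] with s' h1 h2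
  rw [Real.dist_eq, abs_lt]
  constructor <;> linarith

end Helper15.DE
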