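import Mathlib

/-!
# DE X.1  Supporting affine function of a concave function at an interior point

PROOF.  `E` is concave on `U = interior P`, so continuous on `U` (`ConcaveOn.continuousOn` or
`ConvexOn.continuousOn`, finite dimension).  `H = {(x, t) | x ∈ U, t < E x}` is open and convex in
`(Fin n → ℝ) × ℝ`, does not contain `(z, E z)`.  `geometric_hahn_banach_open_point`: a continuous
linear `L` with `L (x, t) < L (z, E z)` on `H`.  `L (x, t) = L₁ x + c t`; with `x = z`, `t < E z`:
`c > 0` (here `z ∈ U` is used; `c t < c E z` for all `t < E z`).  Letting `t → E x`: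
`E x ≤ E z + (L₁ z - L₁ x)/c` for `x ∈ U`; take `p i = -L₁ (e_i)/c`.  For `x ∈ P`: `x_ε = z + ε (x - z) ∈ U` for
`0 < ε < 1` small (`Convex.combo_interior_self_mem_interior`), `(1 - ε) E z + ε E x ≤ E (x_ε)
≤ E z + ε ∑ p i (x i - z i)`; divide by `ε`.
-/

noncomputable section

namespace Helper15.DE

theorem exists_support {n : ℕ} (P : Set (Fin n → ℝ)) (E : (Fin n → ℝ) → ℝ)
    (hE : ConcaveOn ℝ P E) (z : Fin n → ℝ) (hz : z ∈ interior P) :
    ∃ p : Fin n → ℝ, ∀ x ∈ P, E x ≤ E z + ∑ i, p i * (x i - z i) := by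
  have hU : ConcaveOn ℝ (interior P) E := hE.subset interior_subset hE.1.interior
  have hcont : ContinuousOn E (interior P) := hE.continuousOn_interior
  set H : Set ((Fin n → ℝ) × ℝ) := {p | p.1 ∈ interior P ∧ p.2 < E p.1} with hH
  have hconv : Convex ℝ H := hU.convex_strict_hypograph
  have hopen : IsOpen H := by
    have h1 : IsOpen {p : (Fin n → ℝ) × ℝ | p.1 ∈ interior P} :=
      isOpen_interior.preimage continuous_fst
    have h2 : ContinuousOn (fun p : (Fin n → ℝ) × ℝ => E p.1 - p.2)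
        {p : (Fin n → ℝ) × ℝ | p.1 ∈ interior P} := by
      apply ContinuousOn.sub _ continuous_snd.continuousOn
      exact hcont.comp continuous_fst.continuousOn (fun p hp => hp)
    have h3 := h2.isOpen_inter_preimage h1 isOpen_Ioi (t := Set.Ioi (0 : ℝ))
    have h4 : H = {p : (Fin n → ℝ) × ℝ | p.1 ∈ interior P} ∩
        (fun p : (Fin n → ℝ) × ℝ => E p.1 - p.2) ⁻¹' Set.Ioi 0 := by
      ext p
      simp [hH, sub_pos]
    rw [h4]
    exact h3
  have hnot : ((z, E z) : (Fin n → ℝ) × ℝ) ∉ H := fun h => lt_irrefl _ h.2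
  obtain ⟨L, hL⟩ := geometric_hahn_banach_open_point hconv hopen hnot
  set c : ℝ := L ((0 : Fin n → ℝ), (1 : ℝ)) with hc
  have hsplit : ∀ (x : Fin n → ℝ) (t : ℝ), L (x, t) = L (x, 0) + t * c := by
    intro x t
    have h : ((x, t) : (Fin n → ℝ) × ℝ) = (x, 0) + t • ((0 : Fin n → ℝ), (1 : ℝ)) := by
      ext <;> simp
    rw [h, map_add, map_smul, smul_eq_mul]
  have hlin : ∀ x : Fin n → ℝ, L (x, 0) = ∑ i, x i * L (Pi.single i 1, 0) := by
    intro x
    have h : ((x, 0) : (Fin n → ℝ) × ℝ)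
        = ∑ i, x i • (((Pi.single i 1 : Fin n → ℝ), (0 : ℝ)) : (Fin n → ℝ) × ℝ) := by
      ext j
      · rw [Prod.fst_sum, Finset.sum_apply]
        simp [Pi.single_apply]
      · rw [Prod.snd_sum]
        simp
    rw [h, map_sum]
    apply Finset.sum_congr rfl
    intro i _
    rw [map_smul, smul_eq_mul]
  have hcpos : 0 < c := by
    have h := hL (z, E z - 1) ⟨hz, by simp⟩
    rw [hsplit z (E z - 1), hsplit z (E z)] at h
    nlinarith
  have hin : ∀ x ∈ interior P, L (x, 0) + E x * c ≤ L (z, 0) + E z * c := by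
    intro x hx
    apply le_of_forall_pos_lt_add
    intro ε hε
    have h := hL (x, E x - ε / c) ⟨hx, by simp; positivity⟩
    rw [hsplit x, hsplit z] at h
    have h2 : (E x - ε / c) * c = E x * c - ε := by field_simp
    rw [h2] at h
    linarith
  have hin2 : ∀ x ∈ interior P,
      E x ≤ E z + ∑ i, (-(L (Pi.single i 1, 0)) / c) * (x i - z i) := by
    intro x hx
    have h := hin x hx
    have h3 : ∑ i, (-(L (Pi.single i 1, 0)) / c) * (x i - z i)
        = (L (z, 0) - L (x, 0)) / c := by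
      rw [hlin z, hlin x, ← Finset.sum_sub_distrib, Finset.sum_div]
      apply Finset.sum_congr rfl
      intro i _
      ring
    rw [h3, ← sub_le_iff_le_add', le_div_iff₀ hcpos]
    linarith
  refine ⟨fun i => -(L (Pi.single i 1, 0)) / c, ?_⟩
  intro x hx
  have hmem : (1 / 2 : ℝ) • z + (1 / 2 : ℝ) • x ∈ interior P :=
    hE.1.combo_interior_self_mem_interior hz hx (by norm_num) (by norm_num) (by norm_num)
  have h1 := hin2 _ hmem
  have h2 : (1 / 2 : ℝ) • E z + (1 / 2 : ℝ) • E x ≤ E ((1 / 2 : ℝ) • z + (1 / 2 : ℝ) • x) :=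
    hE.2 (interior_subset hz) hx (by norm_num) (by norm_num) (by norm_num)
  have h3 : ∑ i, (-(L (Pi.single i 1, 0)) / c) * (((1 / 2 : ℝ) • z + (1 / 2 : ℝ) • x) i - z i)
      = 1 / 2 * ∑ i, (-(L (Pi.single i 1, 0)) / c) * (x i - z i) := by
    rw [Finset.mul_sum]
    apply Finset.sum_congr rfl
    intro i _
    simp only [Pi.add_apply, Pi.smul_apply, smul_eq_mul]
    ring
  rw [h3] at h1
  simp only [smul_eq_mul] at h2
  linarith

end Helper15.DE
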