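import Pool.Agent.Helper10.DE.X.Feas
import Pool.Agent.Helper10.DE.X.Support

/-!
# DE X.3  The contact set

`contact st p k = {x ∈ Feas st | Emax st x = k + p·x}`, under `hsup : Emax st x ≤ k + p·x` on `Feas st`.
* `contact_convex`: by concavity and `hsup`.
* `contact_compact`: bounded (inside the compact `Feas st`), closed: for a sequence `x n → x` in the
  contact set: `x ∈ Feas st` and `k + p·x ≤ Emax st x` by `emax_usc` with `c n = k + p·x n`.
* `contact_of_eq`: if `z = t x + (1 - t) y`, `0 < t < 1`, `Emax z = t Emax x + (1 - t) Emax y` and `z` is in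
  the contact set, then `t (ℓ x - Emax x) + (1 - t) (ℓ y - Emax y) = 0` with both brackets `≥ 0`.
* `exists_contact`: at an interior point `z` of `Feas st`: `exists_support`, `k = Emax st z - p·z`.
* `interior_feas`: `triangleO` and `{nV < 1}` are open and contained in `Feas`.
-/

noncomputable section

open MeasureTheory Filter Topology

namespace Helper15.DE

variable {d : ℕ} {A : Type} [Fintype A] [MeasurableSpace A] [MeasurableSingletonClass A]

theorem contact_convex (hd : 1 ≤ d) (st : A → V d) (p : Fin d → ℝ) (k : ℝ)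
    (hsup : ∀ x ∈ Feas st, Emax st x ≤ k + ∑ i, p i * x i) : Convex ℝ (contact st p k) := by
  intro x hx y hy a b ha hb hab
  have hF := feas_convex st hx.1 hy.1 ha hb hab
  refine ⟨hF, le_antisymm (hsup _ hF) ?_⟩
  have hc := (emax_concaveOn hd st).2 hx.1 hy.1 ha hb hab
  simp only [smul_eq_mul] at hc
  rw [hx.2, hy.2] at hc
  refine le_trans (le_of_eq ?_) hc
  have e : ∑ i, p i * (a • x + b • y) i = a * ∑ i, p i * x i + b * ∑ i, p i * y i := by
    rw [Finset.mul_sum, Finset.mul_sum, ← Finset.sum_add_distrib]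
    refine Finset.sum_congr rfl fun i _ => ?_
    simp only [Pi.add_apply, Pi.smul_apply, smul_eq_mul]
    ring
  rw [e]
  linear_combination (-k) * hab

theorem contact_compact (hd : 1 ≤ d) (st : A → V d) (p : Fin d → ℝ) (k : ℝ)
    (hsup : ∀ x ∈ Feas st, Emax st x ≤ k + ∑ i, p i * x i) : IsCompact (contact st p k) := by
  refine IsCompact.of_isClosed_subset (feas_compact st) ?_ fun x hx => hx.1
  refine IsSeqClosed.isClosed ?_
  intro u x hu hx
  have hc : Tendsto (fun n => k + ∑ i, p i * u n i) atTop (𝓝 (k + ∑ i, p i * x i)) := by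
    refine tendsto_const_nhds.add (tendsto_finsetSum _ fun i _ => ?_)
    exact tendsto_const_nhds.mul ((tendsto_pi_nhds.1 hx) i)
  have h := emax_usc st u x hx (fun n => (hu n).1) _ _ hc fun n => le_of_eq (hu n).2.symm
  exact ⟨h.1, le_antisymm (hsup x h.1) h.2⟩

theorem contact_of_eq (hd : 1 ≤ d) (st : A → V d) (p : Fin d → ℝ) (k : ℝ)
    (hsup : ∀ x ∈ Feas st, Emax st x ≤ k + ∑ i, p i * x i) (x y z : Fin d → ℝ)
    (hx : x ∈ Feas st) (hy : y ∈ Feas st) (t : ℝ) (h0 : 0 < t) (h1 : t < 1)
    (hz : z = t • x + (1 - t) • y) (hzc : z ∈ contact st p k)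
    (he : Emax st z = t * Emax st x + (1 - t) * Emax st y) :
    x ∈ contact st p k ∧ y ∈ contact st p k := by
  have hxl := hsup x hx
  have hyl := hsup y hy
  have hzl := hzc.2
  have e : ∑ i, p i * z i = t * ∑ i, p i * x i + (1 - t) * ∑ i, p i * y i := by
    rw [Finset.mul_sum, Finset.mul_sum, ← Finset.sum_add_distrib, hz]
    refine Finset.sum_congr rfl fun i _ => ?_
    simp only [Pi.add_apply, Pi.smul_apply, smul_eq_mul]
    ring
  rw [he, e] at hzl
  have h1' : 0 < 1 - t := by linarith
  have hxe : Emax st x = k + ∑ i, p i * x i := by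
    refine le_antisymm hxl ?_
    by_contra hlt
    push Not at hlt
    have a1 := mul_lt_mul_of_pos_left hlt h0
    have a2 := mul_le_mul_of_nonneg_left hyl h1'.le
    nlinarith
  have hye : Emax st y = k + ∑ i, p i * y i := by
    refine le_antisymm hyl ?_
    by_contra hlt
    push Not at hlt
    have a1 := mul_lt_mul_of_pos_left hlt h1'
    have a2 := mul_le_mul_of_nonneg_left hxl h0.le
    nlinarith
  exact ⟨⟨hx, hxe⟩, ⟨hy, hye⟩⟩

theorem exists_contact (hd : 1 ≤ d) (st : A → V d) (z : Fin d → ℝ)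
    (hz : z ∈ interior (Feas st)) :
    ∃ (p : Fin d → ℝ) (k : ℝ), (∀ x ∈ Feas st, Emax st x ≤ k + ∑ i, p i * x i) ∧
      z ∈ contact st p k := by
  obtain ⟨p, hp⟩ := exists_support (Feas st) (Emax st) (emax_concaveOn hd st) z hz
  refine ⟨p, Emax st z - ∑ i, p i * z i, fun x hx => ?_, interior_subset hz, by ring⟩
  have h := hp x hx
  have e : ∑ i, p i * (x i - z i) = ∑ i, p i * x i - ∑ i, p i * z i := by
    rw [← Finset.sum_sub_distrib]
    exact Finset.sum_congr rfl fun i _ => mul_sub _ _ _
  rw [e] at h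
  linarith

theorem int_feas2 (z : Fin 2 → ℝ) (hz : z ∈ triangleO) : z ∈ interior (Feas st2) := by
  refine mem_interior.2 ⟨triangleO, ?_, ?_, hz⟩
  · intro m hm
    rw [feas2]
    exact ⟨hm.1.le, hm.2.1.le, hm.2.2.le⟩
  · have e : triangleO = {m : Fin 2 → ℝ | 0 < m 0} ∩ ({m | 0 < m 1} ∩ {m | m 0 + m 1 < 1}) := rfl
    rw [e]
    refine (isOpen_lt continuous_const (continuous_apply 0)).inter
      ((isOpen_lt continuous_const (continuous_apply 1)).inter
        (isOpen_lt ((continuous_apply 0).add (continuous_apply 1)) continuous_const))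

theorem int_feas3 (z : Fin 3 → ℝ) (hz : nV z < 1) : z ∈ interior (Feas st3) := by
  refine mem_interior.2 ⟨{m | nV m < 1}, ?_, ?_, hz⟩
  · intro m hm
    rw [feas3]
    have h : nV m < 1 := hm
    exact h.le
  · refine isOpen_lt ?_ continuous_const
    have e : nV = fun m : Fin 3 → ℝ => |1 - m 0 - m 1 - m 2| + |m 0 - m 1| + |m 2| := by
      funext m
      rfl
    rw [e]
    fun_prop

end Helper15.DE
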