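import Pool.Agent.Helper10.DE.ET.Defs

/-!
# DE X: definitions

Even sublattice of `ℤ^3` with the basis `u₁ = e₂ - e₁`, `u₂ = -e₂ - e₁`, `u₃ = e₃ - e₁`.
Letters of `Fin 6`: `0 = +e₁, 1 = -e₁, 2 = +e₂, 3 = -e₂, 4 = +e₃, 5 = -e₃`; `st3 a` are the coordinates
of `(direction a) - e₁`.
-/

noncomputable section

open MeasureTheory Filter Topology

namespace Helper15.DE

/-- Steps of the three-dimensional dimer model. -/
def st3 : Fin 6 → V 3 :=
  ![![0, 0, 0], ![1, 1, 0], ![1, 0, 0], ![0, 1, 0], ![0, 0, 1], ![1, 1, -1]]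

/-- Steps of the honeycomb dimer model. -/
def st2 : Fin 3 → V 2 := ![![0, 0], ![1, 0], ![0, 1]]

/-- From currents in `ℝ^3` to means of the steps. -/
def toV (s : Fin 3 → ℝ) : Fin 3 → ℝ :=
  ![(1 - s 0 - s 2 + s 1) / 2, (1 - s 0 - s 2 - s 1) / 2, s 2]

/-- From means of the steps to currents in `ℝ^3`. -/
def fromV (m : Fin 3 → ℝ) : Fin 3 → ℝ := ![1 - m 0 - m 1 - m 2, m 0 - m 1, m 2]

/-- The `ℓ¹` norm of the current. -/
def nV (m : Fin 3 → ℝ) : ℝ := |fromV m 0| + |fromV m 1| + |fromV m 2|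

/-- The octahedron of currents. -/
def octa : Set (Fin 3 → ℝ) := {s | |s 0| + |s 1| + |s 2| ≤ 1}

/-- The union of its edges. -/
def octaEdges : Set (Fin 3 → ℝ) := {s | |s 0| + |s 1| + |s 2| = 1 ∧ ∃ i, s i = 0}

/-- The triangle of means of `st2`. -/
def triangle : Set (Fin 2 → ℝ) := {m | 0 ≤ m 0 ∧ 0 ≤ m 1 ∧ m 0 + m 1 ≤ 1}

/-- The open triangle. -/
def triangleO : Set (Fin 2 → ℝ) := {m | 0 < m 0 ∧ 0 < m 1 ∧ m 0 + m 1 < 1}

/-- Maximal entropy (per even site) as a function of the current. -/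
def Ethree (s : Fin 3 → ℝ) : ℝ := Emax st3 (toV s)

section

variable {d : ℕ} {A : Type} [Fintype A] [MeasurableSpace A]

/-- The means of invariant measures. -/
def Feas (st : A → V d) : Set (Fin d → ℝ) := {s | ∃ μ, Inv (Cfg st) μ ∧ mean (chg st) μ = s}

/-- Statement of Theorem G. -/
def ThmG (st : A → V d) : Prop :=
  ∀ μ₁ μ₂ : Measure (V d → A), Inv (Cfg st) μ₁ → Inv (Cfg st) μ₂ →
    ∀ a₁ a₂ s : Fin d → ℝ, DC (chg st) μ₁ a₁ → DC (chg st) μ₂ a₂ → a₁ ≠ a₂ →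
      (∀ i, s i = (a₁ i + a₂ i) / 2) → IntPt st s → hent μ₁ + hent μ₂ < 2 * Emax st s

/-- Statement of the mean ergodic theorem in the form needed here. -/
def DCofInv (st : A → V d) : Prop :=
  ∀ μ : Measure (V d → A), Inv (Cfg st) μ → ∀ a : Fin d → ℝ,
    (∀ B : Set (V d → A), MeasurableSet B → (∀ v, shift v ⁻¹' B = B) →
      ∀ i, ∫ ω in B, chg st (ω 0) i ∂μ = μ.real B * a i) → DC (chg st) μ a

/-- The contact set of `Emax st` with the affine function `k + p·x`. -/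
def contact (st : A → V d) (p : Fin d → ℝ) (k : ℝ) : Set (Fin d → ℝ) :=
  {x | x ∈ Feas st ∧ Emax st x = k + ∑ i, p i * x i}

end

end Helper15.DE
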