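import Pool.Agent.Helper10.DE.X.Sym

/-!
# DE X.15  Zero entropy on the edges

`edge_zero`.  Let `μ` be invariant on `Cfg st` with mean `s`, `l·s = l·st a = l·st b`, `l·st c < l·st a` for the
other letters, `st a ≠ st b`, `w = st a - st b ≠ 0`.
(1) `∑_c μ(ω 0 = c)(l·st a - l·st c) = 0` (`mean_eq`): a.s. `ω 0 ∈ {a, b}`, by invariance a.s. `ω x ∈ {a, b}` for all
`x`.
(2) Then a.s. (for `ω ∈ Cfg st`) `ω (x + w) = ω x` for all `x`: the point `x + st a = (x + w) + st b` is hit exactly
once by `mv st ω`; the only candidates are `x` (if `ω x = a`) and `x + w` (if `ω (x + w) = b`).  So `ω x = a` iff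
`ω (x + w) ≠ b` iff `ω (x + w) = a`.
(3) So a.s. the pattern on `box d n` is a function of the pattern on `Y = {y ∈ box d n | y - w ∉ box d n}` (from
`x ∈ box d n` go `x, x - w, x - 2w, ..` until the last point in the box), with `|Y| ≤ (∑ |w i|) n^(d-1)`.
`HF μ (box d n) ≤ HF μ Y ≤ |Y| log |A|` (`ent_congr`, `ent_comp_le`), so `hent μ = lim HF/n^d = 0` (`d ≥ 1`).
Hence `Emax st s = sSup` of a subset of `{0}` `= 0`.
`ethree_edges`: by `ethree_flip` all `s i ≥ 0`.  `s 2 = 0`: `l = (0,-2,-1)`, letters `a = 0`, `b = 2`, `l·toV s = s 0 + s 1 - 1 = 0`.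
`s 1 = 0`: `l = (-1,-1,0)`, letters `0, 4`.  `s 0 = 0`: `l = (1,-1,1)`, letters `2, 4`, value `1`.
-/

noncomputable section

open MeasureTheory Filter Topology

namespace Helper15.DE

variable {d : ℕ} {A : Type} [Fintype A] [MeasurableSpace A] [MeasurableSingletonClass A]

omit [MeasurableSpace A] [MeasurableSingletonClass A] [Fintype A] in
/-- periodicity of the configurations with two letters -/
private theorem per_two (st : A → V d) (a b : A) (hab : st a ≠ st b) (ω : V d → A)
    (hω : ω ∈ Cfg st) (h2 : ∀ x, ω x = a ∨ ω x = b) (x : V d) :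
    ω (x + (st a - st b)) = ω x := by
  have hb : Function.Bijective (mv st ω) := hω
  have hne : a ≠ b := fun h => hab (by rw [h])
  rcases h2 x with hx | hx
  · rcases h2 (x + (st a - st b)) with hy | hy
    · rw [hx, hy]
    · exfalso
      have h1 : mv st ω (x + (st a - st b)) = mv st ω x := by
        unfold mv
        rw [hx, hy]
        abel
      have h3 := hb.1 h1
      have h4 : st a - st b = 0 := by
        have := congrArg (fun z => z - x) h3
        simpa using this
      exact hab (sub_eq_zero.1 h4)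
  · rcases h2 (x + (st a - st b)) with hy | hy
    · exfalso
      obtain ⟨z, hz⟩ := hb.2 (x + st a)
      rcases h2 z with hz' | hz'
      · unfold mv at hz
        rw [hz'] at hz
        have h3 : z = x := add_right_cancel hz
        rw [h3, hx] at hz'
        exact hne hz'.symm
      · unfold mv at hz
        rw [hz'] at hz
        have h3 : z = x + (st a - st b) := by
          have h4 : z = x + st a - st b := eq_sub_of_add_eq hz
          rw [h4]
          abel
        rw [h3, hy] at hz'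
        exact hne hz'
    · rw [hx, hy]

omit [MeasurableSpace A] [MeasurableSingletonClass A] [Fintype A] in
private theorem per_zsmul (ω : V d → A) (w : V d) (h : ∀ x, ω (x + w) = ω x) (k : ℤ)
    (x : V d) : ω (x - k • w) = ω x := by
  have h1 : ∀ (n : ℕ) (x : V d), ω (x + (n : ℤ) • w) = ω x := by
    intro n
    induction n with
    | zero => intro x; simp
    | succ n ih =>
      intro x
      have : x + ((n + 1 : ℕ) : ℤ) • w = (x + w) + (n : ℤ) • w := by
        push_cast
        rw [add_smul, one_smul]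
        abel
      rw [this, ih, h]
  rcases le_total 0 k with hk | hk
  · obtain ⟨n, rfl⟩ := Int.eq_ofNat_of_zero_le hk
    have := h1 n (x - (n : ℤ) • w)
    rw [sub_add_cancel] at this
    exact this.symm
  · obtain ⟨n, hn⟩ := Int.eq_ofNat_of_zero_le (neg_nonneg.2 hk)
    have e : x - k • w = x + (n : ℤ) • w := by
      rw [← hn, neg_smul, sub_eq_add_neg]
    rw [e, h1]

/-- the slab -/
private def slab (i : Fin d) (w : V d) (W : ℤ) (n : ℕ) : Finset (V d) :=
  Fintype.piFinset fun j => if j = i then Finset.Ico 0 |w i| else Finset.Ico (-(n * W)) (n * (1 + W))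

private theorem slab_mem (i : Fin d) (w : V d) (hw : w i ≠ 0) (W : ℤ) (hW : ∀ j, |w j| ≤ W)
    (n : ℕ) (x : V d) (hx : x ∈ box d n) : x - (x i / w i) • w ∈ slab i w W n := by
  unfold slab
  unfold box at hx
  rw [Fintype.mem_piFinset] at hx ⊢
  intro j
  have hxi := Finset.mem_Ico.1 (hx i)
  have hxj := Finset.mem_Ico.1 (hx j)
  have hk : |x i / w i| ≤ n := by
    have h1 := Int.abs_ediv_le_abs (x i) (w i)
    have h2 : |x i| = x i := abs_of_nonneg hxi.1
    rw [h2] at h1
    omega
  rw [Pi.sub_apply, Pi.smul_apply, smul_eq_mul]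
  by_cases hj : j = i
  · subst hj
    rw [if_pos rfl, Finset.mem_Ico]
    have e : x j - x j / w j * w j = x j % w j := by
      have := Int.mul_ediv_add_emod (x j) (w j)
      linarith [mul_comm (w j) (x j / w j)]
    rw [e]
    exact ⟨Int.emod_nonneg _ hw, Int.emod_lt_abs _ hw⟩
  · rw [if_neg hj, Finset.mem_Ico]
    have h1 : |x i / w i * w j| ≤ n * W := by
      rw [abs_mul]
      have h3 : (0 : ℤ) ≤ n := Int.natCast_nonneg n
      exact mul_le_mul hk (hW j) (abs_nonneg _) h3
    have h2 := abs_le.1 h1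
    constructor
    · linarith [h2.2, hxj.1]
    · linarith [h2.1, hxj.2]

private theorem slab_card (i : Fin d) (w : V d) (W : ℤ) (hW : ∀ j, |w j| ≤ W) (n : ℕ) :
    ((slab i w W n).card : ℝ) ≤ W * ((n : ℝ) * (1 + 2 * W)) ^ (d - 1) := by
  classical
  have hW0 : 0 ≤ W := (abs_nonneg _).trans (hW i)
  have h1 : (slab i w W n).card = |w i|.toNat * ((n * (1 + 2 * W)).toNat) ^ (d - 1) := by
    unfold slab
    rw [Fintype.card_piFinset, ← Finset.mul_prod_erase Finset.univ _ (Finset.mem_univ i),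
      if_pos rfl, Int.card_Ico, sub_zero]
    congr 1
    rw [Finset.prod_congr rfl (g := fun _ => (n * (1 + 2 * W)).toNat)]
    · rw [Finset.prod_const, Finset.card_erase_of_mem (Finset.mem_univ i), Finset.card_univ,
        Fintype.card_fin]
    · intro j hj
      rw [if_neg (Finset.ne_of_mem_erase hj), Int.card_Ico]
      congr 1
      ring
  rw [h1]
  push_cast
  have h2 : (((|w i|.toNat : ℕ)) : ℝ) ≤ W := by
    have h3 : ((|w i|.toNat : ℕ) : ℤ) = |w i| := Int.toNat_of_nonneg (abs_nonneg _)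
    have h4 : ((|w i|.toNat : ℕ) : ℤ) ≤ W := by rw [h3]; exact hW i
    exact_mod_cast h4
  have h5 : (((n * (1 + 2 * W)).toNat : ℕ) : ℝ) = (n : ℝ) * (1 + 2 * W) := by
    have h6 : (((n * (1 + 2 * W)).toNat : ℕ) : ℤ) = n * (1 + 2 * W) :=
      Int.toNat_of_nonneg (by positivity)
    have h7 := congrArg (fun z : ℤ => (z : ℝ)) h6
    push_cast at h7
    exact h7
  rw [h5]
  have h8 : (0 : ℝ) ≤ W := by exact_mod_cast hW0
  exact mul_le_mul_of_nonneg_right h2 (by positivity)

/-- entropy of the box from the entropy of the slab -/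
private theorem box_le_slab (μ : Measure (V d → A)) [IsProbabilityMeasure μ] (w : V d)
    (hper : ∀ᵐ ω ∂μ, ∀ x, ω (x + w) = ω x) (i : Fin d) (hw : w i ≠ 0) (W : ℤ)
    (hW : ∀ j, |w j| ≤ W) (n : ℕ) : HF μ (box d n) ≤ HF μ (slab i w W n) := by
  rw [HF_eq_ent, HF_eq_ent]
  have h1 : (fun (ω : V d → A) (x : box d n) => ω x) =ᵐ[μ]
      (fun (p : slab i w W n → A) (x : box d n) =>
        p ⟨(x : V d) - ((x : V d) i / w i) • w, slab_mem i w hw W hW n x x.2⟩) ∘
      (fun (ω : V d → A) (x : slab i w W n) => ω x) := by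
    filter_upwards [hper] with ω hω
    funext x
    exact (per_zsmul ω w hω _ _).symm
  rw [ent_congr μ _ _ h1]
  exact ent_comp_le μ _ (measurable_restr _) _

private theorem hent_zero (hd : 1 ≤ d) (μ : Measure (V d → A)) [IsProbabilityMeasure μ]
    (w : V d) (hw0 : w ≠ 0) (hper : ∀ᵐ ω ∂μ, ∀ x, ω (x + w) = ω x) : hent μ = 0 := by
  obtain ⟨i, hi⟩ : ∃ i, w i ≠ 0 := by
    by_contra hn
    push Not at hn
    exact hw0 (funext hn)
  have hW : ∀ j, |w j| ≤ ∑ j, |w j| := fun j =>
    Finset.single_le_sum (f := fun j => |w j|) (fun j _ => abs_nonneg _) (Finset.mem_univ j)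
  set W : ℤ := ∑ j, |w j| with hWd
  have hL : 0 ≤ Real.log (Fintype.card A) := Real.log_natCast_nonneg _
  set C : ℝ := W * (1 + 2 * W) ^ (d - 1) * Real.log (Fintype.card A) with hC
  have hb : ∀ n : ℕ, 1 ≤ n → hent μ ≤ C / n := by
    intro n hn
    have hn0 : (0 : ℝ) < n := by exact_mod_cast hn
    refine (hent_le μ n hn).trans ?_
    rw [div_le_div_iff₀ (by positivity) hn0]
    have h1 := (box_le_slab μ w hper i hi W hW n).trans (HF_le μ _)
    have h2 : HF μ (box d n) ≤
        W * ((n : ℝ) * (1 + 2 * W)) ^ (d - 1) * Real.log (Fintype.card A) :=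
      h1.trans (mul_le_mul_of_nonneg_right (slab_card i w W hW n) hL)
    have h3 : C * (n : ℝ) ^ d =
        W * ((n : ℝ) * (1 + 2 * W)) ^ (d - 1) * Real.log (Fintype.card A) * n := by
      have h4 : (n : ℝ) ^ d = (n : ℝ) ^ (d - 1) * n := by
        rw [← pow_succ]
        congr 1
        omega
      rw [hC, h4, mul_pow]
      ring
    rw [h3]
    exact mul_le_mul_of_nonneg_right h2 hn0.le
  have hle : hent μ ≤ 0 :=
    ge_of_tendsto (tendsto_const_div_atTop_nhds_zero_nat C)
      (by filter_upwards [eventually_ge_atTop 1] with n hn using hb n hn)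
  exact le_antisymm hle (hent_nonneg μ)

/-- almost surely only the letters `a`, `b` occur -/
private theorem two_letters (st : A → V d) (a b : A) (l : Fin d → ℝ)
    (heq : ∑ i, l i * (st b i : ℝ) = ∑ i, l i * (st a i : ℝ))
    (h : ∀ c, c ≠ a → c ≠ b → ∑ i, l i * (st c i : ℝ) < ∑ i, l i * (st a i : ℝ))
    (s : Fin d → ℝ) (hs : ∑ i, l i * s i = ∑ i, l i * (st a i : ℝ))
    (μ : Measure (V d → A)) (hμ : Inv (Cfg st) μ) (hm : mean (chg st) μ = s) :
    ∀ᵐ ω ∂μ, ∀ x, ω x = a ∨ ω x = b := by
  classical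
  have hP := hμ.prob
  obtain ⟨g, hg⟩ : ∃ g : A → ℝ, ∀ c, g c = ∑ i, l i * (st a i : ℝ) - ∑ i, l i * (st c i : ℝ) :=
    ⟨_, fun _ => rfl⟩
  have hg0 : ∀ c, 0 ≤ g c := by
    intro c
    by_cases h1 : c = a
    · rw [hg, h1]
      simp
    · by_cases h2 : c = b
      · rw [hg, h2]
        simp [heq]
      · rw [hg]
        exact (sub_pos.2 (h c h1 h2)).le
  have hint : ∀ f : A → ℝ, Integrable (fun ω : V d → A => f (ω 0)) μ := by
    intro f
    obtain ⟨C, hC⟩ := Finite.exists_le (fun c : A => |f c|)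
    have h1 : Measurable f := measurable_of_countable _
    exact Integrable.of_bound (h1.comp (measurable_pi_apply 0)).aestronglyMeasurable C
      (Eventually.of_forall fun ω => hC (ω 0))
  have hI : ∫ ω, g (ω 0) ∂μ = 0 := by
    have h1 : ∀ i, ∫ ω, (st (ω 0) i : ℝ) ∂μ = s i := fun i => congrFun hm i
    have h2 : ∫ ω, g (ω 0) ∂μ = ∑ i, l i * (st a i : ℝ) - ∑ i, l i * s i := by
      simp only [hg]
      have h3 : ∫ ω : V d → A, (∑ i, l i * (st a i : ℝ) - ∑ i, l i * (st (ω 0) i : ℝ)) ∂μ =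
          ∫ ω : V d → A, (∑ i, l i * (st a i : ℝ)) ∂μ -
            ∫ ω : V d → A, (∑ i, l i * (st (ω 0) i : ℝ)) ∂μ :=
        integral_sub (integrable_const _) (hint (fun c => ∑ i, l i * (st c i : ℝ)))
      rw [h3, integral_const, probReal_univ, one_smul,
        integral_finsetSum _ (fun i _ => hint (fun c => l i * (st c i : ℝ)))]
      congr 1
      refine Finset.sum_congr rfl fun i _ => ?_
      rw [integral_const_mul, h1]
    rw [h2, hs, sub_self]
  have h0 : ∀ᵐ ω ∂μ, ω 0 = a ∨ ω 0 = b := by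
    have hnn : 0 ≤ (fun ω : V d → A => g (ω 0)) := by
      intro ω
      exact hg0 (ω 0)
    have h1 := (integral_eq_zero_iff_of_nonneg hnn (hint g)).1 hI
    filter_upwards [h1] with ω hω
    by_contra hn
    rw [not_or] at hn
    have h2 := h (ω 0) hn.1 hn.2
    have h3 : g (ω 0) = 0 := hω
    rw [hg] at h3
    linarith
  rw [ae_all_iff]
  intro x
  have h1 := h0
  rw [← hμ.map x] at h1
  have h2 := ae_of_ae_map (measurable_shiftE x).aemeasurable h1
  filter_upwards [h2] with ω hω
  have e : shift x ω 0 = ω x := by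
    unfold shift
    rw [zero_add]
  rwa [e] at hω

theorem edge_zero (hd : 1 ≤ d) (st : A → V d) (a b : A) (hab : st a ≠ st b) (l : Fin d → ℝ)
    (heq : ∑ i, l i * (st b i : ℝ) = ∑ i, l i * (st a i : ℝ))
    (h : ∀ c, c ≠ a → c ≠ b → ∑ i, l i * (st c i : ℝ) < ∑ i, l i * (st a i : ℝ))
    (s : Fin d → ℝ) (hs : ∑ i, l i * s i = ∑ i, l i * (st a i : ℝ)) : Emax st s = 0 := by
  have hz : ∀ μ, Inv (Cfg st) μ → mean (chg st) μ = s → hent μ = 0 := by
    intro μ hμ hm
    have hP := hμ.prob
    refine hent_zero hd μ (st a - st b) (sub_ne_zero.2 hab) ?_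
    filter_upwards [two_letters st a b l heq h s hs μ hμ hm, hμ.supp] with ω h2 hω
    exact per_two st a b hab ω hω h2
  unfold Emax
  have hsub : {h | ∃ μ, Inv (Cfg st) μ ∧ mean (chg st) μ = s ∧ hent μ = h} ⊆ {(0 : ℝ)} := by
    rintro r ⟨μ, hμ, hm, rfl⟩
    exact hz μ hμ hm
  rcases Set.subset_singleton_iff_eq.1 hsub with h1 | h1
  · rw [h1, Real.sSup_empty]
  · rw [h1, csSup_singleton]

theorem ethree_edges (s : Fin 3 → ℝ) (hs : s ∈ octaEdges) : Ethree s = 0 := by
  have hflip : Ethree s = Ethree (fun i => |s i|) := ethree_flip _ _ (fun i => (abs_abs _).symm)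
  rw [hflip]
  obtain ⟨hsum, i, hi⟩ := hs
  unfold Ethree
  have h0 := abs_nonneg (s 0)
  have h1 := abs_nonneg (s 1)
  have h2 := abs_nonneg (s 2)
  fin_cases i
  · have hi' : |s 0| = 0 := by rw [abs_eq_zero]; exact hi
    refine edge_zero (by norm_num) st3 2 4 ?_ ![1, -1, 1] ?_ ?_ _ ?_
    · intro h
      have := congrFun h 0
      simp [st3] at this
    · simp [st3, Fin.sum_univ_three]
    · intro c hc1 hc2
      fin_cases c <;> simp_all [st3, Fin.sum_univ_three]
    · simp [st3, toV, Fin.sum_univ_three]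
      linarith
  · have hi' : |s 1| = 0 := by rw [abs_eq_zero]; exact hi
    refine edge_zero (by norm_num) st3 0 4 ?_ ![-1, -1, 0] ?_ ?_ _ ?_
    · intro h
      have := congrFun h 2
      simp [st3] at this
    · simp [st3, Fin.sum_univ_three]
    · intro c hc1 hc2
      fin_cases c <;> simp_all [st3, Fin.sum_univ_three]
    · simp [st3, toV, Fin.sum_univ_three]
      linarith
  · have hi' : |s 2| = 0 := by rw [abs_eq_zero]; exact hi
    refine edge_zero (by norm_num) st3 0 2 ?_ ![0, -2, -1] ?_ ?_ _ ?_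
    · intro h
      have := congrFun h 0
      simp [st3] at this
    · simp [st3, Fin.sum_univ_three]
    · intro c hc1 hc2
      fin_cases c <;> simp_all [st3, Fin.sum_univ_three]
    · simp [st3, toV, Fin.sum_univ_three]
      linarith

end Helper15.DE
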