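import Pool.Agent.Helper10.DE.X.Feas

/-!
# DE X.4  Maximizers at extreme points of the contact set

* `ext_dc`: let `μ` be a maximizer at the extreme point `a` (`emax_attained`).  By `DCofInv` we must
  show `∫_B chg dμ = μ(B) a` for every invariant measurable `B`.  Clear if `μ B = 0` or `μ Bᶜ = 0`.
  Otherwise let `t = μ.real B`, `μ₁ = μ[|B]`, `μ₂ = μ[|Bᶜ]`: both invariant (`inv_cond`),
  `μ = mix t μ₁ μ₂` (`cond_mix`), `m₁, m₂` their means: `a = t m₁ + (1 - t) m₂` (`mean_mix`), and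
  `hent μ = t hent μ₁ + (1 - t) hent μ₂` (`hent_mix`) `≤ t Emax m₁ + (1 - t) Emax m₂
   ≤ t ℓ(m₁) + (1 - t) ℓ(m₂) = ℓ(a) = Emax a = hent μ`, so `Emax m_j = ℓ(m_j)`: both `m_j` are in the
  contact set; `a` is extreme, `0 < t < 1`: `m₁ = m₂ = a`.  Finally `∫_B chg dμ = μ(B) m₁`.
* `mid_not_int`: if the midpoint `s` of two extreme points `a ≠ b` were in `IntPt st`, then with the
  maximizers of `ext_dc` and `ThmG`: `Emax a + Emax b < 2 Emax s ≤ 2 ℓ(s) = ℓ(a) + ℓ(b) = Emax a + Emax b`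
  (`s ∈ Feas st` by `feas_iff` or convexity).
-/

noncomputable section

open MeasureTheory Filter Topology ProbabilityTheory

namespace Helper15.DE

variable {d : ℕ} {A : Type} [Fintype A] [MeasurableSpace A] [MeasurableSingletonClass A]

/-- The affine function `k + p·x` along a convex combination. -/
private theorem aff_comb (p : Fin d → ℝ) (k t : ℝ) (x y : Fin d → ℝ) :
    k + ∑ i, p i * (t • x + (1 - t) • y) i
      = t * (k + ∑ i, p i * x i) + (1 - t) * (k + ∑ i, p i * y i) := by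
  have h : ∑ i, p i * (t • x + (1 - t) • y) i
      = t * ∑ i, p i * x i + (1 - t) * ∑ i, p i * y i := by
    rw [Finset.mul_sum, Finset.mul_sum, ← Finset.sum_add_distrib]
    refine Finset.sum_congr rfl fun i _ => ?_
    simp only [Pi.add_apply, Pi.smul_apply, smul_eq_mul]
    ring
  rw [h]
  ring

theorem ext_dc (hd : 1 ≤ d) (st : A → V d) (hDC : DCofInv st) (p : Fin d → ℝ) (k : ℝ)
    (hsup : ∀ x ∈ Feas st, Emax st x ≤ k + ∑ i, p i * x i) (a : Fin d → ℝ)
    (ha : a ∈ Set.extremePoints ℝ (contact st p k)) :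
    ∃ μ, Inv (Cfg st) μ ∧ mean (chg st) μ = a ∧ hent μ = Emax st a ∧ DC (chg st) μ a := by
  obtain ⟨⟨haF, haE⟩, hext⟩ := mem_extremePoints.1 ha
  obtain ⟨μ, hμ, hm, he⟩ := emax_attained st a haF
  refine ⟨μ, hμ, hm, he, hDC μ hμ a fun B hB hinv i => ?_⟩
  haveI := hμ.prob
  by_cases h0 : μ B = 0
  · rw [Measure.restrict_eq_zero.2 h0, integral_zero_measure, Measure.real, h0]
    simp
  by_cases h1 : μ Bᶜ = 0
  · have hr : μ.restrict B = μ := by
      have hae : B =ᵐ[μ] (Set.univ : Set (V d → A)) := by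
        rw [ae_eq_univ]
        exact h1
      rw [Measure.restrict_congr_set hae, Measure.restrict_univ]
    have hone : μ.real B = 1 := by
      have h2 := probReal_compl_eq_one_sub (μ := μ) hB
      have h3 : μ.real Bᶜ = 0 := by
        rw [Measure.real, h1]
        simp
      linarith
    rw [hr, hone, one_mul]
    exact congrFun hm i
  have hinvc : ∀ v, shift v ⁻¹' Bᶜ = Bᶜ := fun v => by rw [Set.preimage_compl, hinv v]
  have hI1 := inv_cond (Cfg st) μ hμ B hB hinv h0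
  have hI2 := inv_cond (Cfg st) μ hμ Bᶜ hB.compl hinvc h1
  have hmix := cond_mix μ B hB h0 h1
  have ht0 : 0 < μ.real B := by
    rw [measureReal_def]
    exact ENNReal.toReal_pos h0 (measure_ne_top μ B)
  have ht1 : 0 < 1 - μ.real B := by
    rw [← probReal_compl_eq_one_sub hB, measureReal_def]
    exact ENNReal.toReal_pos h1 (measure_ne_top μ Bᶜ)
  haveI := hI1.prob
  haveI := hI2.prob
  have hM := mean_mix (chg st) (μ.real B) ht0.le (by linarith) (μ[|B]) (μ[|Bᶜ])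
  have hH := hent_mix hd (μ.real B) ht0.le (by linarith) (μ[|B]) (μ[|Bᶜ]) hI1.map hI2.map
  rw [hmix] at hM hH
  rw [hm] at hM
  have e1 := le_emax st _ hI1
  have e2 := le_emax st _ hI2
  have s1 := hsup (mean (chg st) (μ[|B])) ⟨_, hI1, rfl⟩
  have s2 := hsup (mean (chg st) (μ[|Bᶜ])) ⟨_, hI2, rfl⟩
  have hcomb := aff_comb p k (μ.real B) (mean (chg st) (μ[|B])) (mean (chg st) (μ[|Bᶜ]))
  rw [← hM, ← haE, ← he, hH] at hcomb
  have f1 : Emax st (mean (chg st) (μ[|B])) = k + ∑ i, p i * mean (chg st) (μ[|B]) i := by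
    refine le_antisymm s1 ?_
    by_contra hlt
    push Not at hlt
    have g1 : μ.real B * hent (μ[|B]) < μ.real B * (k + ∑ i, p i * mean (chg st) (μ[|B]) i) :=
      mul_lt_mul_of_pos_left (lt_of_le_of_lt e1 hlt) ht0
    have g2 : (1 - μ.real B) * hent (μ[|Bᶜ])
        ≤ (1 - μ.real B) * (k + ∑ i, p i * mean (chg st) (μ[|Bᶜ]) i) :=
      mul_le_mul_of_nonneg_left (e2.trans s2) ht1.le
    linarith
  have f2 : Emax st (mean (chg st) (μ[|Bᶜ])) = k + ∑ i, p i * mean (chg st) (μ[|Bᶜ]) i := by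
    refine le_antisymm s2 ?_
    by_contra hlt
    push Not at hlt
    have g1 : μ.real B * hent (μ[|B]) ≤ μ.real B * (k + ∑ i, p i * mean (chg st) (μ[|B]) i) :=
      mul_le_mul_of_nonneg_left (e1.trans s1) ht0.le
    have g2 : (1 - μ.real B) * hent (μ[|Bᶜ])
        < (1 - μ.real B) * (k + ∑ i, p i * mean (chg st) (μ[|Bᶜ]) i) :=
      mul_lt_mul_of_pos_left (lt_of_le_of_lt e2 hlt) ht1
    linarith
  have hseg : a ∈ openSegment ℝ (mean (chg st) (μ[|B])) (mean (chg st) (μ[|Bᶜ])) :=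
    ⟨μ.real B, 1 - μ.real B, ht0, ht1, by ring, hM.symm⟩
  have hm1 : mean (chg st) (μ[|B]) = a :=
    (hext _ ⟨⟨_, hI1, rfl⟩, f1⟩ _ ⟨⟨_, hI2, rfl⟩, f2⟩ hseg).1
  have hfin : mean (chg st) (μ[|B]) i = (μ.real B)⁻¹ * ∫ ω in B, chg st (ω 0) i ∂μ := by
    unfold mean ProbabilityTheory.cond
    rw [integral_smul_measure, ENNReal.toReal_inv, smul_eq_mul, ← measureReal_def]
  rw [hm1] at hfin
  rw [hfin, mul_inv_cancel_left₀ ht0.ne']

theorem mid_not_int (hd : 1 ≤ d) (st : A → V d) (hDC : DCofInv st) (hG : ThmG st)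
    (p : Fin d → ℝ) (k : ℝ) (hsup : ∀ x ∈ Feas st, Emax st x ≤ k + ∑ i, p i * x i)
    (a b : Fin d → ℝ) (ha : a ∈ Set.extremePoints ℝ (contact st p k))
    (hb : b ∈ Set.extremePoints ℝ (contact st p k)) (hab : a ≠ b) :
    ¬ IntPt st (fun i => (a i + b i) / 2) := by
  intro hint
  obtain ⟨⟨haF, haE⟩, -⟩ := mem_extremePoints.1 ha
  obtain ⟨⟨hbF, hbE⟩, -⟩ := mem_extremePoints.1 hb
  obtain ⟨μ, hμ, -, hμe, hμd⟩ := ext_dc hd st hDC p k hsup a ha
  obtain ⟨ν, hν, -, hνe, hνd⟩ := ext_dc hd st hDC p k hsup b hb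
  have h := hG μ ν hμ hν a b (fun i => (a i + b i) / 2) hμd hνd hab (fun _ => rfl) hint
  obtain ⟨hF, -⟩ := emax_concave hd st a b haF hbF (1 / 2) (by norm_num) (by norm_num)
  have hs : (1 / 2 : ℝ) • a + (1 - 1 / 2 : ℝ) • b = fun i => (a i + b i) / 2 := by
    funext i
    simp only [Pi.add_apply, Pi.smul_apply, smul_eq_mul]
    ring
  have hcomb := aff_comb p k (1 / 2) a b
  rw [hs] at hF hcomb
  have h2 := hsup _ hF
  rw [hμe, hνe] at h
  linarith

end Helper15.DE
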