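import Pool.Agent.Helper10.DE.X.Feas

/-!
# DE X.10  The facet, lower bound

PROOF.  Let `ν` be a maximizer at `(p, q)` for `st2`.  Let `P = Measure.infinitePi (fun _ : ℤ => ν)` on
`ℤ → (V 2 → Fin 3)`, `j : Fin 3 → Fin 6`, `j 0 = 0, j 1 = 2, j 2 = 4`, and
`G θ x = j (θ (x 1) (x 0, x 2))`, `μ = P.map G`.  Shift: `shift v (G θ) = G θ'` with
`θ' k = shift (v 0, v 2) (θ (k + v 1))`; `P` is invariant under `θ ↦ θ'` (reindexing of the product,
`infinitePi_map_piCongrLeft`, and `infinitePi_map_pi` with the measure preserving shift).  Support: a.s. all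
`θ k ∈ Cfg st2`, then `G θ ∈ Cfg st3` (bijective on every plane `x 1 = const`, since `st3 (j a)` =
`(st2 a 0, 0, st2 a 1)`).  Mean: `(p, 0, q)`.  Entropy: the pattern of `G θ` on `box 3 n` is an injective
function of the `n` independent patterns of `θ 0, .., θ (n-1)` on `box 2 n`, each with law of entropy
`HF ν (box 2 n)`; so `HF μ (box 3 n) = n HF ν (box 2 n)` (`indep_ent`, `≥` suffices), `hent μ ≥ hent ν`.
* `indep_ent`: for the product of `n` copies: probabilities multiply,
  `η(∏ p_k) = ∑_k (∏_{l ≠ k} p_l) η(p_k)`, or induction with `ent_prod`.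
-/

noncomputable section

open MeasureTheory Filter Topology

namespace Helper15.DE

private theorem sum_prod_one {α : Type*} [Fintype α] (p : α → ℝ) (hp : ∑ x, p x = 1) (n : ℕ) :
    ∑ a : Fin n → α, ∏ k, p (a k) = 1 := by
  classical
  have h := Fintype.sum_pow p n
  rw [hp, one_pow] at h
  exact h.symm

private theorem sum_nml {α : Type*} [Fintype α] (p : α → ℝ) (hp : ∑ x, p x = 1) (n : ℕ) :
    ∑ a : Fin n → α, Real.negMulLog (∏ k, p (a k)) = n * ∑ x, Real.negMulLog (p x) := by
  classical
  induction n with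
  | zero => simp
  | succ n ih =>
    rw [← (Fin.consEquiv fun _ : Fin (n + 1) => α).sum_comp, Fintype.sum_prod_type]
    have h1 : ∀ (x : α) (b : Fin n → α),
        Real.negMulLog (∏ k, p ((Fin.consEquiv fun _ : Fin (n + 1) => α) (x, b) k)) =
          (∏ k, p (b k)) * Real.negMulLog (p x) + p x * Real.negMulLog (∏ k, p (b k)) := by
      intro x b
      rw [Fin.prod_univ_succ]
      have h2 : (Fin.consEquiv fun _ : Fin (n + 1) => α) (x, b) 0 = x := rfl
      have h3 : ∀ k : Fin n, (Fin.consEquiv fun _ : Fin (n + 1) => α) (x, b) k.succ = b k :=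
        fun k => rfl
      rw [h2]
      simp only [h3]
      rw [Real.negMulLog_mul]
    simp only [h1, Finset.sum_add_distrib, ← Finset.sum_mul, ← Finset.mul_sum,
      sum_prod_one p hp n, ih, hp, one_mul]
    push_cast
    ring

theorem indep_ent {Ω α : Type*} [MeasurableSpace Ω] [Fintype α] [MeasurableSpace α]
    [MeasurableSingletonClass α] (ν : Measure Ω) [IsProbabilityMeasure ν] (X : Ω → α)
    (hX : Measurable X) (n : ℕ) :
    n * ent ν X ≤ ent (Measure.infinitePi (fun _ : ℤ => ν))
      (fun θ (k : Fin n) => X (θ (k : ℕ))) := by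
  classical
  have htot := EntAux.total ν X hX
  have hval : ∀ a : Fin n → α, (Measure.infinitePi (fun _ : ℤ => ν)).real
      ((fun (θ : ℤ → Ω) (k : Fin n) => X (θ (k : ℕ))) ⁻¹' {a}) = ∏ k, ν.real (X ⁻¹' {a k}) := by
    intro a
    let e : Fin n ↪ ℤ := ⟨fun k => ((k : ℕ) : ℤ), fun k l h => by
      have h' : ((k : ℕ) : ℤ) = ((l : ℕ) : ℤ) := h
      exact Fin.ext (by exact_mod_cast h')⟩
    let t : ℤ → Set Ω := fun i => {ω | ∀ k : Fin n, ((k : ℕ) : ℤ) = i → X ω = a k}
    have ht : ∀ k : Fin n, t (e k) = X ⁻¹' {a k} := by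
      intro k
      ext ω
      constructor
      · intro h
        exact h k rfl
      · intro h l hl
        have hl' : l = k := e.injective hl
        rw [hl']
        exact h
    have hset : ((fun (θ : ℤ → Ω) (k : Fin n) => X (θ (k : ℕ))) ⁻¹' {a}) =
        Set.pi ((Finset.univ.map e : Finset ℤ) : Set ℤ) t := by
      ext θ
      rw [Set.mem_preimage, Set.mem_singleton_iff, Set.mem_pi]
      constructor
      · intro h i hi k hk
        rw [← h, ← hk]
      · intro h
        funext k
        exact h (e k) (Finset.mem_coe.2 (Finset.mem_map_of_mem e (Finset.mem_univ k))) k rfl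
    have hmt : ∀ i ∈ Finset.univ.map e, MeasurableSet (t i) := by
      intro i hi
      obtain ⟨k, -, rfl⟩ := Finset.mem_map.1 hi
      rw [ht]
      exact hX (measurableSet_singleton _)
    rw [hset, measureReal_def, Measure.infinitePi_pi _ hmt, Finset.prod_map,
      ENNReal.toReal_prod]
    refine Finset.prod_congr rfl fun k _ => ?_
    rw [ht]
    rfl
  unfold ent
  simp only [hval]
  rw [sum_nml _ htot n]

/-- from the letters of `st3` to the letters of `st2` -/
private def rr : Fin 6 → Fin 3 := ![0, 0, 1, 0, 2, 0]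

/-- from the letters of `st2` to the letters of `st3` -/
private def jj : Fin 3 → Fin 6 := ![0, 2, 4]

/-- the point over `u` in the plane `x 1 = k` -/
private def emb (k : ℤ) (u : V 2) : V 3 := ![u 0, k, u 1]

/-- the projection to the plane -/
private def prj (x : V 3) : V 2 := ![x 0, x 2]

private theorem prj_emb (k : ℤ) (u : V 2) : prj (emb k u) = u := by
  funext i
  fin_cases i
  · rfl
  · rfl

private theorem emb_prj (x : V 3) : emb (x 1) (prj x) = x := by
  funext i
  fin_cases i
  · rfl
  · rfl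
  · rfl

private theorem st3_jj : ∀ a : Fin 3, st3 (jj a) = emb 0 (st2 a) := by
  decide

private theorem rr_jj : ∀ a : Fin 3, rr (jj a) = a := by
  decide

/-- the configuration made of independent layers -/
private def gl (θ : ℤ → (V 2 → Fin 3)) : V 3 → Fin 6 := fun x => jj (θ (x 1) (prj x))

private theorem measurable_gl : Measurable gl :=
  measurable_pi_lambda _ fun x => (measurable_of_countable jj).comp
    ((measurable_pi_apply (prj x)).comp (measurable_pi_apply (x 1)))

/-- the shift of the layers -/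
private def sl (v : V 3) (θ : ℤ → (V 2 → Fin 3)) : ℤ → (V 2 → Fin 3) :=
  fun k => shift (prj v) (θ (k + v 1))

private theorem measurable_sl (v : V 3) : Measurable (sl v) :=
  measurable_pi_lambda _ fun k => (measurable_shiftE (prj v)).comp (measurable_pi_apply (k + v 1))

private theorem gl_shift (v : V 3) (θ : ℤ → (V 2 → Fin 3)) :
    shift v (gl θ) = gl (sl v θ) := by
  funext x
  change jj (θ (x 1 + v 1) (prj (x + v))) = jj (θ (x 1 + v 1) (prj x + prj v))
  congr 2
  funext i
  fin_cases i
  · rfl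
  · rfl

private theorem sl_map (v : V 3) {ν : Measure (V 2 → Fin 3)} [IsProbabilityMeasure ν]
    (hν : ∀ v, ν.map (shift v) = ν) :
    (Measure.infinitePi (fun _ : ℤ => ν)).map (sl v) = Measure.infinitePi (fun _ : ℤ => ν) := by
  classical
  refine Measure.eq_infinitePi _ fun s t ht => ?_
  rw [Measure.map_apply (measurable_sl v)
    (MeasurableSet.pi s.countable_toSet fun i _ => ht i)]
  have h1 : sl v ⁻¹' (Set.pi (s : Set ℤ) t) =
      Set.pi ((s.map (addRightEmbedding (v 1)) : Finset ℤ) : Set ℤ)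
        (fun k => shift (prj v) ⁻¹' (t (k - v 1))) := by
    ext θ
    rw [Set.mem_preimage, Set.mem_pi, Set.mem_pi]
    constructor
    · intro h k hk
      obtain ⟨i, hi, rfl⟩ := Finset.mem_map.1 (Finset.mem_coe.1 hk)
      change shift (prj v) (θ (i + v 1)) ∈ t (i + v 1 - v 1)
      rw [add_sub_cancel_right]
      exact h i hi
    · intro h i hi
      have h2 := h (i + v 1) (Finset.mem_coe.2 (Finset.mem_map.2 ⟨i, hi, rfl⟩))
      change shift (prj v) (θ (i + v 1)) ∈ t (i + v 1 - v 1) at h2
      rw [add_sub_cancel_right] at h2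
      exact h2
  rw [h1, Measure.infinitePi_pi _ (fun k _ => measurable_shiftE _ (ht _)), Finset.prod_map]
  refine Finset.prod_congr rfl fun i _ => ?_
  change ν (shift (prj v) ⁻¹' (t (i + v 1 - v 1))) = ν (t i)
  rw [add_sub_cancel_right, ← Measure.map_apply (measurable_shiftE _) (ht i), hν]

private theorem gl_cfg {θ : ℤ → (V 2 → Fin 3)} (h : ∀ k, θ k ∈ Cfg st2) : gl θ ∈ Cfg st3 := by
  have key : ∀ x, mv st3 (gl θ) x = emb (x 1) (mv st2 (θ (x 1)) (prj x)) := by
    intro x
    have h1 : mv st3 (gl θ) x = x + st3 (jj (θ (x 1) (prj x))) := rfl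
    rw [h1, st3_jj]
    funext i
    fin_cases i
    · rfl
    · change x 1 + 0 = x 1
      rw [add_zero]
    · rfl
  constructor
  · intro x y hxy
    rw [key, key] at hxy
    have h1 : x 1 = y 1 := congrFun hxy 1
    have h2 : mv st2 (θ (x 1)) (prj x) = mv st2 (θ (y 1)) (prj y) := by
      have h3 := congrArg prj hxy
      rw [prj_emb, prj_emb] at h3
      exact h3
    rw [h1] at h2
    have h4 := (h (y 1)).1 h2
    rw [← emb_prj x, ← emb_prj y, h1, h4]
  · intro w
    obtain ⟨u, hu⟩ := (h (w 1)).2 (prj w)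
    refine ⟨emb (w 1) u, ?_⟩
    rw [key]
    have h1 : emb (w 1) u 1 = w 1 := rfl
    rw [h1, prj_emb, hu, emb_prj]

private theorem mem_boxG {d n : ℕ} (x : V d) : x ∈ box d n ↔ ∀ i, 0 ≤ x i ∧ x i < (n : ℤ) := by
  unfold box
  rw [Fintype.mem_piFinset]
  simp only [Finset.mem_Ico]

private theorem emb_mem {n : ℕ} (k : Fin n) (u : box 2 n) :
    emb ((k : ℕ) : ℤ) (u : V 2) ∈ box 3 n := by
  rw [mem_boxG]
  have hu := (mem_boxG (u : V 2)).1 u.2
  intro i
  fin_cases i
  · exact hu 0
  · have := k.2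
    change (0 : ℤ) ≤ ((k : ℕ) : ℤ) ∧ ((k : ℕ) : ℤ) < n
    omega
  · exact hu 1

private theorem HF_layers {ν : Measure (V 2 → Fin 3)} [IsProbabilityMeasure ν] (n : ℕ) :
    n * HF ν (box 2 n) ≤ HF ((Measure.infinitePi (fun _ : ℤ => ν)).map gl) (box 3 n) := by
  classical
  rw [HF_eq_ent, HF_eq_ent, ent_map _ gl measurable_gl _ (measurable_restr _)]
  refine (indep_ent ν _ (measurable_restr (box 2 n)) n).trans ?_
  let g : (box 3 n → Fin 6) → Fin n → box 2 n → Fin 3 := fun b k u =>
    rr (b ⟨emb ((k : ℕ) : ℤ) (u : V 2), emb_mem k u⟩)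
  have h1 : (fun (θ : ℤ → (V 2 → Fin 3)) (k : Fin n) =>
      (fun (ω : V 2 → Fin 3) (x : box 2 n) => ω x) (θ (k : ℕ))) =
      g ∘ ((fun (ω : V 3 → Fin 6) (x : box 3 n) => ω x) ∘ gl) := by
    funext θ k u
    change θ (k : ℕ) (u : V 2) = rr (jj (θ (emb ((k : ℕ) : ℤ) (u : V 2) 1)
      (prj (emb ((k : ℕ) : ℤ) (u : V 2)))))
    rw [rr_jj, prj_emb]
    rfl
  rw [h1]
  exact ent_comp_le _ _ ((measurable_restr _).comp measurable_gl) g

theorem facet_ge (p q : ℝ) (h : ![p, q] ∈ triangle) :
    Emax st2 ![p, q] ≤ Emax st3 ![p, 0, q] := by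
  have hf : ![p, q] ∈ Feas st2 := by
    rw [feas2]
    exact h
  obtain ⟨ν, hν, hm, he⟩ := emax_attained st2 ![p, q] hf
  have := hν.prob
  set P := Measure.infinitePi (fun _ : ℤ => ν) with hP
  have hinv : Inv (Cfg st3) (P.map gl) := by
    refine ⟨Measure.isProbabilityMeasure_map measurable_gl.aemeasurable, fun v => ?_, ?_⟩
    · rw [Measure.map_map (measurable_shiftE v) measurable_gl]
      have h1 : shift v ∘ gl = gl ∘ sl v := by
        funext θ
        exact gl_shift v θ
      rw [h1, ← Measure.map_map measurable_gl (measurable_sl v), hP, sl_map v hν.map]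
    · refine (ae_map_iff measurable_gl.aemeasurable
        (closed_measurable _ (closed_cfg st3))).2 ?_
      have h1 : ∀ᵐ θ ∂P, ∀ k, θ k ∈ Cfg st2 := by
        rw [ae_all_iff]
        intro k
        exact (measurePreserving_eval_infinitePi (fun _ : ℤ => ν) k).quasiMeasurePreserving.ae
          hν.supp
      filter_upwards [h1] with θ hθ using gl_cfg hθ
  have := hinv.prob
  have hmean : mean (chg st3) (P.map gl) = ![p, 0, q] := by
    have h1 : ∀ i : Fin 3, mean (chg st3) (P.map gl) i =
        ∫ ω, (emb 0 (st2 (ω 0)) i : ℝ) ∂ν := by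
      intro i
      unfold mean
      have hmm : Measurable fun ω : V 3 → Fin 6 => chg st3 (ω 0) i :=
        (measurable_of_countable fun a : Fin 6 => chg st3 a i).comp (measurable_pi_apply 0)
      rw [integral_map measurable_gl.aemeasurable hmm.aestronglyMeasurable]
      have hmm2 : Measurable fun ω : V 2 → Fin 3 => ((emb 0 (st2 (ω 0)) i : ℤ) : ℝ) :=
        (measurable_of_countable fun a : Fin 3 => ((emb 0 (st2 a) i : ℤ) : ℝ)).comp
          (measurable_pi_apply 0)
      have h2 := (measurePreserving_eval_infinitePi (fun _ : ℤ => ν) 0)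
      rw [← h2.map_eq, integral_map h2.measurable.aemeasurable hmm2.aestronglyMeasurable]
      refine integral_congr_ae (Filter.Eventually.of_forall fun θ => ?_)
      change ((st3 (jj (θ 0 (prj 0))) i : ℤ) : ℝ) = ((emb 0 (st2 (θ 0 0)) i : ℤ) : ℝ)
      have h3 : prj 0 = 0 := by
        funext i
        fin_cases i
        · rfl
        · rfl
      rw [st3_jj, h3]
    funext i
    fin_cases i
    · change mean (chg st3) (P.map gl) 0 = p
      rw [h1 0]
      exact congrFun hm 0
    · change mean (chg st3) (P.map gl) 1 = 0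
      rw [h1 1]
      have h2 : ∀ ω : V 2 → Fin 3, ((emb 0 (st2 (ω 0)) 1 : ℤ) : ℝ) = 0 := by
        intro ω
        have h3 : emb 0 (st2 (ω 0)) 1 = 0 := rfl
        rw [h3, Int.cast_zero]
      simp only [h2, integral_zero]
    · change mean (chg st3) (P.map gl) 2 = q
      rw [h1 2]
      exact congrFun hm 1
  have hle : hent ν ≤ hent (P.map gl) := by
    refine le_of_tendsto_of_tendsto' (hent_tendsto ν hν.map)
      (hent_tendsto (P.map gl) hinv.map) fun n => ?_
    rcases Nat.eq_zero_or_pos n with h0 | h0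
    · subst h0
      simp
    · have hn : (0 : ℝ) < n := by exact_mod_cast h0
      have h1 := HF_layers (ν := ν) n
      rw [div_le_div_iff₀ (by positivity) (by positivity)]
      have h2 := mul_le_mul_of_nonneg_right h1 (by positivity : (0 : ℝ) ≤ (n : ℝ) ^ 2)
      calc HF ν (box 2 n) * (n : ℝ) ^ 3 = n * HF ν (box 2 n) * (n : ℝ) ^ 2 := by ring
        _ ≤ HF (P.map gl) (box 3 n) * (n : ℝ) ^ 2 := h2
  rw [← he]
  refine hle.trans ?_
  have h1 := le_emax st3 (P.map gl) hinv
  rw [hmean] at h1
  exact h1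

end Helper15.DE
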