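import Pool.Agent.Helper10.DE.X.Feas

/-!
# DE X.9  The facet, upper bound

PROOF.  Let `μ` be a maximizer at `(p, 0, q)` for `st3` (feasible by `feas_iff`).  The coordinate `1` of
`st3 a` is `0` for `a = 0, 2, 4` and `1` for `a = 1, 3, 5`; its mean is `0`, so a.s. `ω 0 ∈ {0, 2, 4}`, and
by invariance a.s. all letters are in `{0, 2, 4}`.  Let `r : Fin 6 → Fin 3`, `r 0 = 0, r 2 = 1, r 4 = 2` (others
arbitrary) and `(π ω) u = r (ω (u 0, 0, u 1))`, `ν = μ.map π`.  `ν` is invariant under shifts
(`π (shift (v 0, 0, v 1) ω) = shift v (π ω)`).  For `ω ∈ Cfg st3` with letters in `{0,2,4}` the map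
`mv st3 ω` preserves every plane `x 1 = const`, and it is bijective on `ℤ^3`, hence on the plane
`x 1 = 0`, where it is `mv st2 (π ω)` in the coordinates `(x 0, x 2)`: `π ω ∈ Cfg st2`.  Mean of `ν`: `(p, q)`.
`HF μ (box 3 n) ≤ ∑_{k < n} HF μ {x ∈ box 3 n | x 1 = k} = n HF μ {x ∈ box 3 n | x 1 = 0} = n HF ν (box 2 n)`:
subadditivity (`HF_biUnion_le`), invariance, and `ent` of an a.s. injective recoding (`ent_congr`,
`ent_comp_le` in both directions: a.s. `ω x` is a function of `r (ω x)`).  Divide by `n^3`, `n → ∞`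
(`hent_tendsto`): `hent μ ≤ hent ν ≤ Emax st2 (p, q)`.
-/

noncomputable section

open MeasureTheory Filter Topology

namespace Helper15.DE

/-- from the letters of `st3` to the letters of `st2` -/
private def rr : Fin 6 → Fin 3 := ![0, 0, 1, 0, 2, 0]

/-- from the letters of `st2` to the letters of `st3` -/
private def jj : Fin 3 → Fin 6 := ![0, 2, 4]

/-- the plane `x 1 = 0` -/
private def emb (u : V 2) : V 3 := ![u 0, 0, u 1]

/-- the projection to the plane -/
private def prj (x : V 3) : V 2 := ![x 0, x 2]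

/-- the configuration on the plane `x 1 = 0` -/
private def pr (ω : V 3 → Fin 6) : V 2 → Fin 3 := fun u => rr (ω (emb u))

private theorem emb_add (u v : V 2) : emb (u + v) = emb u + emb v := by
  funext i
  fin_cases i
  · rfl
  · rfl
  · rfl

private theorem prj_emb (u : V 2) : prj (emb u) = u := by
  funext i
  fin_cases i
  · rfl
  · rfl

private theorem emb_prj {x : V 3} (h : x 1 = 0) : emb (prj x) = x := by
  funext i
  fin_cases i
  · rfl
  · exact h.symm
  · rfl

private theorem emb_inj {u v : V 2} (h : emb u = emb v) : u = v := by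
  rw [← prj_emb u, ← prj_emb v, h]

private theorem good : ∀ a : Fin 6, st3 a 1 = 0 → st3 a = emb (st2 (rr a)) ∧ jj (rr a) = a := by
  decide

private theorem nonneg1 : ∀ a : Fin 6, 0 ≤ st3 a 1 := by
  decide

private theorem measurable_pr : Measurable pr :=
  measurable_pi_lambda _ fun u => (measurable_of_countable rr).comp (measurable_pi_apply (emb u))

private theorem pr_shift (v : V 2) (ω : V 3 → Fin 6) : shift v (pr ω) = pr (shift (emb v) ω) := by
  funext u
  change rr (ω (emb (u + v))) = rr (ω (emb u + emb v))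
  rw [emb_add]

private theorem pr_cfg {ω : V 3 → Fin 6} (h : ω ∈ Cfg st3) (hg : ∀ x, st3 (ω x) 1 = 0) :
    pr ω ∈ Cfg st2 := by
  have key : ∀ u, mv st3 ω (emb u) = emb (mv st2 (pr ω) u) := by
    intro u
    unfold mv
    rw [(good _ (hg (emb u))).1, emb_add]
    rfl
  constructor
  · intro u v huv
    apply emb_inj
    apply h.1
    rw [key, key, huv]
  · intro w
    obtain ⟨x, hx⟩ := h.2 (emb w)
    have h1 : x 1 = 0 := by
      have h2 := congrFun hx 1
      have h3 : mv st3 ω x 1 = x 1 + st3 (ω x) 1 := rfl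
      rw [h3, hg x, add_zero] at h2
      exact h2
    refine ⟨prj x, ?_⟩
    apply emb_inj
    rw [← key, emb_prj h1, hx]

private theorem good_ae {μ : Measure (V 3 → Fin 6)} (hμ : Inv (Cfg st3) μ)
    (h1 : mean (chg st3) μ 1 = 0) : ∀ᵐ ω ∂μ, ∀ x, st3 (ω x) 1 = 0 := by
  have := hμ.prob
  have h2 := mean_eq (chg st3) μ 1
  rw [h1] at h2
  have h3 : ∀ a : Fin 6, 0 ≤ chg st3 a 1 * μ.real {ω | ω 0 = a} := fun a =>
    mul_nonneg (by unfold chg; exact_mod_cast nonneg1 a) measureReal_nonneg
  have h4 := (Finset.sum_eq_zero_iff_of_nonneg fun a _ => h3 a).1 h2.symm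
  have h5 : ∀ᵐ ω ∂μ, st3 (ω 0) 1 = 0 := by
    have h6 : ∀ a : Fin 6, st3 a 1 ≠ 0 → ∀ᵐ ω ∂μ, ω 0 ≠ a := by
      intro a ha
      have h7 := h4 a (Finset.mem_univ a)
      have h8 : chg st3 a 1 ≠ 0 := by
        unfold chg
        exact_mod_cast ha
      have h9 := (mul_eq_zero.1 h7).resolve_left h8
      rw [measureReal_eq_zero_iff] at h9
      rw [ae_iff]
      simpa using h9
    have h10 : ∀ᵐ ω ∂μ, ∀ a : Fin 6, st3 a 1 ≠ 0 → ω 0 ≠ a := by
      rw [ae_all_iff]
      intro a
      by_cases ha : st3 a 1 = 0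
      · exact Filter.Eventually.of_forall fun ω h => absurd ha h
      · filter_upwards [h6 a ha] with ω hω _ using hω
    filter_upwards [h10] with ω hω
    by_contra hne
    exact hω _ hne rfl
  rw [ae_all_iff]
  intro x
  have h11 : ∀ᵐ ω ∂(μ.map (shift x)), st3 (ω 0) 1 = 0 := by
    rw [hμ.map x]
    exact h5
  have h12 := ae_of_ae_map (measurable_shiftE x).aemeasurable h11
  filter_upwards [h12] with ω hω
  have h13 : shift x ω 0 = ω x := by
    unfold shift
    rw [zero_add]
  rw [h13] at hω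
  exact hω

private theorem mem_boxF {d n : ℕ} (x : V d) : x ∈ box d n ↔ ∀ i, 0 ≤ x i ∧ x i < (n : ℤ) := by
  unfold box
  rw [Fintype.mem_piFinset]
  simp only [Finset.mem_Ico]

private theorem HF_plane {μ : Measure (V 3 → Fin 6)} [IsProbabilityMeasure μ]
    (hg : ∀ᵐ ω ∂μ, ∀ x, st3 (ω x) 1 = 0) (F : Finset (V 2)) :
    HF μ (F.image emb) ≤ HF (μ.map pr) F := by
  classical
  rw [HF_eq_ent, HF_eq_ent, ent_map μ pr measurable_pr _ (measurable_restr F)]
  have hmem : ∀ y : (F.image emb : Finset (V 3)), prj y ∈ F := by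
    rintro ⟨y, hy⟩
    obtain ⟨u, hu, rfl⟩ := Finset.mem_image.1 hy
    change prj (emb u) ∈ F
    rw [prj_emb]
    exact hu
  let g : (F → Fin 3) → {y // y ∈ F.image emb} → Fin 6 := fun b y => jj (b ⟨prj y, hmem y⟩)
  have h1 : (fun (ω : V 3 → Fin 6) (y : (F.image emb : Finset (V 3))) => ω y) =ᵐ[μ]
      g ∘ ((fun (ω' : V 2 → Fin 3) (x : F) => ω' x) ∘ pr) := by
    filter_upwards [hg] with ω hω
    funext y
    obtain ⟨y, hy⟩ := y
    obtain ⟨u, hu, rfl⟩ := Finset.mem_image.1 hy
    change ω (emb u) = jj (rr (ω (emb (prj (emb u)))))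
    rw [prj_emb, (good _ (hω (emb u))).2]
  rw [ent_congr μ _ _ h1]
  exact ent_comp_le μ _ ((measurable_restr F).comp measurable_pr) g

private theorem HF_slabs {μ : Measure (V 3 → Fin 6)} (hμ : Inv (Cfg st3) μ) (n : ℕ) :
    HF μ (box 3 n) ≤ n * HF μ ((box 2 n).image emb) := by
  classical
  have := hμ.prob
  let e : ℕ → V 3 := fun k => ![0, (k : ℤ), 0]
  have h1 : box 3 n ⊆ (Finset.range n).biUnion fun k =>
      ((box 2 n).image emb).image fun x => x + e k := by
    intro x hx
    rw [mem_boxF] at hx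
    rw [Finset.mem_biUnion]
    refine ⟨(x 1).toNat, ?_, ?_⟩
    · rw [Finset.mem_range]
      have := hx 1
      omega
    · rw [Finset.mem_image]
      refine ⟨emb (prj x), Finset.mem_image_of_mem _ ?_, ?_⟩
      · rw [mem_boxF]
        intro i
        fin_cases i
        · exact hx 0
        · exact hx 2
      · have h0 : (((x 1).toNat : ℕ) : ℤ) = x 1 := Int.toNat_of_nonneg (hx 1).1
        funext i
        fin_cases i
        · change x 0 + 0 = x 0
          rw [add_zero]
        · change 0 + (((x 1).toNat : ℕ) : ℤ) = x 1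
          rw [zero_add, h0]
        · change x 2 + 0 = x 2
          rw [add_zero]
  refine (HF_mono μ _ _ h1).trans ((HF_biUnion_le μ _ _).trans ?_)
  have h2 : ∀ k ∈ Finset.range n, HF μ (((box 2 n).image emb).image fun x => x + e k) =
      HF μ ((box 2 n).image emb) := by
    intro k _
    rw [← HF_shift, hμ.map]
  rw [Finset.sum_congr rfl h2, Finset.sum_const, Finset.card_range, nsmul_eq_mul]

theorem facet_le (p q : ℝ) (h : ![p, q] ∈ triangle) :
    Emax st3 ![p, 0, q] ≤ Emax st2 ![p, q] := by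
  have hf : ![p, 0, q] ∈ Feas st3 := by
    rw [feas3]
    obtain ⟨h0, h1, h2⟩ := h
    change 0 ≤ p at h0
    change 0 ≤ q at h1
    change p + q ≤ 1 at h2
    change |1 - p - 0 - q| + |p - 0| + |q| ≤ 1
    rw [abs_of_nonneg (by linarith), abs_of_nonneg (by linarith), abs_of_nonneg h1]
    linarith
  obtain ⟨μ, hμ, hm, he⟩ := emax_attained st3 ![p, 0, q] hf
  have := hμ.prob
  have hg := good_ae hμ (by rw [hm]; rfl)
  have hν : Inv (Cfg st2) (μ.map pr) := by
    refine ⟨Measure.isProbabilityMeasure_map measurable_pr.aemeasurable, fun v => ?_, ?_⟩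
    · rw [Measure.map_map (measurable_shiftE v) measurable_pr]
      have h1 : shift v ∘ pr = pr ∘ shift (emb v) := by
        funext ω
        exact pr_shift v ω
      rw [h1, ← Measure.map_map measurable_pr (measurable_shiftE _), hμ.map]
    · refine (ae_map_iff measurable_pr.aemeasurable
        (closed_measurable _ (closed_cfg st2))).2 ?_
      filter_upwards [hg, hμ.supp] with ω h1 h2 using pr_cfg h2 h1
  have := hν.prob
  have hmean : mean (chg st2) (μ.map pr) = ![p, q] := by
    have h1 : ∀ i : Fin 2, ∀ i' : Fin 3, (∀ u : V 2, emb u i' = u i) →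
        mean (chg st2) (μ.map pr) i = mean (chg st3) μ i' := by
      intro i i' hi
      unfold mean
      have hmm : Measurable fun ω : V 2 → Fin 3 => chg st2 (ω 0) i :=
        (measurable_of_countable fun a : Fin 3 => chg st2 a i).comp (measurable_pi_apply 0)
      rw [integral_map measurable_pr.aemeasurable hmm.aestronglyMeasurable]
      refine integral_congr_ae ?_
      filter_upwards [hg] with ω hω
      unfold chg
      have h2 := (good _ (hω 0)).1
      have h3 : pr ω 0 = rr (ω 0) := by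
        change rr (ω (emb 0)) = rr (ω 0)
        congr 2
        funext i
        fin_cases i
        · rfl
        · rfl
        · rfl
      rw [h3, h2, hi]
    funext i
    fin_cases i
    · change mean (chg st2) (μ.map pr) 0 = p
      rw [h1 0 0 (fun u => rfl), hm]
      rfl
    · change mean (chg st2) (μ.map pr) 1 = q
      rw [h1 1 2 (fun u => rfl), hm]
      rfl
  have hle : hent μ ≤ hent (μ.map pr) := by
    refine le_of_tendsto_of_tendsto' (hent_tendsto μ hμ.map)
      (hent_tendsto (μ.map pr) hν.map) fun n => ?_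
    rcases Nat.eq_zero_or_pos n with h0 | h0
    · subst h0
      simp
    · have hn : (0 : ℝ) < n := by exact_mod_cast h0
      have h1 := (HF_slabs hμ n).trans
        (mul_le_mul_of_nonneg_left (HF_plane hg (box 2 n)) hn.le)
      rw [div_le_div_iff₀ (by positivity) (by positivity)]
      have h2 := mul_le_mul_of_nonneg_right h1 (by positivity : (0 : ℝ) ≤ (n : ℝ) ^ 2)
      calc HF μ (box 3 n) * (n : ℝ) ^ 2 ≤ n * HF (μ.map pr) (box 2 n) * (n : ℝ) ^ 2 := h2
        _ = HF (μ.map pr) (box 2 n) * (n : ℝ) ^ 3 := by ring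
  rw [← he]
  refine hle.trans ?_
  have h1 := le_emax st2 (μ.map pr) hν
  rw [hmean] at h1
  exact h1

end Helper15.DE
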