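import Pool.Agent.Helper10.DE.X.Defs
import Pool.Agent.Helper10.DE.CP.Emax

/-!
# DE X.2  The set of feasible means

* `feas_iff`: `mean (chg st) μ i = ∑_a st a i μ(ω 0 = a)` (`mean_eq`), with weights `p a = μ.real {ω 0 = a}`;
  conversely the constant configuration `a` is in `Cfg st` (translation) and fixed by the shifts; the
  measure `∑_a p a dirac (const a)` is invariant with mean `∑ p a st a`.  (`V d → A` needs no
  topology.)  If `A` is empty both sides are false.
* `feas_convex`, `feas_compact`: from `feas_iff` (image of the standard simplex `stdSimplex ℝ A` under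
  the linear map `p ↦ ∑ p a st a`).
* `feas2`, `feas3`: explicit.  `st3`: with `s = fromV m`, `∑ p a st3 a = m` iff
  `s = (p 0 - p 1, p 2 - p 3, p 4 - p 5)` (given `∑ p = 1`); `|p - q| ≤ p + q`; conversely
  `p (2i) = max (s i) 0 + δ`, `p (2i+1) = max (-s i) 0 + δ`, `δ = (1 - nV m)/6`.
* `int3`: the same weights, `δ > 0`.  `int2`: `p 1 = m 0`, `p 2 = m 1`, `p 0 = 1 - m 0 - m 1`.
* `emax_concaveOn`: from `emax_concave`.
-/

noncomputable section

open MeasureTheory Filter Topology

namespace Helper15.DE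

variable {d : ℕ} {A : Type} [Fintype A] [MeasurableSpace A] [MeasurableSingletonClass A]

/-- the mixture of the constant configurations -/
private def cmix (p : A → ℝ) : Measure (V d → A) :=
  ∑ a, ENNReal.ofReal (p a) • Measure.dirac (fun _ => a)

private theorem cmix_apply (p : A → ℝ) {B : Set (V d → A)} (hB : MeasurableSet B) :
    cmix p B = ∑ a, ENNReal.ofReal (p a) * B.indicator 1 (fun _ => a) := by
  unfold cmix
  rw [Measure.finsetSum_apply]
  refine Finset.sum_congr rfl fun a _ => ?_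
  rw [Measure.smul_apply, Measure.dirac_apply' _ hB, smul_eq_mul]

private theorem const_cfg (st : A → V d) (a : A) : (fun _ => a : V d → A) ∈ Cfg st := by
  change Function.Bijective fun x : V d => x + st a
  exact (Equiv.addRight (st a)).bijective

private theorem cmix_inv (st : A → V d) (p : A → ℝ) (h0 : ∀ a, 0 ≤ p a) (h1 : ∑ a, p a = 1) :
    Inv (Cfg st) (cmix p) := by
  refine ⟨⟨?_⟩, fun v => ?_, ?_⟩
  · rw [cmix_apply p MeasurableSet.univ]
    simp only [Set.indicator_univ, Pi.one_apply, mul_one]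
    rw [← ENNReal.ofReal_sum_of_nonneg fun a _ => h0 a, h1, ENNReal.ofReal_one]
  · ext B hB
    rw [Measure.map_apply (measurable_shiftE v) hB, cmix_apply p (measurable_shiftE v hB),
      cmix_apply p hB]
    rfl
  · rw [ae_iff]
    have hm : MeasurableSet {ω : V d → A | ¬ ω ∈ Cfg st} :=
      (closed_measurable _ (closed_cfg st)).compl
    rw [cmix_apply p hm]
    refine Finset.sum_eq_zero fun a _ => ?_
    rw [Set.indicator_of_notMem, mul_zero]
    exact fun h => h (const_cfg st a)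

private theorem cmix_real (p : A → ℝ) (h0 : ∀ a, 0 ≤ p a) (a : A) :
    (cmix p : Measure (V d → A)).real {ω | ω 0 = a} = p a := by
  classical
  have hm : MeasurableSet {ω : V d → A | ω 0 = a} := by
    have h1 : Measurable fun ω : V d → A => ω 0 := measurable_pi_apply 0
    exact h1 (measurableSet_singleton a)
  rw [measureReal_def, cmix_apply p hm, Finset.sum_eq_single a]
  · rw [Set.indicator_of_mem (by simp), Pi.one_apply, mul_one, ENNReal.toReal_ofReal (h0 a)]
  · intro b _ hb
    rw [Set.indicator_of_notMem (by simpa using hb), mul_zero]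
  · exact fun h => absurd (Finset.mem_univ a) h

theorem feas_iff (st : A → V d) (s : Fin d → ℝ) :
    s ∈ Feas st ↔ ∃ p : A → ℝ, (∀ a, 0 ≤ p a) ∧ ∑ a, p a = 1 ∧
      ∀ i, ∑ a, p a * (st a i : ℝ) = s i := by
  constructor
  · rintro ⟨μ, hμ, hs⟩
    have := hμ.prob
    refine ⟨fun a => μ.real {ω | ω 0 = a}, fun a => measureReal_nonneg, ?_, fun i => ?_⟩
    · have h := mean_eq (fun (_ : A) (_ : Fin 1) => (1 : ℝ)) μ 0
      unfold mean at h
      simp only [integral_const, probReal_univ, smul_eq_mul, mul_one, one_mul] at h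
      exact h.symm
    · rw [← hs, mean_eq]
      exact Finset.sum_congr rfl fun a _ => mul_comm _ _
  · rintro ⟨p, h0, h1, h2⟩
    refine ⟨cmix p, cmix_inv st p h0 h1, ?_⟩
    have := (cmix_inv st p h0 h1).prob
    funext i
    rw [mean_eq, ← h2 i]
    refine Finset.sum_congr rfl fun a _ => ?_
    rw [cmix_real p h0, mul_comm]
    rfl

theorem feas_convex (st : A → V d) : Convex ℝ (Feas st) := by
  intro s hs s' hs' a b ha hb hab
  rw [feas_iff] at hs hs' ⊢
  obtain ⟨p, h0, h1, h2⟩ := hs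
  obtain ⟨q, g0, g1, g2⟩ := hs'
  refine ⟨fun x => a * p x + b * q x, fun x => ?_, ?_, fun i => ?_⟩
  · exact add_nonneg (mul_nonneg ha (h0 x)) (mul_nonneg hb (g0 x))
  · rw [Finset.sum_add_distrib, ← Finset.mul_sum, ← Finset.mul_sum, h1, g1]
    linarith
  · rw [Pi.add_apply, Pi.smul_apply, Pi.smul_apply, smul_eq_mul, smul_eq_mul, ← h2 i, ← g2 i,
      Finset.mul_sum, Finset.mul_sum, ← Finset.sum_add_distrib]
    refine Finset.sum_congr rfl fun x _ => ?_
    ring

theorem feas_compact (st : A → V d) : IsCompact (Feas st) := by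
  have h : Feas st = (fun (p : A → ℝ) (i : Fin d) => ∑ a, p a * (st a i : ℝ)) '' stdSimplex ℝ A := by
    ext s
    rw [feas_iff, Set.mem_image]
    constructor
    · rintro ⟨p, h0, h1, h2⟩
      exact ⟨p, ⟨h0, h1⟩, funext h2⟩
    · rintro ⟨p, ⟨h0, h1⟩, h2⟩
      exact ⟨p, h0, h1, fun i => congrFun h2 i⟩
  rw [h]
  refine (isCompact_stdSimplex ℝ A).image ?_
  exact continuous_pi fun i => continuous_finsetSum _ fun a _ =>
    (continuous_apply a).mul continuous_const

theorem emax_concaveOn (hd : 1 ≤ d) (st : A → V d) : ConcaveOn ℝ (Feas st) (Emax st) := by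
  refine ⟨feas_convex st, fun s hs s' hs' a b ha hb hab => ?_⟩
  have h := (emax_concave hd st s s' hs hs' a ha (by linarith)).2
  have e : 1 - a = b := by linarith
  rw [e] at h
  exact h

theorem feas2 : Feas st2 = triangle := by
  ext m
  rw [feas_iff]
  unfold triangle
  rw [Set.mem_ofPred_eq]
  constructor
  · rintro ⟨p, h0, h1, h2⟩
    have e0 := h2 0
    have e1 := h2 1
    simp [st2, Fin.sum_univ_three] at e0 e1 h1
    have a0 := h0 0
    have a1 := h0 1
    have a2 := h0 2
    refine ⟨by linarith, by linarith, by linarith⟩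
  · rintro ⟨h0, h1, h2⟩
    refine ⟨![1 - m 0 - m 1, m 0, m 1], ?_, ?_, ?_⟩
    · intro a
      fin_cases a
      · simp; linarith
      · simpa using h0
      · simpa using h1
    · simp [Fin.sum_univ_three]
      ring
    · intro i
      fin_cases i
      · simp [st2, Fin.sum_univ_three]
      · simp [st2, Fin.sum_univ_three]

private theorem sums6 (p : Fin 6 → ℝ) : ∑ a, p a = p 0 + p 1 + p 2 + p 3 + p 4 + p 5 :=
  Fin.sum_univ_six p

private theorem st3_sums (p : Fin 6 → ℝ) :
    (∑ a, p a * (st3 a 0 : ℝ) = p 1 + p 2 + p 5) ∧ (∑ a, p a * (st3 a 1 : ℝ) = p 1 + p 3 + p 5) ∧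
      (∑ a, p a * (st3 a 2 : ℝ) = p 4 - p 5) := by
  refine ⟨?_, ?_, ?_⟩
  · rw [Fin.sum_univ_six]
    simp [st3]
  · rw [Fin.sum_univ_six]
    simp [st3]
  · rw [Fin.sum_univ_six]
    simp [st3]
    ring

/-- weights of a current -/
private def wt (s : Fin 3 → ℝ) (δ : ℝ) : Fin 6 → ℝ :=
  ![max (s 0) 0 + δ, max (-s 0) 0 + δ, max (s 1) 0 + δ, max (-s 1) 0 + δ, max (s 2) 0 + δ,
    max (-s 2) 0 + δ]

private theorem max_id (x : ℝ) : max x 0 - max (-x) 0 = x ∧ max x 0 + max (-x) 0 = |x| := by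
  rcases le_total 0 x with h | h
  · rw [max_eq_left h, max_eq_right (by linarith), abs_of_nonneg h]
    constructor <;> ring
  · rw [max_eq_right h, max_eq_left (by linarith), abs_of_nonpos h]
    constructor <;> ring

private theorem wt_spec (m : Fin 3 → ℝ) :
    (∑ a, wt (fromV m) ((1 - nV m) / 6) a = 1) ∧
      ∀ i, ∑ a, wt (fromV m) ((1 - nV m) / 6) a * (st3 a i : ℝ) = m i := by
  have q0 := max_id (fromV m 0)
  have q1 := max_id (fromV m 1)
  have q2 := max_id (fromV m 2)
  have f0 : fromV m 0 = 1 - m 0 - m 1 - m 2 := rfl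
  have f1 : fromV m 1 = m 0 - m 1 := rfl
  have f2 : fromV m 2 = m 2 := rfl
  have hn : nV m = |fromV m 0| + |fromV m 1| + |fromV m 2| := rfl
  obtain ⟨s0, s1, s2⟩ := st3_sums (wt (fromV m) ((1 - nV m) / 6))
  have w0 : wt (fromV m) ((1 - nV m) / 6) 0 = max (fromV m 0) 0 + (1 - nV m) / 6 := rfl
  have w1 : wt (fromV m) ((1 - nV m) / 6) 1 = max (-fromV m 0) 0 + (1 - nV m) / 6 := rfl
  have w2 : wt (fromV m) ((1 - nV m) / 6) 2 = max (fromV m 1) 0 + (1 - nV m) / 6 := rfl
  have w3 : wt (fromV m) ((1 - nV m) / 6) 3 = max (-fromV m 1) 0 + (1 - nV m) / 6 := rfl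
  have w4 : wt (fromV m) ((1 - nV m) / 6) 4 = max (fromV m 2) 0 + (1 - nV m) / 6 := rfl
  have w5 : wt (fromV m) ((1 - nV m) / 6) 5 = max (-fromV m 2) 0 + (1 - nV m) / 6 := rfl
  refine ⟨?_, fun i => ?_⟩
  · rw [sums6, w0, w1, w2, w3, w4, w5]
    linarith [q0.2, q1.2, q2.2]
  · fin_cases i
    · change ∑ a, wt (fromV m) ((1 - nV m) / 6) a * (st3 a 0 : ℝ) = m 0
      rw [s0, w1, w2, w5]
      linarith [q0.1, q0.2, q1.1, q1.2, q2.1, q2.2]
    · change ∑ a, wt (fromV m) ((1 - nV m) / 6) a * (st3 a 1 : ℝ) = m 1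
      rw [s1, w1, w3, w5]
      linarith [q0.1, q0.2, q1.1, q1.2, q2.1, q2.2]
    · change ∑ a, wt (fromV m) ((1 - nV m) / 6) a * (st3 a 2 : ℝ) = m 2
      rw [s2, w4, w5]
      linarith [q0.1, q0.2, q1.1, q1.2, q2.1, q2.2]

theorem feas3 : Feas st3 = {m | nV m ≤ 1} := by
  ext m
  rw [feas_iff, Set.mem_ofPred_eq]
  constructor
  · rintro ⟨p, h0, h1, h2⟩
    obtain ⟨s0, s1, s2⟩ := st3_sums p
    have e0 := h2 0
    have e1 := h2 1
    have e2 := h2 2
    rw [s0] at e0
    rw [s1] at e1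
    rw [s2] at e2
    rw [sums6] at h1
    have f0 : fromV m 0 = p 0 - p 1 := by
      change 1 - m 0 - m 1 - m 2 = _
      linarith
    have f1 : fromV m 1 = p 2 - p 3 := by
      change m 0 - m 1 = _
      linarith
    have f2 : fromV m 2 = p 4 - p 5 := by
      change m 2 = _
      linarith
    have hab : ∀ a b : Fin 6, |p a - p b| ≤ p a + p b := fun a b => by
      rw [abs_le]
      constructor <;> linarith [h0 a, h0 b]
    unfold nV
    rw [f0, f1, f2]
    linarith [hab 0 1, hab 2 3, hab 4 5]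
  · intro h
    refine ⟨wt (fromV m) ((1 - nV m) / 6), fun a => ?_, (wt_spec m).1, (wt_spec m).2⟩
    have hδ : 0 ≤ (1 - nV m) / 6 := by linarith
    fin_cases a <;> exact add_nonneg (le_max_right _ _) hδ

theorem int2 (m : Fin 2 → ℝ) : IntPt st2 m ↔ m ∈ triangleO := by
  unfold triangleO IntPt
  rw [Set.mem_ofPred_eq]
  constructor
  · rintro ⟨p, h0, h1, h2⟩
    have e0 := h2 0
    have e1 := h2 1
    simp [st2, Fin.sum_univ_three] at e0 e1 h1
    have a0 := h0 0
    have a1 := h0 1
    have a2 := h0 2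
    refine ⟨by linarith, by linarith, by linarith⟩
  · rintro ⟨h0, h1, h2⟩
    refine ⟨![1 - m 0 - m 1, m 0, m 1], ?_, ?_, ?_⟩
    · intro a
      fin_cases a
      · simp; linarith
      · simpa using h0
      · simpa using h1
    · simp [Fin.sum_univ_three]
      ring
    · intro i
      fin_cases i
      · simp [st2, Fin.sum_univ_three]
      · simp [st2, Fin.sum_univ_three]

theorem int3 (m : Fin 3 → ℝ) (h : nV m < 1) : IntPt st3 m := by
  refine ⟨wt (fromV m) ((1 - nV m) / 6), fun a => ?_, (wt_spec m).1, (wt_spec m).2⟩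
  have hδ : 0 < (1 - nV m) / 6 := by linarith
  fin_cases a <;> exact add_pos_of_nonneg_of_pos (le_max_right _ _) hδ

end Helper15.DE
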