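import Pool.Agent.Helper10.DE.X.Defs

/-!
# DE X.5  Octahedron lemma and triangle lemma (extreme points)

Tool: for compact convex `F`: `closure (convexHull ℝ (F.extremePoints ℝ)) = F`
(`closure_convexHull_extremePoints`).
* `octa_lemma`.  `fromV` is affine, so `fromV ((a + b)/2) = (fromV a + fromV b)/2`.  Suppose `F ≠ {z}`;
  then `F` has at least two extreme points (else `F` is one point, `= {z}`).  For distinct extreme
  points `a, b` with `s = fromV a`, `s' = fromV b`: `1 ≤ ∑ |s i + s' i|/2 ≤ (∑ |s i| + ∑ |s' i|)/2 ≤ 1`, so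
  `∑ |s i| = ∑ |s' i| = 1` and `|s i + s' i| = |s i| + |s' i|`, i.e. `s i * s' i ≥ 0` for every `i`.  So for
  every `i` the numbers `fromV a i`, `a` extreme, do not change sign: there is `ε i ∈ {1, -1}` with
  `ε i * fromV a i ≥ 0` for all extreme `a`, hence `∑ ε i fromV a i = 1` for all extreme `a`, hence for all
  `x ∈ F` (closed affine condition), in particular `nV z ≥ ∑ ε i fromV z i = 1`: contradiction.
* `tri_lemma`.  Barycentric coordinates `b₀ = 1 - m 0 - m 1`, `b₁ = m 0`, `b₂ = m 1` (all `≥ 0` on the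
  triangle).  Suppose `F ≠ {z}`: at least two extreme points; any two distinct extreme points have a
  common vanishing barycentric coordinate (as the midpoint is not in the open triangle).  So every
  extreme point has a vanishing coordinate.  If some extreme point `a` has exactly one vanishing
  coordinate `b_i(a) = 0`, then `b_i` vanishes at all extreme points, so on `F`: contradicts
  `z ∈ triangleO`.  So every extreme point is a vertex of the triangle; if one vertex, with `b_i = 1`, is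
  missing, then `b_i = 0` at all extreme points, again a contradiction.  So the three vertices are
  extreme points of `F`.
-/

noncomputable section

open MeasureTheory Filter Topology

namespace Helper15.DE

private theorem ox_half {n : ℕ} (F : Set (Fin n → ℝ)) (hF : IsCompact F) (hc : Convex ℝ F)
    (w : Fin n → ℝ) (c : ℝ) (h : ∀ a ∈ Set.extremePoints ℝ F, c ≤ ∑ i, w i * a i) :
    ∀ x ∈ F, c ≤ ∑ i, w i * x i := by
  have hS : IsClosed {x : Fin n → ℝ | c ≤ ∑ i, w i * x i} :=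
    isClosed_le continuous_const
      (continuous_finsetSum _ fun i _ => continuous_const.mul (continuous_apply i))
  have hSc : Convex ℝ {x : Fin n → ℝ | c ≤ ∑ i, w i * x i} := by
    intro x hx y hy a b ha hb hab
    have hx' : c ≤ ∑ i, w i * x i := hx
    have hy' : c ≤ ∑ i, w i * y i := hy
    have e : ∑ i, w i * (a • x + b • y) i = a * ∑ i, w i * x i + b * ∑ i, w i * y i := by
      rw [Finset.mul_sum, Finset.mul_sum, ← Finset.sum_add_distrib]
      refine Finset.sum_congr rfl fun i _ => ?_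
      rw [Pi.add_apply, Pi.smul_apply, Pi.smul_apply, smul_eq_mul, smul_eq_mul]
      ring
    show c ≤ ∑ i, w i * (a • x + b • y) i
    rw [e]
    have h1 := mul_le_mul_of_nonneg_left hx' ha
    have h2 := mul_le_mul_of_nonneg_left hy' hb
    have h3 : c = a * c + b * c := by rw [← add_mul, hab, one_mul]
    linarith
  have hsub : F ⊆ {x : Fin n → ℝ | c ≤ ∑ i, w i * x i} := by
    rw [← closure_convexHull_extremePoints hF hc]
    exact closure_minimal (convexHull_min h hSc) hS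
  exact fun x hx => hsub hx

private theorem ox_two {n : ℕ} (F : Set (Fin n → ℝ)) (hF : IsCompact F) (hc : Convex ℝ F)
    (z : Fin n → ℝ) (hz : z ∈ F) (hne : F ≠ {z}) (a : Fin n → ℝ)
    (_ha : a ∈ Set.extremePoints ℝ F) : ∃ b ∈ Set.extremePoints ℝ F, a ≠ b := by
  by_contra hcon
  push Not at hcon
  have hsub : F ⊆ {a} := by
    rw [← closure_convexHull_extremePoints hF hc]
    refine closure_minimal (convexHull_min ?_ (convex_singleton a)) isClosed_singleton
    intro b hb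
    exact (hcon b hb).symm
  have hza : z = a := hsub hz
  apply hne
  rw [hza]
  refine Set.Subset.antisymm hsub ?_
  rw [← hza]
  exact Set.singleton_subset_iff.2 hz

private theorem ox_mid (x y : ℝ × ℝ × ℝ) (hx : |x.1| + |x.2.1| + |x.2.2| ≤ 1)
    (hy : |y.1| + |y.2.1| + |y.2.2| ≤ 1)
    (h : 1 ≤ |(x.1 + y.1) / 2| + |(x.2.1 + y.2.1) / 2| + |(x.2.2 + y.2.2) / 2|) :
    |x.1| + |x.2.1| + |x.2.2| = 1 ∧ 0 ≤ x.1 * y.1 ∧ 0 ≤ x.2.1 * y.2.1 ∧ 0 ≤ x.2.2 * y.2.2 := by
  obtain ⟨x0, x1, x2⟩ := x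
  obtain ⟨y0, y1, y2⟩ := y
  simp only at *
  have key : ∀ u v : ℝ, |(u + v) / 2| ≤ (|u| + |v|) / 2 := by
    intro u v
    rw [abs_div, abs_two]
    have := abs_add_le u v
    linarith
  have key2 : ∀ u v : ℝ, |(u + v) / 2| = (|u| + |v|) / 2 → 0 ≤ u * v := by
    intro u v huv
    rw [abs_div, abs_two] at huv
    have h1 : |u + v| = |u| + |v| := by linarith
    have h2 := (abs_add_eq_add_abs_iff u v).1 h1
    rcases h2 with ⟨h3, h4⟩ | ⟨h3, h4⟩
    · exact mul_nonneg h3 h4
    · exact mul_nonneg_of_nonpos_of_nonpos h3 h4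
  have k0 := key x0 y0
  have k1 := key x1 y1
  have k2 := key x2 y2
  refine ⟨by linarith, key2 _ _ (by linarith), key2 _ _ (by linarith), key2 _ _ (by linarith)⟩

private theorem ox_sign {α : Type*} (E : Set α) (g : α → ℝ) (h : ∀ a ∈ E, ∀ b ∈ E, 0 ≤ g a * g b) :
    ∃ e : ℝ, (e = 1 ∨ e = -1) ∧ ∀ a ∈ E, e * g a = |g a| := by
  by_cases hp : ∃ a ∈ E, 0 < g a
  · obtain ⟨a, ha, hpos⟩ := hp
    refine ⟨1, Or.inl rfl, fun b hb => ?_⟩
    have h1 : 0 ≤ g b := nonneg_of_mul_nonneg_right (h a ha b hb) hpos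
    rw [one_mul, abs_of_nonneg h1]
  · push Not at hp
    refine ⟨-1, Or.inr rfl, fun b hb => ?_⟩
    rw [abs_of_nonpos (hp b hb)]
    ring

theorem octa_lemma (F : Set (Fin 3 → ℝ)) (hF : IsCompact F) (hc : Convex ℝ F)
    (hO : ∀ x ∈ F, nV x ≤ 1)
    (h : ∀ a ∈ Set.extremePoints ℝ F, ∀ b ∈ Set.extremePoints ℝ F, a ≠ b →
      1 ≤ nV (fun i => (a i + b i) / 2))
    (z : Fin 3 → ℝ) (hz : z ∈ F) (hz1 : nV z < 1) : F = {z} := by
  by_contra hne
  have hE1 : ∀ a ∈ Set.extremePoints ℝ F, nV a ≤ 1 := fun a ha => hO a (extremePoints_subset ha)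
  have hpair : ∀ a ∈ Set.extremePoints ℝ F, ∀ b ∈ Set.extremePoints ℝ F, a ≠ b →
      nV a = 1 ∧ 0 ≤ fromV a 0 * fromV b 0 ∧ 0 ≤ fromV a 1 * fromV b 1 ∧
      0 ≤ fromV a 2 * fromV b 2 := by
    intro a ha b hb hab
    have h1 := h a ha b hb hab
    have e0 : fromV (fun i => (a i + b i) / 2) 0 = (fromV a 0 + fromV b 0) / 2 := by
      simp only [fromV, Matrix.cons_val_zero]
      ring
    have e1 : fromV (fun i => (a i + b i) / 2) 1 = (fromV a 1 + fromV b 1) / 2 := by
      simp only [fromV, Matrix.cons_val_one, Matrix.cons_val_zero]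
      ring
    have e2 : fromV (fun i => (a i + b i) / 2) 2 = (fromV a 2 + fromV b 2) / 2 := by
      simp only [fromV, Matrix.cons_val]
    unfold nV at h1
    rw [e0, e1, e2] at h1
    exact ox_mid (fromV a 0, fromV a 1, fromV a 2) (fromV b 0, fromV b 1, fromV b 2)
      (hE1 a ha) (hE1 b hb) h1
  have hone : ∀ a ∈ Set.extremePoints ℝ F, nV a = 1 := by
    intro a ha
    obtain ⟨b, hb, hab⟩ := ox_two F hF hc z hz hne a ha
    exact (hpair a ha b hb hab).1
  have hs0 : ∀ a ∈ Set.extremePoints ℝ F, ∀ b ∈ Set.extremePoints ℝ F,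
      0 ≤ fromV a 0 * fromV b 0 := by
    intro a ha b hb
    by_cases hab : a = b
    · subst hab
      exact mul_self_nonneg _
    · exact (hpair a ha b hb hab).2.1
  have hs1 : ∀ a ∈ Set.extremePoints ℝ F, ∀ b ∈ Set.extremePoints ℝ F,
      0 ≤ fromV a 1 * fromV b 1 := by
    intro a ha b hb
    by_cases hab : a = b
    · subst hab
      exact mul_self_nonneg _
    · exact (hpair a ha b hb hab).2.2.1
  have hs2 : ∀ a ∈ Set.extremePoints ℝ F, ∀ b ∈ Set.extremePoints ℝ F,
      0 ≤ fromV a 2 * fromV b 2 := by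
    intro a ha b hb
    by_cases hab : a = b
    · subst hab
      exact mul_self_nonneg _
    · exact (hpair a ha b hb hab).2.2.2
  obtain ⟨ε0, h0, g0⟩ := ox_sign _ (fun a : Fin 3 → ℝ => fromV a 0) hs0
  obtain ⟨ε1, h1, g1⟩ := ox_sign _ (fun a : Fin 3 → ℝ => fromV a 1) hs1
  obtain ⟨ε2, h2, g2⟩ := ox_sign _ (fun a : Fin 3 → ℝ => fromV a 2) hs2
  have hval : ∀ x : Fin 3 → ℝ, ∑ i, (![-ε0 + ε1, -ε0 - ε1, -ε0 + ε2] : Fin 3 → ℝ) i * x i =
      ε0 * fromV x 0 + ε1 * fromV x 1 + ε2 * fromV x 2 - ε0 := by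
    intro x
    rw [Fin.sum_univ_three]
    simp only [fromV, Matrix.cons_val_zero, Matrix.cons_val_one, Matrix.cons_val]
    ring
  have hz2 := ox_half F hF hc ![-ε0 + ε1, -ε0 - ε1, -ε0 + ε2] (1 - ε0) (by
    intro a ha
    rw [hval a]
    have e0 := g0 a ha
    have e1 := g1 a ha
    have e2 := g2 a ha
    have e3 := hone a ha
    unfold nV at e3
    rw [e0, e1, e2]
    linarith) z hz
  rw [hval z] at hz2
  have hle : ∀ (e u : ℝ), (e = 1 ∨ e = -1) → e * u ≤ |u| := by
    intro e u he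
    rcases he with rfl | rfl
    · rw [one_mul]; exact le_abs_self u
    · rw [neg_one_mul]; exact neg_le_abs u
  have l0 := hle ε0 (fromV z 0) h0
  have l1 := hle ε1 (fromV z 1) h1
  have l2 := hle ε2 (fromV z 2) h2
  unfold nV at hz1
  linarith

theorem tri_lemma (F : Set (Fin 2 → ℝ)) (hF : IsCompact F) (hc : Convex ℝ F)
    (hO : F ⊆ triangle)
    (h : ∀ a ∈ Set.extremePoints ℝ F, ∀ b ∈ Set.extremePoints ℝ F, a ≠ b →
      (fun i => (a i + b i) / 2) ∉ triangleO)
    (z : Fin 2 → ℝ) (hz : z ∈ F) (hz1 : z ∈ triangleO) :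
    F = {z} ∨ (![0, 0] ∈ F ∧ ![1, 0] ∈ F ∧ ![0, 1] ∈ F) := by
  by_cases hne : F = {z}
  · exact Or.inl hne
  right
  have hE : ∀ a ∈ Set.extremePoints ℝ F, 0 ≤ a 0 ∧ 0 ≤ a 1 ∧ a 0 + a 1 ≤ 1 :=
    fun a ha => hO (extremePoints_subset ha)
  obtain ⟨z0, z1, z2⟩ := hz1
  have hpair : ∀ a ∈ Set.extremePoints ℝ F, ∀ b ∈ Set.extremePoints ℝ F, a ≠ b →
      (a 0 = 0 ∧ b 0 = 0) ∨ (a 1 = 0 ∧ b 1 = 0) ∨ (a 0 + a 1 = 1 ∧ b 0 + b 1 = 1) := by
    intro a ha b hb hab
    obtain ⟨a1, a2, a3⟩ := hE a ha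
    obtain ⟨b1, b2, b3⟩ := hE b hb
    by_contra hcon
    push Not at hcon
    obtain ⟨c1, c2, c3⟩ := hcon
    apply h a ha b hb hab
    refine ⟨?_, ?_, ?_⟩
    · show 0 < (a 0 + b 0) / 2
      rcases eq_or_lt_of_le a1 with h1 | h1
      · have := lt_of_le_of_ne b1 (Ne.symm (c1 h1.symm))
        linarith
      · linarith
    · show 0 < (a 1 + b 1) / 2
      rcases eq_or_lt_of_le a2 with h1 | h1
      · have := lt_of_le_of_ne b2 (Ne.symm (c2 h1.symm))
        linarith
      · linarith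
    · show (a 0 + b 0) / 2 + (a 1 + b 1) / 2 < 1
      rcases eq_or_lt_of_le a3 with h1 | h1
      · have := lt_of_le_of_ne b3 (c3 h1)
        linarith
      · linarith
  -- a coordinate vanishing at all extreme points vanishes at `z`
  have n0 : ¬ ∀ a ∈ Set.extremePoints ℝ F, a 0 = 0 := by
    intro hall
    have := ox_half F hF hc ![-1, 0] 0 (by
      intro a ha
      rw [Fin.sum_univ_two]
      simp [hall a ha]) z hz
    rw [Fin.sum_univ_two] at this
    simp at this
    linarith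
  have n1 : ¬ ∀ a ∈ Set.extremePoints ℝ F, a 1 = 0 := by
    intro hall
    have := ox_half F hF hc ![0, -1] 0 (by
      intro a ha
      rw [Fin.sum_univ_two]
      simp [hall a ha]) z hz
    rw [Fin.sum_univ_two] at this
    simp at this
    linarith
  have n2 : ¬ ∀ a ∈ Set.extremePoints ℝ F, a 0 + a 1 = 1 := by
    intro hall
    have := ox_half F hF hc ![1, 1] 1 (by
      intro a ha
      rw [Fin.sum_univ_two]
      simp [hall a ha]) z hz
    rw [Fin.sum_univ_two] at this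
    simp at this
    linarith
  have hvert : ∀ a ∈ Set.extremePoints ℝ F,
      (a 0 = 0 ∧ a 1 = 0) ∨ (a 0 = 1 ∧ a 1 = 0) ∨ (a 0 = 0 ∧ a 1 = 1) := by
    intro a ha
    obtain ⟨b, hb, hab⟩ := ox_two F hF hc z hz hne a ha
    by_contra hcon
    rw [not_or, not_or] at hcon
    obtain ⟨k0, k1, k2⟩ := hcon
    rcases hpair a ha b hb hab with ⟨h1, -⟩ | ⟨h1, -⟩ | ⟨h1, -⟩
    · have m1 : a 1 ≠ 0 := fun h' => k0 ⟨h1, h'⟩
      have m2 : a 0 + a 1 ≠ 1 := fun h' => k2 ⟨h1, by linarith⟩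
      apply n0
      intro b' hb'
      by_cases hbb : a = b'
      · rw [← hbb]; exact h1
      · rcases hpair a ha b' hb' hbb with ⟨-, h3⟩ | ⟨h3, -⟩ | ⟨h3, -⟩
        · exact h3
        · exact absurd h3 m1
        · exact absurd h3 m2
    · have m1 : a 0 ≠ 0 := fun h' => k0 ⟨h', h1⟩
      have m2 : a 0 + a 1 ≠ 1 := fun h' => k1 ⟨by linarith, h1⟩
      apply n1
      intro b' hb'
      by_cases hbb : a = b'
      · rw [← hbb]; exact h1
      · rcases hpair a ha b' hb' hbb with ⟨h3, -⟩ | ⟨-, h3⟩ | ⟨h3, -⟩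
        · exact absurd h3 m1
        · exact h3
        · exact absurd h3 m2
    · have m1 : a 0 ≠ 0 := fun h' => k2 ⟨h', by linarith⟩
      have m2 : a 1 ≠ 0 := fun h' => k1 ⟨by linarith, h'⟩
      apply n2
      intro b' hb'
      by_cases hbb : a = b'
      · rw [← hbb]; exact h1
      · rcases hpair a ha b' hb' hbb with ⟨h3, -⟩ | ⟨h3, -⟩ | ⟨-, h3⟩
        · exact absurd h3 m1
        · exact absurd h3 m2
        · exact h3
  have hext : ∀ (a : Fin 2 → ℝ) (u v : ℝ), a 0 = u → a 1 = v → a = ![u, v] := by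
    intro a u v hu hv
    funext i
    fin_cases i
    · exact hu
    · exact hv
  refine ⟨?_, ?_, ?_⟩
  · push Not at n2
    obtain ⟨a, ha, hn⟩ := n2
    rcases hvert a ha with ⟨h1, h2⟩ | ⟨h1, h2⟩ | ⟨h1, h2⟩
    · rw [← hext a 0 0 h1 h2]
      exact extremePoints_subset ha
    · exact absurd (by linarith) hn
    · exact absurd (by linarith) hn
  · push Not at n0
    obtain ⟨a, ha, hn⟩ := n0
    rcases hvert a ha with ⟨h1, h2⟩ | ⟨h1, h2⟩ | ⟨h1, h2⟩
    · exact absurd h1 hn
    · rw [← hext a 1 0 h1 h2]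
      exact extremePoints_subset ha
    · exact absurd h1 hn
  · push Not at n1
    obtain ⟨a, ha, hn⟩ := n1
    rcases hvert a ha with ⟨h1, h2⟩ | ⟨h1, h2⟩ | ⟨h1, h2⟩
    · exact absurd h2 hn
    · exact absurd h2 hn
    · rw [← hext a 0 1 h1 h2]
      exact extremePoints_subset ha

end Helper15.DE
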