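import Pool.Agent.Helper10.DE.ET.Hent

/-!
# DE X.11  Shape lemma: the specific entropy along linear images of cubes

Let `B : V d →+ V d` be injective with `e ℤ^d` in its range (`e ≥ 1`), `F n = {u | B u ∈ box d n}`, a finite
set (given as the Finset `pre`).  Claim: `HF μ (F n) / |F n| → hent μ`.
PROOF.  Let `c` bound the entries of `B u` for `u ∈ [-1, 1]^d`, so that `|B u|_∞ ≤ c |u|_∞`.
(0) Counting.  Since `e ℤ^d ⊆ range B` and `B` is injective: `(n/e)^d ≤ |F n| ≤ n^d`, (`n/e` rounded down) and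
the number of `u` with `B u ∈ [-a, n + a)^d`, `B u ∉ box d n`, is `≤ (n + 2a)^d - n^d`.
(1) Upper bound: for fixed `k ≥ 1` cover `F n` by the cubes `k z + box d k` which meet `F n`; these cubes are
pairwise disjoint, and for every point `u` of such a cube `B u ∈ [-c k, n + c k)^d`; so their number `N` has
`N k^d ≤ |F n| + (n + 2 c k)^d - n^d`.  `HF μ (F n) ≤ N HF μ (box d k)`, so
`HF μ (F n)/|F n| ≤ (1 + ((n + 2 c k)^d - n^d)/|F n|) HF μ (box d k)/k^d`; `limsup ≤ HF μ (box d k)/k^d` for
every `k`, so `≤ hent μ`.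
(2) Lower bound: let `n = e q`.  For `w ∈ ℤ^d` let `b w` be the vector with `B (b w) = n w`.  The translates
`F n + b w` tile `ℤ^d` (`u ∈ F n + b w` iff `B u ∈ n w + box d n`).  A point `u'` of a translate which meets
`box d N` differs from a point of `box d N` by `u - u'` with `B (u - u') ∈ (-n, n)^d`, so
`e (u - u')` has entries bounded by `c' n` for a constant `c'` (`e x = B' (B x)` for the additive map `B'` with
`B (B' w) = e w`; `B' B = e` by injectivity): the translate is inside the cube `[-c' n, N + c' n)^d`.  So at most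
`(N + 2 c' n)^d/|F n|` translates meet `box d N`, `HF μ (box d N) ≤ (N + 2 c' n)^d/|F n| HF μ (F n)`;
divide by `N^d`, `N → ∞`: `hent μ ≤ HF μ (F n)/|F n|` for `n ∈ e ℕ`, `n ≥ e`.
(3) General `n ≥ e`: `n' = e (n/e)`, `F n' ⊆ F n`, `HF μ (F n) ≥ HF μ (F n') ≥ |F n'| hent μ` and
`|F n'|/|F n| ≥ 1 - (n^d - n'^d)/|F n| → 1`.
-/

noncomputable section

open MeasureTheory Filter Topology

namespace Helper15.DE

variable {d : ℕ} {A : Type} [Fintype A] [MeasurableSpace A] [MeasurableSingletonClass A]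

namespace ShapeAux

theorem bound_sum (v : Fin d → V d) : ∃ c : ℕ, ∀ (m : ℕ) (t : Fin d → ℤ), (∀ i, |t i| ≤ m) →
    ∀ j, |∑ i, t i * v i j| ≤ c * m := by
  refine ⟨∑ i, ∑ j, (v i j).natAbs, ?_⟩
  intro m t ht j
  have h1 : |∑ i, t i * v i j| ≤ ∑ i, (∑ j, |v i j|) * (m : ℤ) := by
    refine (Finset.abs_sum_le_sum_abs _ _).trans (Finset.sum_le_sum fun i _ => ?_)
    rw [abs_mul, mul_comm]
    have h2 : |v i j| ≤ ∑ j, |v i j| :=
      Finset.single_le_sum (f := fun j => |v i j|) (fun _ _ => abs_nonneg _) (Finset.mem_univ j)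
    exact mul_le_mul h2 (ht i) (abs_nonneg _) (Finset.sum_nonneg fun _ _ => abs_nonneg _)
  refine h1.trans (le_of_eq ?_)
  rw [← Finset.sum_mul]
  push_cast
  rfl

theorem B_bound (B : V d →+ V d) : ∃ c : ℕ, ∀ (m : ℕ) (x : V d), (∀ i, |x i| ≤ m) →
    ∀ j, |B x j| ≤ c * m := by
  obtain ⟨c, hc⟩ := bound_sum (fun i => B (Pi.single i 1))
  refine ⟨c, fun m x hx j => ?_⟩
  have h1 : x = ∑ i, x i • (Pi.single i 1 : V d) := by
    funext l
    simp [Finset.sum_apply, Pi.single_apply]
  have h2 : B x j = ∑ i, x i * B (Pi.single i 1) j := by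
    conv_lhs => rw [h1]
    rw [map_sum, Finset.sum_apply]
    refine Finset.sum_congr rfl fun i _ => ?_
    rw [map_zsmul]
    simp
  rw [h2]
  exact hc m x hx j

theorem B_inv (B : V d →+ V d) (hB : Function.Injective B) (e : ℕ) (he : 1 ≤ e)
    (hr : ∀ w : V d, ∃ u, B u = (e : ℤ) • w) : ∃ c : ℕ, ∀ (m : ℕ) (z : V d),
    (∀ i, |B z i| ≤ m) → ∀ j, |z j| ≤ c * m := by
  choose r hr using hr
  obtain ⟨c, hc⟩ := bound_sum (fun i => r (Pi.single i 1))
  refine ⟨c, fun m z hz j => ?_⟩
  have h1 : ∀ t : V d, t = ∑ i, t i • (Pi.single i 1 : V d) := by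
    intro t
    funext l
    simp [Finset.sum_apply, Pi.single_apply]
  have h2 : B (∑ i, (B z i) • r (Pi.single i 1)) = B ((e : ℤ) • z) := by
    rw [map_sum, map_zsmul]
    conv_rhs => rw [h1 (B z)]
    rw [Finset.smul_sum]
    refine Finset.sum_congr rfl fun i _ => ?_
    rw [map_zsmul, hr, smul_comm]
  have h3 := congrFun (hB h2) j
  rw [Finset.sum_apply] at h3
  simp only [Pi.smul_apply, smul_eq_mul] at h3
  have h4 := hc m (B z) hz j
  rw [h3, abs_mul, Nat.abs_cast] at h4
  have h5 : (1 : ℤ) ≤ e := by exact_mod_cast he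
  have h6 : |z j| ≤ (e : ℤ) * |z j| := le_mul_of_one_le_left (abs_nonneg _) h5
  exact h6.trans h4

theorem fin_pre (B : V d →+ V d) (hB : Function.Injective B) (S : Finset (V d)) :
    {u : V d | B u ∈ S}.Finite :=
  Set.Finite.preimage hB.injOn S.finite_toSet

/-- The preimage of a finite set. -/
def preS (B : V d →+ V d) (hB : Function.Injective B) (S : Finset (V d)) : Finset (V d) :=
  (fin_pre B hB S).toFinset

theorem mem_preS (B : V d →+ V d) (hB : Function.Injective B) (S : Finset (V d)) (u : V d) :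
    u ∈ preS B hB S ↔ B u ∈ S := by
  unfold preS
  rw [Set.Finite.mem_toFinset]
  rfl

theorem card_preS_le (B : V d →+ V d) (hB : Function.Injective B) (S : Finset (V d)) :
    (preS B hB S).card ≤ S.card := by
  apply Finset.card_le_card_of_injOn B
  · intro u hu
    exact (mem_preS B hB S u).1 hu
  · exact hB.injOn

theorem card_preS_add (B : V d →+ V d) (hB : Function.Injective B) (S S' : Finset (V d))
    (h : S ⊆ S') : (preS B hB S').card + S.card ≤ (preS B hB S).card + S'.card := by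
  classical
  have h1 : preS B hB S ⊆ preS B hB S' := by
    intro u hu
    rw [mem_preS] at hu ⊢
    exact h hu
  have h2 : preS B hB S' \ preS B hB S = preS B hB (S' \ S) := by
    ext u
    simp only [Finset.mem_sdiff, mem_preS]
  have h3 := Finset.card_sdiff_add_card_eq_card h1
  have h4 := Finset.card_sdiff_add_card_eq_card h
  have h5 := card_preS_le B hB (S' \ S)
  rw [h2] at h3
  omega

/-- The box `[-a, n + a)^d`. -/
def bb (d n a : ℕ) : Finset (V d) :=
  Fintype.piFinset fun _ => Finset.Ico (-(a : ℤ)) ((n : ℤ) + a)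

theorem mem_bb (n a : ℕ) (x : V d) : x ∈ bb d n a ↔ ∀ i, -(a : ℤ) ≤ x i ∧ x i < n + a := by
  unfold bb
  simp only [Fintype.mem_piFinset, Finset.mem_Ico]

theorem mem_box (n : ℕ) (x : V d) : x ∈ box d n ↔ ∀ i, 0 ≤ x i ∧ x i < n := by
  unfold box
  simp only [Fintype.mem_piFinset, Finset.mem_Ico]

theorem card_bb (n a : ℕ) : (bb d n a).card = (n + 2 * a) ^ d := by
  unfold bb
  rw [Fintype.card_piFinset]
  have : ∀ _ : Fin d, (Finset.Ico (-(a : ℤ)) ((n : ℤ) + a)).card = n + 2 * a := by
    intro i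
    rw [Int.card_Ico]
    omega
  rw [Finset.prod_congr rfl (fun i _ => this i), Finset.prod_const, Finset.card_univ,
    Fintype.card_fin]

theorem box_sub_bb (n a : ℕ) : box d n ⊆ bb d n a := by
  intro x hx
  rw [mem_box] at hx
  rw [mem_bb]
  intro i
  have := hx i
  omega

/-- Covering by disjoint translates of a tile. -/
theorem tile_le (H : Finset (V d) → ℝ) (hnn : ∀ F, 0 ≤ H F)
    (hmono : ∀ F G, F ⊆ G → H F ≤ H G)
    (hsub : ∀ (s : Finset (V d)) (F : V d → Finset (V d)),
      H (s.biUnion F) ≤ ∑ i ∈ s, H (F i))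
    (htr : ∀ (v : V d) F, H (F.image fun x => x + v) = H F)
    (T : Finset (V d)) (b : V d → V d)
    (hdisj : ∀ w w' : V d, ∀ x ∈ T, ∀ y ∈ T, x + b w = y + b w' → w = w')
    (F F' : Finset (V d)) (idx : V d → V d) (hidx : ∀ u ∈ F, ∃ x ∈ T, x + b (idx u) = u)
    (hF' : ∀ u ∈ F, ∀ x ∈ T, x + b (idx u) ∈ F') :
    H F * T.card ≤ F'.card * H T := by
  classical
  set I := F.image idx with hI
  set U := I.biUnion (fun w => T.image fun x => x + b w) with hU
  have h1 : F ⊆ U := by
    intro u hu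
    obtain ⟨x, hx, hxu⟩ := hidx u hu
    rw [hU, Finset.mem_biUnion]
    exact ⟨idx u, Finset.mem_image_of_mem _ hu, Finset.mem_image.2 ⟨x, hx, hxu⟩⟩
  have h2 : H F ≤ I.card * H T := by
    refine (hmono _ _ h1).trans ((hsub _ _).trans (le_of_eq ?_))
    rw [Finset.sum_congr rfl (fun w _ => htr (b w) T), Finset.sum_const, nsmul_eq_mul]
  have h3 : U.card = I.card * T.card := by
    rw [hU, Finset.card_biUnion]
    · rw [Finset.sum_congr rfl (fun w _ => Finset.card_image_of_injective T
        (add_left_injective (b w))), Finset.sum_const, smul_eq_mul]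
    · intro w _ w' _ hww
      show Disjoint (T.image fun x => x + b w) (T.image fun x => x + b w')
      rw [Finset.disjoint_left]
      intro u hu hu'
      obtain ⟨x, hx, hxu⟩ := Finset.mem_image.1 hu
      obtain ⟨y, hy, hyu⟩ := Finset.mem_image.1 hu'
      exact hww (hdisj w w' x hx y hy (hxu.trans hyu.symm))
  have h4 : U ⊆ F' := by
    intro u hu
    rw [hU, Finset.mem_biUnion] at hu
    obtain ⟨w, hw, hu⟩ := hu
    obtain ⟨v, hv, rfl⟩ := Finset.mem_image.1 hw
    obtain ⟨x, hx, rfl⟩ := Finset.mem_image.1 hu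
    exact hF' v hv x hx
  have h5 : I.card * T.card ≤ F'.card := by
    rw [← h3]
    exact Finset.card_le_card h4
  have h6 : ((I.card : ℝ) * T.card) ≤ F'.card := by exact_mod_cast h5
  have h7 : (0 : ℝ) ≤ T.card := by positivity
  calc H F * T.card ≤ (I.card * H T) * T.card := mul_le_mul_of_nonneg_right h2 h7
    _ = (I.card * T.card) * H T := by ring
    _ ≤ F'.card * H T := mul_le_mul_of_nonneg_right h6 (hnn T)

theorem abs_sub_lt_of {n : ℤ} {a b : ℤ} (ha : 0 ≤ a ∧ a < n) (hb : 0 ≤ b ∧ b < n) :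
    |a - b| ≤ n := by
  rw [abs_le]
  omega

/-- Upper bound. -/
theorem upper (H : Finset (V d) → ℝ) (hnn : ∀ F, 0 ≤ H F)
    (hmono : ∀ F G, F ⊆ G → H F ≤ H G)
    (hsub : ∀ (s : Finset (V d)) (F : V d → Finset (V d)),
      H (s.biUnion F) ≤ ∑ i ∈ s, H (F i))
    (htr : ∀ (v : V d) F, H (F.image fun x => x + v) = H F)
    (B : V d →+ V d) (hB : Function.Injective B) :
    ∃ c : ℕ, ∀ k : ℕ, 1 ≤ k → ∀ n : ℕ,
      H (preS B hB (box d n)) * (k : ℝ) ^ d ≤
        ((preS B hB (box d n)).card + ((n : ℝ) + 2 * (c * k)) ^ d - (n : ℝ) ^ d) *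
          H (box d k) := by
  obtain ⟨c, hc⟩ := B_bound B
  refine ⟨c, fun k hk n => ?_⟩
  have hk0 : (0 : ℤ) < k := by exact_mod_cast hk
  have h1 := tile_le H hnn hmono hsub htr (box d k) (fun w => (k : ℤ) • w)
    (by
      intro w w' x hx y hy hxy
      rw [mem_box] at hx hy
      funext i
      have h2 := congrFun hxy i
      simp only [Pi.add_apply, Pi.smul_apply, smul_eq_mul] at h2
      have e1 : (x i + k * w i) / k = w i := by
        rw [Int.add_mul_ediv_left _ _ hk0.ne', Int.ediv_eq_zero_of_lt (hx i).1 (hx i).2, zero_add]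
      have e2 : (y i + k * w' i) / k = w' i := by
        rw [Int.add_mul_ediv_left _ _ hk0.ne', Int.ediv_eq_zero_of_lt (hy i).1 (hy i).2, zero_add]
      rw [← e1, ← e2, h2])
    (preS B hB (box d n)) (preS B hB (bb d n (c * k))) (fun u i => u i / k)
    (by
      intro u _
      refine ⟨fun i => u i % k, ?_, ?_⟩
      · rw [mem_box]
        intro i
        exact ⟨Int.emod_nonneg _ hk0.ne', Int.emod_lt_of_pos _ hk0⟩
      · funext i
        simp only [Pi.add_apply, Pi.smul_apply, smul_eq_mul]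
        exact Int.emod_add_mul_ediv (u i) k)
    (by
      intro u hu x hx
      rw [mem_preS, mem_box] at hu
      rw [mem_box] at hx
      rw [mem_preS, mem_bb]
      intro j
      set y : V d := fun i => u i % k with hy
      have hyu : y + (k : ℤ) • (fun i => u i / (k : ℤ)) = u := by
        funext i
        simp only [hy, Pi.add_apply, Pi.smul_apply, smul_eq_mul]
        exact Int.emod_add_mul_ediv (u i) k
      have h3 : x + (k : ℤ) • (fun i => u i / (k : ℤ)) = u + (x - y) := by
        conv_rhs => rw [← hyu]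
        abel
      have h4 : ∀ i, |(x - y) i| ≤ (k : ℤ) := by
        intro i
        rw [Pi.sub_apply]
        exact abs_sub_lt_of (hx i) ⟨Int.emod_nonneg _ hk0.ne', Int.emod_lt_of_pos _ hk0⟩
      have h5 := abs_le.1 (hc k (x - y) h4 j)
      rw [h3, map_add, Pi.add_apply]
      have h6 := hu j
      push_cast
      constructor <;> [linarith [h5.1]; linarith [h5.2]])
  rw [card_box] at h1
  have h7 := card_preS_add B hB (box d n) (bb d n (c * k)) (box_sub_bb n (c * k))
  rw [card_box, card_bb] at h7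
  have h8 : ((preS B hB (bb d n (c * k))).card : ℝ) + (n : ℝ) ^ d ≤
      (preS B hB (box d n)).card + ((n : ℝ) + 2 * (c * k)) ^ d := by exact_mod_cast h7
  push_cast at h1
  refine h1.trans (mul_le_mul_of_nonneg_right ?_ (hnn _))
  linarith

/-- Lower bound. -/
theorem lower (H : Finset (V d) → ℝ) (hnn : ∀ F, 0 ≤ H F)
    (hmono : ∀ F G, F ⊆ G → H F ≤ H G)
    (hsub : ∀ (s : Finset (V d)) (F : V d → Finset (V d)),
      H (s.biUnion F) ≤ ∑ i ∈ s, H (F i))
    (htr : ∀ (v : V d) F, H (F.image fun x => x + v) = H F)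
    (B : V d →+ V d) (hB : Function.Injective B) (e : ℕ) (he : 1 ≤ e)
    (hr : ∀ w : V d, ∃ u, B u = (e : ℤ) • w) :
    ∃ c : ℕ, ∀ q : ℕ, 1 ≤ q → ∀ N : ℕ,
      H (box d N) * (preS B hB (box d (e * q))).card ≤
        ((N : ℝ) + 2 * (c * (e * q))) ^ d * H (preS B hB (box d (e * q))) := by
  obtain ⟨c, hc⟩ := B_inv B hB e he hr
  choose r hr using hr
  refine ⟨c, fun q hq N => ?_⟩
  set n : ℕ := e * q with hn
  have hn0 : (0 : ℤ) < n := by
    have : 0 < e * q := Nat.mul_pos (by omega) (by omega)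
    rw [hn]
    exact_mod_cast this
  have hbw : ∀ w : V d, B ((q : ℤ) • r w) = (n : ℤ) • w := by
    intro w
    rw [map_zsmul, hr, smul_smul, hn]
    push_cast
    rw [mul_comm]
  have key : ∀ u : V d, u - (q : ℤ) • r (fun i => B u i / (n : ℤ)) ∈
      preS B hB (box d n) := by
    intro u
    rw [mem_preS, mem_box, map_sub, hbw]
    intro i
    simp only [Pi.sub_apply, Pi.smul_apply, smul_eq_mul]
    have h2 : B u i - (n : ℤ) * (B u i / n) = B u i % n := by
      have := Int.emod_add_mul_ediv (B u i) n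
      linarith
    rw [h2]
    exact ⟨Int.emod_nonneg _ hn0.ne', Int.emod_lt_of_pos _ hn0⟩
  have h1 := tile_le H hnn hmono hsub htr (preS B hB (box d n)) (fun w => (q : ℤ) • r w)
    (by
      intro w w' x hx y hy hxy
      rw [mem_preS, mem_box] at hx hy
      funext i
      have h2 := congrFun (congrArg B hxy) i
      rw [map_add, map_add, hbw, hbw] at h2
      simp only [Pi.add_apply, Pi.smul_apply, smul_eq_mul] at h2
      have e1 : (B x i + n * w i) / n = w i := by
        rw [Int.add_mul_ediv_left _ _ hn0.ne', Int.ediv_eq_zero_of_lt (hx i).1 (hx i).2, zero_add]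
      have e2 : (B y i + n * w' i) / n = w' i := by
        rw [Int.add_mul_ediv_left _ _ hn0.ne', Int.ediv_eq_zero_of_lt (hy i).1 (hy i).2, zero_add]
      rw [← e1, ← e2, h2])
    (box d N) (bb d N (c * n)) (fun u i => B u i / (n : ℤ))
    (by
      intro u _
      exact ⟨_, key u, by simp⟩)
    (by
      intro u hu x hx
      rw [mem_box] at hu
      rw [mem_preS, mem_box] at hx
      rw [mem_bb]
      intro j
      set b : V d := (q : ℤ) • r (fun i => B u i / (n : ℤ)) with hb
      have hy := key u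
      rw [← hb, mem_preS, mem_box] at hy
      have h3 : x + b = u + (x - (u - b)) := by abel
      have h4 : ∀ i, |B (x - (u - b)) i| ≤ (n : ℤ) := by
        intro i
        rw [map_sub, Pi.sub_apply]
        exact abs_sub_lt_of (hx i) (hy i)
      have h5 := abs_le.1 (hc n _ h4 j)
      rw [h3, Pi.add_apply]
      have h6 := hu j
      push_cast
      constructor <;> [linarith [h5.1]; linarith [h5.2]])
  rw [card_bb] at h1
  refine h1.trans (le_of_eq ?_)
  rw [hn]
  push_cast
  ring

theorem lim_ratio (a : ℝ) (d : ℕ) : Tendsto (fun n : ℕ => (((n : ℝ) + a) / n) ^ d) atTop (𝓝 1) := by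
  have h1 : Tendsto (fun n : ℕ => 1 + a / (n : ℝ)) atTop (𝓝 (1 + 0)) :=
    tendsto_const_nhds.add (tendsto_const_div_atTop_nhds_zero_nat a)
  have h2 := h1.pow d
  rw [add_zero, one_pow] at h2
  refine h2.congr' ?_
  filter_upwards [eventually_gt_atTop 0] with n hn
  have : (n : ℝ) ≠ 0 := by exact_mod_cast hn.ne'
  congr 1
  field_simp

end ShapeAux

open ShapeAux

theorem shape_finite (B : V d →+ V d) (hB : Function.Injective B) (n : ℕ) :
    {u : V d | B u ∈ box d n}.Finite := by
  exact fin_pre B hB (box d n)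

/-- The preimage of the cube. -/
def pre (B : V d →+ V d) (hB : Function.Injective B) (n : ℕ) : Finset (V d) :=
  (shape_finite B hB n).toFinset

theorem shape (hd : 1 ≤ d) (B : V d →+ V d) (hB : Function.Injective B) (e : ℕ) (he : 1 ≤ e)
    (hr : ∀ w : V d, ∃ u, B u = (e : ℤ) • w) (μ : Measure (V d → A)) [IsProbabilityMeasure μ]
    (hμ : ∀ v, μ.map (shift v) = μ) :
    Tendsto (fun n : ℕ => HF μ (pre B hB n) / ((pre B hB n).card : ℝ)) atTop (𝓝 (hent μ)) := by
  classical
  have hpre : ∀ n, pre B hB n = preS B hB (box d n) := fun n => rfl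
  set H : Finset (V d) → ℝ := fun F => HF μ F with hH
  have hnn : ∀ F, 0 ≤ H F := fun F => HF_nonneg μ F
  have hmono : ∀ F G, F ⊆ G → H F ≤ H G := fun F G h => HF_mono μ F G h
  have hsub : ∀ (s : Finset (V d)) (F : V d → Finset (V d)),
      H (s.biUnion F) ≤ ∑ i ∈ s, H (F i) := fun s F => HF_biUnion_le μ s F
  have htr : ∀ (v : V d) F, H (F.image fun x => x + v) = H F := by
    intro v F
    have h1 := HF_shift μ v F
    rw [hμ v] at h1
    exact h1.symm
  obtain ⟨c, hup⟩ := upper H hnn hmono hsub htr B hB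
  obtain ⟨c', hlo⟩ := lower H hnn hmono hsub htr B hB e he hr
  have hent0 : 0 ≤ hent μ := hent_nonneg μ
  have hlim := hent_tendsto μ hμ
  -- cardinalities
  set P : ℕ → Finset (V d) := fun n => preS B hB (box d n) with hP
  have he0 : 0 < e := he
  have hcard_lo : ∀ n, (n / e) ^ d ≤ (P n).card := by
    intro n
    choose r hr using hr
    rw [← card_box (d := d) (n / e)]
    apply Finset.card_le_card_of_injOn r
    · intro w hw
      have hw' := (mem_box _ _).1 (Finset.mem_coe.1 hw)
      refine Finset.mem_coe.2 ((mem_preS B hB _ _).2 ?_)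
      rw [hr, mem_box]
      intro i
      rw [Pi.smul_apply, smul_eq_mul]
      obtain ⟨h1, h2⟩ := hw' i
      have he' : (0 : ℤ) < e := by exact_mod_cast he0
      refine ⟨mul_nonneg he'.le h1, ?_⟩
      have h3 : w i + 1 ≤ ((n / e : ℕ) : ℤ) := h2
      have h4 : (e : ℤ) * ((n / e : ℕ) : ℤ) ≤ n := by exact_mod_cast Nat.mul_div_le n e
      nlinarith
    · intro w _ w' _ h
      have h1 : (e : ℤ) • w = (e : ℤ) • w' := by rw [← hr, ← hr, h]
      have he' : (e : ℤ) ≠ 0 := by exact_mod_cast he0.ne'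
      exact smul_right_injective _ he' h1
  have hcard_hi : ∀ n, (P n).card ≤ n ^ d := by
    intro n
    rw [← card_box (d := d) n]
    exact card_preS_le B hB _
  set E : ℝ := (2 * (e : ℝ)) ^ d with hE
  have hE0 : 0 < E := by
    have : (0 : ℝ) < e := by exact_mod_cast he0
    positivity
  have hratio : ∀ n : ℕ, e ≤ n → (n : ℝ) ^ d ≤ E * (P n).card := by
    intro n hn
    have h1 : n ≤ 2 * e * (n / e) := by
      have h2 : n < e * (n / e + 1) := by
        have := Nat.lt_mul_div_succ n he0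
        exact this
      have h3 : 1 ≤ n / e := (Nat.one_le_div_iff he0).2 hn
      nlinarith
    have h4 : n ^ d ≤ (2 * e) ^ d * (n / e) ^ d := by
      rw [← mul_pow]
      exact Nat.pow_le_pow_left h1 d
    have h5 : n ^ d ≤ (2 * e) ^ d * (P n).card := h4.trans (Nat.mul_le_mul_left _ (hcard_lo n))
    rw [hE]
    exact_mod_cast h5
  have hPpos : ∀ n : ℕ, e ≤ n → (0 : ℝ) < (P n).card := by
    intro n hn
    have h1 : 1 ≤ n / e := (Nat.one_le_div_iff he0).2 hn
    have h2 : 0 < (n / e) ^ d := Nat.pow_pos h1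
    exact_mod_cast h2.trans_le (hcard_lo n)
  -- lower bound at multiples of e
  have hlow : ∀ q : ℕ, 1 ≤ q → hent μ * (P (e * q)).card ≤ H (P (e * q)) := by
    intro q hq
    have h1 : Tendsto (fun N : ℕ => HF μ (box d N) / (N : ℝ) ^ d * (P (e * q)).card) atTop
        (𝓝 (hent μ * (P (e * q)).card)) := hlim.mul_const _
    have h2 : Tendsto (fun N : ℕ => (((N : ℝ) + 2 * (c' * (e * q))) / N) ^ d * H (P (e * q)))
        atTop (𝓝 (1 * H (P (e * q)))) := (lim_ratio _ d).mul_const _
    rw [one_mul] at h2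
    refine le_of_tendsto_of_tendsto h1 h2 ?_
    filter_upwards [eventually_gt_atTop 0] with N hN
    have hN0 : (0 : ℝ) < (N : ℝ) ^ d := by
      have : (0 : ℝ) < N := by exact_mod_cast hN
      positivity
    rw [div_pow, div_mul_eq_mul_div, div_mul_eq_mul_div]
    exact div_le_div_of_nonneg_right (hlo q hq N) hN0.le
  rw [tendsto_order]
  constructor
  · intro a ha
    have h1 : Tendsto (fun n : ℕ => (1 - E * (1 - (((n : ℝ) + (-(e : ℝ))) / n) ^ d)) * hent μ)
        atTop (𝓝 ((1 - E * (1 - 1)) * hent μ)) :=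
      (tendsto_const_nhds.sub ((tendsto_const_nhds.sub
        (lim_ratio (-(e : ℝ)) d)).const_mul E)).mul_const _
    have h2 : (1 - E * (1 - 1)) * hent μ = hent μ := by ring
    rw [h2] at h1
    have h3 := (tendsto_order.1 h1).1 a ha
    filter_upwards [h3, eventually_ge_atTop e, eventually_gt_atTop 0] with n hn hne hn0
    refine hn.trans_le ?_
    rw [hpre, le_div_iff₀ (hPpos n hne)]
    have hq : 1 ≤ n / e := (Nat.one_le_div_iff he0).2 hne
    have h4 := hlow (n / e) hq
    have h5 : e * (n / e) ≤ n := Nat.mul_div_le n e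
    have h5' : n ≤ e * (n / e) + e := by
      have := Nat.lt_mul_div_succ n he0
      have h6 : e * (n / e + 1) = e * (n / e) + e := by ring
      omega
    have hsubb : box d (e * (n / e)) ⊆ box d n := by
      intro x hx
      rw [mem_box] at hx ⊢
      intro i
      have h6 := hx i
      have h7 : ((e * (n / e) : ℕ) : ℤ) ≤ n := by exact_mod_cast h5
      exact ⟨h6.1, h6.2.trans_le h7⟩
    have h6 : H (P (e * (n / e))) ≤ H (P n) := by
      apply hmono
      intro u hu
      rw [hP] at hu ⊢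
      simp only [] at hu ⊢
      rw [mem_preS] at hu ⊢
      exact hsubb hu
    have h7 := card_preS_add B hB _ _ hsubb
    rw [card_box, card_box] at h7
    have h8 : ((P n).card : ℝ) + ((e * (n / e) : ℕ) : ℝ) ^ d ≤
        (P (e * (n / e))).card + (n : ℝ) ^ d := by exact_mod_cast h7
    have hnr : (0 : ℝ) < n := by exact_mod_cast hn0
    have h9 : ((n : ℝ) + (-(e : ℝ))) ^ d ≤ ((e * (n / e) : ℕ) : ℝ) ^ d := by
      apply pow_le_pow_left₀
      · have : (e : ℝ) ≤ n := by exact_mod_cast hne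
        linarith
      · have : (n : ℝ) ≤ ((e * (n / e) : ℕ) : ℝ) + e := by exact_mod_cast h5'
        linarith
    have h10 := hratio n hne
    have h11 : (1 - (((n : ℝ) + (-(e : ℝ))) / n) ^ d) * (n : ℝ) ^ d =
        (n : ℝ) ^ d - ((n : ℝ) + (-(e : ℝ))) ^ d := by
      rw [div_pow, sub_mul, one_mul, div_mul_cancel₀]
      positivity
    have h12 : 0 ≤ 1 - (((n : ℝ) + (-(e : ℝ))) / n) ^ d := by
      have h13 : (((n : ℝ) + (-(e : ℝ))) / n) ^ d ≤ 1 := by
        apply pow_le_one₀
        · apply div_nonneg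
          · have : (e : ℝ) ≤ n := by exact_mod_cast hne
            linarith
          · exact hnr.le
        · rw [div_le_one hnr]
          have : (0 : ℝ) ≤ e := by positivity
          linarith
      linarith
    have h13 : (n : ℝ) ^ d - ((n : ℝ) + (-(e : ℝ))) ^ d ≤
        E * (1 - (((n : ℝ) + (-(e : ℝ))) / n) ^ d) * (P n).card := by
      rw [← h11]
      have := mul_le_mul_of_nonneg_left h10 h12
      linarith
    have h14 : (1 - E * (1 - (((n : ℝ) + (-(e : ℝ))) / n) ^ d)) * ((P n).card : ℝ) ≤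
        (P (e * (n / e))).card := by linarith
    calc (1 - E * (1 - (((n : ℝ) + (-(e : ℝ))) / n) ^ d)) * hent μ * ((P n).card : ℝ)
        = hent μ * ((1 - E * (1 - (((n : ℝ) + (-(e : ℝ))) / n) ^ d)) * ((P n).card : ℝ)) := by
          ring
      _ ≤ hent μ * (P (e * (n / e))).card := mul_le_mul_of_nonneg_left h14 hent0
      _ ≤ H (P (e * (n / e))) := h4
      _ ≤ H (P n) := h6
  · intro a ha
    obtain ⟨k, hk1, hk⟩ : ∃ k : ℕ, 1 ≤ k ∧ HF μ (box d k) / (k : ℝ) ^ d < a := by
      have h1 := (tendsto_order.1 hlim).2 a ha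
      obtain ⟨k, hk⟩ := (h1.and (eventually_ge_atTop 1)).exists
      exact ⟨k, hk.2, hk.1⟩
    set hk' : ℝ := HF μ (box d k) / (k : ℝ) ^ d with hhk
    have hk0 : (0 : ℝ) < (k : ℝ) ^ d := by
      have : (0 : ℝ) < k := by exact_mod_cast hk1
      positivity
    have hkk : HF μ (box d k) = hk' * (k : ℝ) ^ d := by
      rw [hhk, div_mul_cancel₀]
      exact hk0.ne'
    have hknn : 0 ≤ hk' := div_nonneg (hnn _) hk0.le
    have h1 : Tendsto (fun n : ℕ =>
        (1 + E * ((((n : ℝ) + 2 * (c * k)) / n) ^ d - 1)) * hk')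
        atTop (𝓝 ((1 + E * (1 - 1)) * hk')) :=
      (tendsto_const_nhds.add (((lim_ratio (2 * (c * k)) d).sub
        tendsto_const_nhds).const_mul E)).mul_const _
    have h2 : (1 + E * (1 - 1)) * hk' = hk' := by ring
    rw [h2] at h1
    have h3 := (tendsto_order.1 h1).2 a hk
    filter_upwards [h3, eventually_ge_atTop e, eventually_gt_atTop 0] with n hn hne hn0
    refine lt_of_le_of_lt ?_ hn
    rw [hpre, div_le_iff₀ (hPpos n hne)]
    have h4 := hup k hk1 n
    have h4' : H (P n) * (k : ℝ) ^ d ≤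
        ((P n).card + ((n : ℝ) + 2 * (c * k)) ^ d - (n : ℝ) ^ d) * (hk' * (k : ℝ) ^ d) := by
      rw [← hkk]
      exact h4
    rw [← mul_assoc] at h4'
    have h5 := le_of_mul_le_mul_right h4' hk0
    refine h5.trans ?_
    have hnr : (0 : ℝ) < n := by exact_mod_cast hn0
    have h10 := hratio n hne
    have h11 : ((((n : ℝ) + 2 * (c * k)) / n) ^ d - 1) * (n : ℝ) ^ d =
        ((n : ℝ) + 2 * (c * k)) ^ d - (n : ℝ) ^ d := by
      rw [div_pow, sub_mul, one_mul, div_mul_cancel₀]
      positivity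
    have h12 : 0 ≤ (((n : ℝ) + 2 * (c * k)) / n) ^ d - 1 := by
      have h13 : 1 ≤ (((n : ℝ) + 2 * (c * k)) / n) ^ d := by
        apply one_le_pow₀
        rw [le_div_iff₀ hnr]
        have : (0 : ℝ) ≤ 2 * (c * k) := by positivity
        linarith
      linarith
    have h13 : ((n : ℝ) + 2 * (c * k)) ^ d - (n : ℝ) ^ d ≤
        E * ((((n : ℝ) + 2 * (c * k)) / n) ^ d - 1) * (P n).card := by
      rw [← h11]
      have := mul_le_mul_of_nonneg_left h10 h12
      linarith
    have h14 : ((P n).card : ℝ) + ((n : ℝ) + 2 * (c * k)) ^ d - (n : ℝ) ^ d ≤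
        (1 + E * ((((n : ℝ) + 2 * (c * k)) / n) ^ d - 1)) * (P n).card := by linarith
    calc (((P n).card : ℝ) + ((n : ℝ) + 2 * (c * k)) ^ d - (n : ℝ) ^ d) * hk'
        ≤ ((1 + E * ((((n : ℝ) + 2 * (c * k)) / n) ^ d - 1)) * (P n).card) * hk' :=
          mul_le_mul_of_nonneg_right h14 hknn
      _ = _ := by ring

end Helper15.DE
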