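import Pool.Agent.Helper10.DE.X.Feas

/-!
# DE X.7  Zero entropy at the vertices

PROOF.  Let `λ·st b < λ·st a` for all `b ≠ a`.  If `Inv (Cfg st) μ` and `mean (chg st) μ = st a` then
`∑_b μ(ω 0 = b) (λ·st a - λ·st b) = 0` (`mean_eq`), so `ω 0 = a` almost surely, by invariance `ω x = a` a.s. for
every `x`, so every pattern entropy is `0` and `hent μ = 0`.  Hence `Emax st (st a) = 0` (supremum of
`{0}` or of the empty set).
For `st2`: `λ = (-1,-1), (1,0), (0,1)` for `a = 0, 1, 2`.
-/

noncomputable section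

open MeasureTheory Filter Topology

namespace Helper15.DE

variable {d : ℕ} {A : Type} [Fintype A] [MeasurableSpace A] [MeasurableSingletonClass A]

private theorem ent_const {Ω α : Type*} [MeasurableSpace Ω] [Fintype α] (P : Measure Ω)
    [IsProbabilityMeasure P] (c : α) : ent P (fun _ : Ω => c) = 0 := by
  classical
  unfold ent
  refine Finset.sum_eq_zero fun b _ => ?_
  by_cases h : c = b
  · have h1 : (fun _ : Ω => c) ⁻¹' {b} = Set.univ := by
      ext ω
      simp [h]
    rw [h1, probReal_univ, Real.negMulLog_one]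
  · have h1 : (fun _ : Ω => c) ⁻¹' {b} = ∅ := by
      ext ω
      simp [h]
    rw [h1, measureReal_empty, Real.negMulLog_zero]

private theorem hent_zero (a : A) (μ : Measure (V d → A)) [IsProbabilityMeasure μ]
    (h : ∀ x, ∀ᵐ ω ∂μ, ω x = a) : hent μ = 0 := by
  have h1 : ∀ F : Finset (V d), HF μ F = 0 := by
    intro F
    rw [HF_eq_ent]
    have h2 : (fun (ω : V d → A) (x : F) => ω x) =ᵐ[μ] fun _ => fun _ : F => a := by
      have h3 : ∀ᵐ ω ∂μ, ∀ x : F, ω x = a := ae_all_iff.2 fun x => h x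
      filter_upwards [h3] with ω hω
      funext x
      exact hω x
    rw [ent_congr μ _ _ h2]
    exact ent_const μ _
  unfold hent
  simp only [h1, zero_div]
  exact ciInf_const

theorem vert_zero (st : A → V d) (a : A) (l : Fin d → ℝ)
    (h : ∀ b, b ≠ a → ∑ i, l i * (st b i : ℝ) < ∑ i, l i * (st a i : ℝ)) :
    Emax st (fun i => (st a i : ℝ)) = 0 := by
  classical
  have key : ∀ μ : Measure (V d → A), Inv (Cfg st) μ →
      mean (chg st) μ = (fun i => (st a i : ℝ)) → hent μ = 0 := by
    intro μ hμ hm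
    have := hμ.prob
    set w : A → ℝ := fun b => μ.real {ω : V d → A | ω 0 = b} with hw
    have hm0 : Measurable (fun ω : V d → A => ω 0) := measurable_pi_apply 0
    have hsum : ∑ b, w b = 1 := EntAux.total μ (fun ω : V d → A => ω 0) hm0
    have hw0 : ∀ b, 0 ≤ w b := fun b => measureReal_nonneg
    have hmean : ∀ i, ∑ b, (st b i : ℝ) * w b = (st a i : ℝ) := by
      intro i
      have h1 := mean_eq (chg st) μ i
      rw [hm] at h1
      exact h1.symm
    have h2 : ∑ b, w b * (∑ i, l i * (st a i : ℝ) - ∑ i, l i * (st b i : ℝ)) = 0 := by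
      simp only [mul_sub, Finset.sum_sub_distrib]
      rw [← Finset.sum_mul, hsum, one_mul, sub_eq_zero]
      have h3 : ∀ i, l i * (st a i : ℝ) = ∑ b, w b * (l i * (st b i : ℝ)) := by
        intro i
        rw [← hmean i, Finset.mul_sum]
        exact Finset.sum_congr rfl fun b _ => by ring
      rw [Finset.sum_congr rfl fun i _ => h3 i, Finset.sum_comm]
      exact Finset.sum_congr rfl fun b _ => (Finset.mul_sum _ _ _).symm
    have h3 : ∀ b, 0 ≤ w b * (∑ i, l i * (st a i : ℝ) - ∑ i, l i * (st b i : ℝ)) := by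
      intro b
      by_cases hb : b = a
      · rw [hb, sub_self, mul_zero]
      · exact mul_nonneg (hw0 b) (sub_nonneg.2 (h b hb).le)
    have h4 : ∀ b, b ≠ a → w b = 0 := by
      intro b hb
      have h5 := (Finset.sum_eq_zero_iff_of_nonneg fun b _ => h3 b).1 h2 b (Finset.mem_univ b)
      rcases mul_eq_zero.1 h5 with h6 | h6
      · exact h6
      · exact absurd h6 (sub_pos.2 (h b hb)).ne'
    have h5 : w a = 1 := by
      rw [← hsum]
      exact (Finset.sum_eq_single a (fun b _ hb => h4 b hb)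
        fun h6 => absurd (Finset.mem_univ a) h6).symm
    have h6 : ∀ᵐ ω ∂μ, ω 0 = a := by
      have hS : MeasurableSet {ω : V d → A | ω 0 = a} := hm0 (measurableSet_singleton a)
      have h7 : μ {ω : V d → A | ω 0 = a} = 1 := by
        have h8 : μ.real {ω : V d → A | ω 0 = a} = 1 := h5
        rw [measureReal_def] at h8
        have h9 : μ {ω : V d → A | ω 0 = a} ≠ ⊤ := measure_ne_top _ _
        rw [← ENNReal.ofReal_toReal h9, h8, ENNReal.ofReal_one]
      exact (prob_compl_eq_zero_iff hS).2 h7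
    refine hent_zero a μ fun x => ?_
    have h7 : ∀ᵐ ω ∂(μ.map (shift x)), ω 0 = a := by
      rw [hμ.map x]; exact h6
    have h8 := ae_of_ae_map (measurable_shiftE x).aemeasurable h7
    filter_upwards [h8] with ω hω
    have h9 : ω (0 + x) = a := hω
    rwa [zero_add] at h9
  unfold Emax
  rcases Set.eq_empty_or_nonempty {h : ℝ | ∃ μ, Inv (Cfg st) μ ∧
    mean (chg st) μ = (fun i => (st a i : ℝ)) ∧ hent μ = h} with h1 | ⟨x, hx⟩
  · rw [h1, Real.sSup_empty]
  · have h2 : {h : ℝ | ∃ μ, Inv (Cfg st) μ ∧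
        mean (chg st) μ = (fun i => (st a i : ℝ)) ∧ hent μ = h} = {0} := by
      ext y
      constructor
      · rintro ⟨μ, h3, h4, rfl⟩
        exact key μ h3 h4
      · rintro rfl
        obtain ⟨μ, h3, h4, h5⟩ := hx
        exact ⟨μ, h3, h4, key μ h3 h4⟩
    rw [h2, csSup_singleton]

theorem vert2 : Emax st2 ![0, 0] = 0 ∧ Emax st2 ![1, 0] = 0 ∧ Emax st2 ![0, 1] = 0 := by
  have e0 : (fun i => (st2 0 i : ℝ)) = ![0, 0] := by
    funext i
    fin_cases i <;> simp [st2]
  have e1 : (fun i => (st2 1 i : ℝ)) = ![1, 0] := by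
    funext i
    fin_cases i <;> simp [st2]
  have e2 : (fun i => (st2 2 i : ℝ)) = ![0, 1] := by
    funext i
    fin_cases i <;> simp [st2]
  refine ⟨?_, ?_, ?_⟩
  · rw [← e0]
    refine vert_zero st2 0 ![-1, -1] fun b hb => ?_
    fin_cases b <;> simp [st2, Fin.sum_univ_two] at hb ⊢
  · rw [← e1]
    refine vert_zero st2 1 ![1, 0] fun b hb => ?_
    fin_cases b <;> simp [st2, Fin.sum_univ_two] at hb ⊢
  · rw [← e2]
    refine vert_zero st2 2 ![0, 1] fun b hb => ?_
    fin_cases b <;> simp [st2, Fin.sum_univ_two] at hb ⊢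

end Helper15.DE
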