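import Pool.Agent.Helper10.DE.X.Contact
import Pool.Agent.Helper10.DE.X.ExtDC
import Pool.Agent.Helper10.DE.X.Octa
import Pool.Agent.Helper10.DE.X.Center
import Pool.Agent.Helper10.DE.X.Vert

/-!
# DE X.8  Strict concavity in the interior (two and three dimensions)

PROOF of both.  By concavity (`emax_concaveOn`) suppose `Emax z = t Emax x + (1 - t) Emax y`.
`exists_contact` at `z` (`int_feas2`, `int_feas3`): `p, k`, `z ∈ F = contact st p k`; `contact_of_eq`: `x, y ∈ F`,
`x ≠ y`, so `F ≠ {z}`.  `F` is compact convex.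
`strict3i`: by `mid_not_int` and `int3` the midpoint of two distinct extreme points has `nV ≥ 1`;
`octa_lemma` gives `F = {z}`, contradiction.
`strict2`: by `mid_not_int`, `int2`, `tri_lemma`: the three vertices are in `F`; by `vert2` the affine
function `k + p·x` vanishes at them, so it is identically `0`.  `F` convex contains the centre
`(1/3, 1/3)`, so `Emax st2 (1/3,1/3) = 0`, contradiction with `center_pos`.
-/

noncomputable section

open MeasureTheory Filter Topology

namespace Helper15.DE

private theorem strict_aux {d : ℕ} {A : Type} [Fintype A] [MeasurableSpace A]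
    [MeasurableSingletonClass A] (hd : 1 ≤ d) (st : A → V d) (x y z : Fin d → ℝ)
    (hx : x ∈ Feas st) (hy : y ∈ Feas st) (t : ℝ) (h0 : 0 < t) (h1 : t < 1)
    (hz : z = t • x + (1 - t) • y) (hzi : z ∈ interior (Feas st))
    (hcon : ∀ (p : Fin d → ℝ) (k : ℝ), (∀ x ∈ Feas st, Emax st x ≤ k + ∑ i, p i * x i) →
      z ∈ contact st p k → x ∈ contact st p k → y ∈ contact st p k → False) :
    t * Emax st x + (1 - t) * Emax st y < Emax st z := by
  have hle : t * Emax st x + (1 - t) * Emax st y ≤ Emax st z := by
    have h := (emax_concaveOn hd st).2 hx hy h0.le (sub_pos.2 h1).le (by ring : t + (1 - t) = 1)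
    rw [hz]
    simpa [smul_eq_mul] using h
  refine lt_of_le_of_ne hle fun he => ?_
  obtain ⟨p, k, hsup, hzc⟩ := exists_contact hd st z hzi
  obtain ⟨hxc, hyc⟩ := contact_of_eq hd st p k hsup x y z hx hy t h0 h1 hz hzc he.symm
  exact hcon p k hsup hzc hxc hyc

theorem strict2 (hDC : DCofInv st2) (hG : ThmG st2) (x y z : Fin 2 → ℝ) (hx : x ∈ triangle)
    (hy : y ∈ triangle) (hxy : x ≠ y) (t : ℝ) (h0 : 0 < t) (h1 : t < 1)
    (hz : z = t • x + (1 - t) • y) (hzo : z ∈ triangleO) :
    t * Emax st2 x + (1 - t) * Emax st2 y < Emax st2 z := by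
  have hx' : x ∈ Feas st2 := by rw [feas2]; exact hx
  have hy' : y ∈ Feas st2 := by rw [feas2]; exact hy
  refine strict_aux (by norm_num) st2 x y z hx' hy' t h0 h1 hz (int_feas2 z hzo) ?_
  intro p k hsup hzc hxc hyc
  have hconv := contact_convex (by norm_num) st2 p k hsup
  have hcomp := contact_compact (by norm_num) st2 p k hsup
  have hsub : contact st2 p k ⊆ triangle := by
    intro w hw
    have h := hw.1
    rw [feas2] at h
    exact h
  rcases tri_lemma (contact st2 p k) hcomp hconv hsub (fun a ha b hb hab hm =>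
    mid_not_int (by norm_num) st2 hDC hG p k hsup a b ha hb hab ((int2 _).2 hm)) z hzc hzo with
    h | ⟨hA, hB, hC⟩
  · have e1 : x = z := by
      have h2 := hxc
      rw [h] at h2
      exact h2
    have e2 : y = z := by
      have h2 := hyc
      rw [h] at h2
      exact h2
    exact hxy (e1.trans e2.symm)
  · obtain ⟨v0, v1, v2⟩ := vert2
    have k0 : k = 0 := by
      have h := hA.2
      rw [v0] at h
      simpa [Fin.sum_univ_two] using h.symm
    have p0 : p 0 = 0 := by
      have h := hB.2
      rw [v1, k0] at h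
      simpa [Fin.sum_univ_two] using h.symm
    have p1 : p 1 = 0 := by
      have h := hC.2
      rw [v2, k0] at h
      simpa [Fin.sum_univ_two] using h.symm
    have hm : (fun _ => 1 / 3 : Fin 2 → ℝ) ∈ contact st2 p k := by
      have hAB : (1 / 2 : ℝ) • (![0, 0] : Fin 2 → ℝ) + (1 / 2 : ℝ) • (![1, 0] : Fin 2 → ℝ) ∈
          contact st2 p k := hconv hA hB (by norm_num) (by norm_num) (by norm_num)
      have hABC := hconv hAB hC (show (0 : ℝ) ≤ 2 / 3 by norm_num)
        (show (0 : ℝ) ≤ 1 / 3 by norm_num) (by norm_num)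
      convert hABC using 1
      funext i
      fin_cases i <;> simp
      norm_num
    have h := hm.2
    rw [k0, Fin.sum_univ_two, p0, p1] at h
    have hc := center_pos
    rw [h] at hc
    simp at hc

theorem strict3i (hDC : DCofInv st3) (hG : ThmG st3) (x y z : Fin 3 → ℝ) (hx : nV x ≤ 1)
    (hy : nV y ≤ 1) (hxy : x ≠ y) (t : ℝ) (h0 : 0 < t) (h1 : t < 1)
    (hz : z = t • x + (1 - t) • y) (hzo : nV z < 1) :
    t * Emax st3 x + (1 - t) * Emax st3 y < Emax st3 z := by
  have hx' : x ∈ Feas st3 := by rw [feas3]; exact hx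
  have hy' : y ∈ Feas st3 := by rw [feas3]; exact hy
  refine strict_aux (by norm_num) st3 x y z hx' hy' t h0 h1 hz (int_feas3 z hzo) ?_
  intro p k hsup hzc hxc hyc
  have hconv := contact_convex (by norm_num) st3 p k hsup
  have hcomp := contact_compact (by norm_num) st3 p k hsup
  have hsub : ∀ w ∈ contact st3 p k, nV w ≤ 1 := by
    intro w hw
    have h := hw.1
    rw [feas3] at h
    exact h
  have h := octa_lemma (contact st3 p k) hcomp hconv hsub (fun a ha b hb hab => by
    by_contra hm
    exact mid_not_int (by norm_num) st3 hDC hG p k hsup a b ha hb hab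
      (int3 _ (not_le.1 hm))) z hzc hzo
  have e1 : x = z := by
    have h2 := hxc
    rw [h] at h2
    exact h2
  have e2 : y = z := by
    have h2 := hyc
    rw [h] at h2
    exact h2
  exact hxy (e1.trans e2.symm)

end Helper15.DE
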