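import Pool.Agent.Helper10.DE.X.Shape
import Pool.Agent.Helper10.DE.X.Feas

/-!
# DE X.12  Symmetries of `Emax`

`g` an automorphism of `ℤ^d`, `π` a permutation of the letters, `st (π a) = g (st a) + c`.
PROOF of `emax_sym_le`.  Let `μ` be a maximizer at `m` (if `m` is not feasible then `Emax st m = 0` (sSup of the
empty set) and the inequality is `emax_nonneg`).  `T ω x = π (ω (g⁻¹ x))`, `μ' = μ.map T`.
`mv st (T ω) x = x + g (st (ω (g⁻¹ x))) + c = g (mv st ω (g⁻¹ x)) + c`: `T` maps `Cfg st` to `Cfg st`.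
`shift v (T ω) = T (shift (g⁻¹ v) ω)`: invariance.  Mean of `μ'`: `∫ st (π (ω 0)) = g m + c = m'`.
`HF μ' (box d n) = HF μ {u | g u ∈ box d n}` (the recoding of letters by `π` is injective), `g` is injective
with range everything (`e = 1`), `|{u | g u ∈ box d n}| = n^d`, so by `shape` and `hent_tendsto` (for `μ'`):
`hent μ' = hent μ`.  `emax_sym`: apply `emax_sym_le` to `g` and to `g⁻¹, π⁻¹, c' = -g⁻¹ c`.
* `ethree_flip`: the reflections of `ℤ^3`: `s 0 ↦ -s 0`: `g (x,y,z) = (-y-z, -x-z, z)`,
  `c = (1,1,0)`, `π = (0 1)`; `s 1 ↦ -s 1`: `g (x,y,z) = (y,x,z)`, `c = 0`, `π = (2 3)`; `s 2 ↦ -s 2`: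
  `g (x,y,z) = (x+z, y+z, -z)`, `c = 0`, `π = (4 5)`.  (Check `st3 (π a) = g (st3 a) + c` by `decide`.)
-/

noncomputable section

open MeasureTheory Filter Topology

namespace Helper15.DE

variable {d : ℕ} {A : Type} [Fintype A] [MeasurableSpace A] [MeasurableSingletonClass A]

namespace XSym

/-- the recoded configuration -/
def T (g : V d ≃+ V d) (π : A ≃ A) (ω : V d → A) : V d → A := fun x => π (ω (g.symm x))

theorem measurable_T (g : V d ≃+ V d) (π : A ≃ A) : Measurable (T g π : (V d → A) → (V d → A)) := by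
  refine measurable_pi_lambda _ fun x => ?_
  exact (measurable_of_finite π).comp (measurable_pi_apply _)

omit [Fintype A] [MeasurableSpace A] [MeasurableSingletonClass A] in
theorem mv_T (st : A → V d) (g : V d ≃+ V d) (π : A ≃ A) (c : V d)
    (h : ∀ a, st (π a) = g (st a) + c) (ω : V d → A) (x : V d) :
    mv st (T g π ω) x = g (mv st ω (g.symm x)) + c := by
  unfold mv T
  rw [h, map_add, AddEquiv.apply_symm_apply, add_assoc]

omit [Fintype A] [MeasurableSpace A] [MeasurableSingletonClass A] in
theorem T_mem (st : A → V d) (g : V d ≃+ V d) (π : A ≃ A) (c : V d)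
    (h : ∀ a, st (π a) = g (st a) + c) (ω : V d → A) (hω : ω ∈ Cfg st) : T g π ω ∈ Cfg st := by
  have h1 : mv st (T g π ω) = (fun y => y + c) ∘ g ∘ mv st ω ∘ g.symm := by
    funext x
    exact mv_T st g π c h ω x
  show Function.Bijective (mv st (T g π ω))
  rw [h1]
  exact (Equiv.addRight c).bijective.comp (g.bijective.comp (Function.Bijective.comp hω g.symm.bijective))

omit [Fintype A] [MeasurableSpace A] [MeasurableSingletonClass A] in
theorem shift_T (g : V d ≃+ V d) (π : A ≃ A) (v : V d) (ω : V d → A) :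
    shift v (T g π ω) = T g π (shift (g.symm v) ω) := by
  funext x
  unfold shift T
  rw [map_add]

theorem map_shift (μ : Measure (V d → A)) (hμ : ∀ v, μ.map (shift v) = μ) (g : V d ≃+ V d)
    (π : A ≃ A) (v : V d) : (μ.map (T g π)).map (shift v) = μ.map (T g π) := by
  rw [Measure.map_map (measurable_shiftE v) (measurable_T g π)]
  have h1 : (shift v ∘ T g π : (V d → A) → (V d → A)) = T g π ∘ shift (g.symm v) := by
    funext ω
    exact shift_T g π v ω
  rw [h1, ← Measure.map_map (measurable_T g π) (measurable_shiftE _), hμ]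

theorem HF_T (μ : Measure (V d → A)) [IsProbabilityMeasure μ] (g : V d ≃+ V d) (π : A ≃ A)
    (F G : Finset (V d)) (hFG : ∀ u, u ∈ G ↔ g u ∈ F) : HF (μ.map (T g π)) F = HF μ G := by
  rw [HF_eq_ent, HF_eq_ent, ent_map μ (T g π) (measurable_T g π) _ (measurable_restr F)]
  have hG : ∀ x : F, g.symm x ∈ G := by
    intro x
    rw [hFG, AddEquiv.apply_symm_apply]
    exact x.2
  have hF : ∀ y : G, g y ∈ F := fun y => (hFG y).1 y.2
  apply le_antisymm
  · have h1 : ((fun (ω : V d → A) (x : F) => ω x) ∘ T g π) =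
        (fun (b : G → A) (x : F) => π (b ⟨g.symm x, hG x⟩)) ∘ (fun (ω : V d → A) (y : G) => ω y) := by
      funext ω x
      rfl
    rw [h1]
    exact ent_comp_le μ _ (measurable_restr G) _
  · have h1 : (fun (ω : V d → A) (y : G) => ω y) =
        (fun (a : F → A) (y : G) => π.symm (a ⟨g y, hF y⟩)) ∘
          ((fun (ω : V d → A) (x : F) => ω x) ∘ T g π) := by
      funext ω y
      show ω y = π.symm (π (ω (g.symm (g y))))
      rw [Equiv.symm_apply_apply, AddEquiv.symm_apply_apply]
    rw [h1]
    exact ent_comp_le μ _ ((measurable_restr F).comp (measurable_T g π)) _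

theorem hent_T (hd : 1 ≤ d) (μ : Measure (V d → A)) [IsProbabilityMeasure μ]
    (hμ : ∀ v, μ.map (shift v) = μ) (g : V d ≃+ V d) (π : A ≃ A) :
    hent (μ.map (T g π)) = hent μ := by
  haveI hp : IsProbabilityMeasure (μ.map (T g π)) :=
    Measure.isProbabilityMeasure_map (measurable_T g π).aemeasurable
  have h1 := hent_tendsto (μ.map (T g π)) (map_shift μ hμ g π)
  have hinj : Function.Injective (g.toAddMonoidHom : V d →+ V d) := g.injective
  have h2 := shape hd g.toAddMonoidHom hinj 1 le_rfl
    (fun w => ⟨g.symm w, by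
      show g (g.symm w) = _
      rw [AddEquiv.apply_symm_apply]
      simp⟩) μ hμ
  have h3 : ∀ n : ℕ, HF μ (pre g.toAddMonoidHom hinj n) / ((pre g.toAddMonoidHom hinj n).card : ℝ)
      = HF (μ.map (T g π)) (box d n) / (n : ℝ) ^ d := by
    intro n
    have hmem : ∀ u, u ∈ pre g.toAddMonoidHom hinj n ↔ g u ∈ box d n := by
      intro u
      unfold pre
      rw [Set.Finite.mem_toFinset]
      rfl
    have hcard : (pre g.toAddMonoidHom hinj n).card = n ^ d := by
      rw [← card_box (d := d) n]
      refine Finset.card_bij (fun u _ => g u) (fun u hu => (hmem u).1 hu)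
        (fun u _ w _ h => g.injective h) (fun w hw => ⟨g.symm w, ?_, ?_⟩)
      · rw [hmem, AddEquiv.apply_symm_apply]
        exact hw
      · exact AddEquiv.apply_symm_apply g w
    rw [hcard, HF_T μ g π (box d n) _ hmem]
    push_cast
    rfl
  simp only [h3] at h2
  exact tendsto_nhds_unique h1 h2

omit [Fintype A] [MeasurableSpace A] [MeasurableSingletonClass A] in
theorem g_apply (g : V d ≃+ V d) (v : V d) (i : Fin d) :
    g v i = ∑ j, g (Pi.single j 1) i * v j := by
  have h1 : v = ∑ j, v j • (Pi.single j 1 : V d) := by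
    funext i
    simp [Finset.sum_apply, Pi.single_apply]
  conv_lhs => rw [h1]
  rw [map_sum, Finset.sum_apply]
  refine Finset.sum_congr rfl fun j _ => ?_
  rw [map_zsmul, Pi.smul_apply, smul_eq_mul, mul_comm]

theorem total (μ : Measure (V d → A)) [IsProbabilityMeasure μ] :
    ∑ a, μ.real {ω | ω 0 = a} = 1 := by
  have h1 := mean_eq (k := 1) (fun _ _ => (1 : ℝ)) μ 0
  unfold mean at h1
  simp only [one_mul, integral_const, smul_eq_mul, mul_one] at h1
  rw [← h1]
  simp

theorem mean_T (μ : Measure (V d → A)) [IsProbabilityMeasure μ] (st : A → V d) (g : V d ≃+ V d)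
    (π : A ≃ A) (c : V d) (h : ∀ a, st (π a) = g (st a) + c) (i : Fin d) :
    mean (chg st) (μ.map (T g π)) i
      = (∑ j, (g (Pi.single j 1) i : ℝ) * mean (chg st) μ j) + c i := by
  haveI hp : IsProbabilityMeasure (μ.map (T g π)) :=
    Measure.isProbabilityMeasure_map (measurable_T g π).aemeasurable
  have h0 : ∀ a, (μ.map (T g π)).real {ω | ω 0 = π a} = μ.real {ω | ω 0 = a} := by
    intro a
    have hm : MeasurableSet {ω : V d → A | ω 0 = π a} := by
      have h1 : Measurable (fun ω : V d → A => ω 0) := measurable_pi_apply 0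
      exact h1 (measurableSet_singleton (π a))
    rw [map_measureReal_apply (measurable_T g π) hm]
    congr 1
    ext ω
    simp [T]
  rw [mean_eq]
  simp only [mean_eq (chg st) μ]
  rw [← Equiv.sum_comp π]
  simp only [h0]
  have h1 : ∀ a, chg st (π a) i = (∑ j, (g (Pi.single j 1) i : ℝ) * chg st a j) + c i := by
    intro a
    unfold chg
    rw [h, Pi.add_apply, g_apply]
    push_cast
    rfl
  simp only [h1, add_mul, Finset.sum_add_distrib]
  rw [← Finset.mul_sum, total, mul_one]
  congr 1
  simp only [Finset.sum_mul, Finset.mul_sum]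
  rw [Finset.sum_comm]
  refine Finset.sum_congr rfl fun j _ => Finset.sum_congr rfl fun a _ => ?_
  ring

theorem inv_T (st : A → V d) (μ : Measure (V d → A)) (hμ : Inv (Cfg st) μ) (g : V d ≃+ V d)
    (π : A ≃ A) (c : V d) (h : ∀ a, st (π a) = g (st a) + c) :
    Inv (Cfg st) (μ.map (T g π)) where
  prob := by
    have := hμ.prob
    exact Measure.isProbabilityMeasure_map (measurable_T g π).aemeasurable
  map := fun v => map_shift μ hμ.map g π v
  supp := by
    have h1 : MeasurableSet {ω : V d → A | ω ∈ Cfg st} :=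
      closed_measurable (Cfg st) (closed_cfg st)
    refine (ae_map_iff (measurable_T g π).aemeasurable h1).2 ?_
    filter_upwards [hμ.supp] with ω hω
    exact T_mem st g π c h ω hω

theorem emax_sym_le (hd : 1 ≤ d) (st : A → V d) (g : V d ≃+ V d) (π : A ≃ A) (c : V d)
    (h : ∀ a, st (π a) = g (st a) + c) (m m' : Fin d → ℝ)
    (hm : ∀ i, m' i = (∑ j, (g (Pi.single j 1) i : ℝ) * m j) + c i) :
    Emax st m ≤ Emax st m' := by
  conv_lhs => unfold Emax
  refine Real.sSup_le ?_ (emax_nonneg st m')
  rintro x ⟨μ, hμ, hmean, rfl⟩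
  haveI := hμ.prob
  have h1 := le_emax st (μ.map (T g π)) (inv_T st μ hμ g π c h)
  rw [hent_T hd μ hμ.map g π] at h1
  have h2 : mean (chg st) (μ.map (T g π)) = m' := by
    funext i
    rw [mean_T μ st g π c h i, hmean, hm]
  rwa [h2] at h1

end XSym

theorem emax_sym (hd : 1 ≤ d) (st : A → V d) (g : V d ≃+ V d) (π : A ≃ A) (c : V d)
    (h : ∀ a, st (π a) = g (st a) + c) (m m' : Fin d → ℝ)
    (hm : ∀ i, m' i = (∑ j, (g (Pi.single j 1) i : ℝ) * m j) + c i) :
    Emax st m' = Emax st m := by
  apply le_antisymm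
  · refine XSym.emax_sym_le hd st g.symm π.symm (-(g.symm c)) ?_ m' m ?_
    · intro a
      have h1 := h (π.symm a)
      rw [Equiv.apply_symm_apply] at h1
      rw [h1, map_add, AddEquiv.symm_apply_apply]
      abel
    · intro i
      have key : ∀ (v : V d), g.symm v i = ∑ j, g.symm (Pi.single j 1) i * v j :=
        fun v => XSym.g_apply g.symm v i
      have h2 : ∀ l, ∑ j, (g.symm (Pi.single j 1) i : ℝ) * (g (Pi.single l 1) j : ℝ) =
          if i = l then 1 else 0 := by
        intro l
        have h3 := key (g (Pi.single l 1))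
        rw [AddEquiv.symm_apply_apply] at h3
        have h4 : ((Pi.single l 1 : V d) i : ℝ) =
            ∑ j, (g.symm (Pi.single j 1) i : ℝ) * (g (Pi.single l 1) j : ℝ) := by
          rw [h3]
          push_cast
          rfl
        rw [← h4, Pi.single_apply]
        split_ifs <;> simp
      have h5 : ((-(g.symm c) : V d) i : ℝ) = -∑ j, (g.symm (Pi.single j 1) i : ℝ) * (c j : ℝ) := by
        rw [Pi.neg_apply, key c]
        push_cast
        rfl
      rw [h5]
      simp only [hm, mul_add, Finset.sum_add_distrib, Finset.mul_sum]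
      rw [Finset.sum_comm]
      have h6 : ∑ l, ∑ j, (g.symm (Pi.single j 1) i : ℝ) * ((g (Pi.single l 1) j : ℝ) * m l) =
          m i := by
        have h7 : ∀ l, ∑ j, (g.symm (Pi.single j 1) i : ℝ) * ((g (Pi.single l 1) j : ℝ) * m l) =
            (if i = l then 1 else 0) * m l := by
          intro l
          rw [← h2 l, Finset.sum_mul]
          refine Finset.sum_congr rfl fun j _ => ?_
          ring
        simp only [h7]
        simp
      rw [h6]
      ring
  · exact XSym.emax_sym_le hd st g π c h m m' hm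

namespace XSym

/-- first reflection -/
def g0 : V 3 ≃+ V 3 where
  toFun v := ![-v 1 - v 2, -v 0 - v 2, v 2]
  invFun v := ![-v 1 - v 2, -v 0 - v 2, v 2]
  left_inv v := by
    funext i
    fin_cases i <;> simp
  right_inv v := by
    funext i
    fin_cases i <;> simp
  map_add' v w := by
    funext i
    fin_cases i <;> simp <;> ring

/-- second reflection -/
def g1 : V 3 ≃+ V 3 where
  toFun v := ![v 1, v 0, v 2]
  invFun v := ![v 1, v 0, v 2]
  left_inv v := by
    funext i
    fin_cases i <;> simp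
  right_inv v := by
    funext i
    fin_cases i <;> simp
  map_add' v w := by
    funext i
    fin_cases i <;> simp

/-- third reflection -/
def g2 : V 3 ≃+ V 3 where
  toFun v := ![v 0 + v 2, v 1 + v 2, -v 2]
  invFun v := ![v 0 + v 2, v 1 + v 2, -v 2]
  left_inv v := by
    funext i
    fin_cases i <;> simp
  right_inv v := by
    funext i
    fin_cases i <;> simp
  map_add' v w := by
    funext i
    fin_cases i <;> simp <;> ring

theorem g0_apply (v : V 3) : g0 v = ![-v 1 - v 2, -v 0 - v 2, v 2] := rfl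

theorem g1_apply (v : V 3) : g1 v = ![v 1, v 0, v 2] := rfl

theorem g2_apply (v : V 3) : g2 v = ![v 0 + v 2, v 1 + v 2, -v 2] := rfl

theorem flip0 (a b e : ℝ) : Ethree ![-a, b, e] = Ethree ![a, b, e] := by
  unfold Ethree
  refine emax_sym (by norm_num) st3 g0 (Equiv.swap 0 1) ![1, 1, 0] ?_ _ _ ?_
  · decide
  · intro i
    fin_cases i <;> simp [toV, g0_apply, Fin.sum_univ_three] <;> ring

theorem flip1 (a b e : ℝ) : Ethree ![a, -b, e] = Ethree ![a, b, e] := by
  unfold Ethree
  refine emax_sym (by norm_num) st3 g1 (Equiv.swap 2 3) ![0, 0, 0] ?_ _ _ ?_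
  · decide
  · intro i
    fin_cases i <;> simp [toV, g1_apply, Fin.sum_univ_three] <;> ring

theorem flip2 (a b e : ℝ) : Ethree ![a, b, -e] = Ethree ![a, b, e] := by
  unfold Ethree
  refine emax_sym (by norm_num) st3 g2 (Equiv.swap 4 5) ![0, 0, 0] ?_ _ _ ?_
  · decide
  · intro i
    fin_cases i <;> simp [toV, g2_apply, Fin.sum_univ_three] <;> ring

end XSym

theorem ethree_flip (s s' : Fin 3 → ℝ) (h : ∀ i, |s' i| = |s i|) : Ethree s' = Ethree s := by
  have e : ∀ t : Fin 3 → ℝ, t = ![t 0, t 1, t 2] := by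
    intro t
    funext i
    fin_cases i <;> rfl
  rw [e s, e s']
  have h0 : Ethree ![s' 0, s' 1, s' 2] = Ethree ![s 0, s' 1, s' 2] := by
    rcases abs_eq_abs.1 (h 0) with h | h <;> rw [h]
    exact XSym.flip0 _ _ _
  have h1 : Ethree ![s 0, s' 1, s' 2] = Ethree ![s 0, s 1, s' 2] := by
    rcases abs_eq_abs.1 (h 1) with h | h <;> rw [h]
    exact XSym.flip1 _ _ _
  have h2 : Ethree ![s 0, s 1, s' 2] = Ethree ![s 0, s 1, s 2] := by
    rcases abs_eq_abs.1 (h 2) with h | h <;> rw [h]
    exact XSym.flip2 _ _ _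
  rw [h0, h1, h2]

end Helper15.DE
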