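import Pool.Agent.Helper10.DE.X.Strict2
import Pool.Agent.Helper10.DE.X.FacetLe
import Pool.Agent.Helper10.DE.X.FacetGe
import Pool.Agent.Helper10.DE.X.Sym
import Pool.Agent.Helper10.DE.X.Cont

/-!
# DE X.14  Strict concavity on the octahedron minus its edges

PROOF.  Let `x ≠ y` be in `octa \ octaEdges`, `a, b > 0`, `a + b = 1`, `z = a x + b y ∈ octa`.
Case 1: `|z|₁ < 1`: `strict3i` for `toV x, toV y, toV z` (`toV` affine and injective, `nV (toV s) = |s|₁`).
Case 2: `|z|₁ = 1`.  `1 = ∑ |a x i + b y i| ≤ a |x|₁ + b |y|₁ ≤ 1`: so `|x|₁ = |y|₁ = 1` and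
`x i * y i ≥ 0`; as `x, y ∉ octaEdges` all coordinates of `x` and `y` are nonzero, with equal signs; so are
those of `z`.  By `ethree_flip` (replace `x, y, z` by `(|x i|), (|y i|), (|z i|)`: `|z i| = a |x i| + b |y i|`,
and `(|x i|) ≠ (|y i|)`) all coordinates are positive with sum `1`.  Then `toV x = (x 1, 0, x 2)` etc., and
`Ethree x = Emax st3 ![x 1, 0, x 2] = Emax st2 ![x 1, x 2]` (`facet_le`, `facet_ge`); apply `strict2` in the open
triangle.
Convexity of `octa \ octaEdges`: the same computation (in case 2 all `z i ≠ 0`; in case 1 `z` is not on an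
edge).
-/

noncomputable section

open MeasureTheory Filter Topology

namespace Helper15.DE

namespace Strict3Aux

theorem abs_combo (a b x y : ℝ) (ha : 0 < a) (hb : 0 < b) :
    |a * x + b * y| ≤ a * |x| + b * |y| := by
  calc |a * x + b * y| ≤ |a * x| + |b * y| := abs_add_le _ _
    _ = a * |x| + b * |y| := by rw [abs_mul, abs_mul, abs_of_pos ha, abs_of_pos hb]

theorem nV_toV (s : Fin 3 → ℝ) : nV (toV s) = |s 0| + |s 1| + |s 2| := by
  unfold nV
  rw [fromV_toV]

theorem toV_inj {x y : Fin 3 → ℝ} (h : toV x = toV y) : x = y := by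
  rw [← fromV_toV x, ← fromV_toV y, h]

theorem toV_combo (x y : Fin 3 → ℝ) (a b : ℝ) (hab : a + b = 1) :
    toV (a • x + b • y) = a • toV x + (1 - a) • toV y := by
  have hb : b = 1 - a := by linarith
  subst hb
  funext i
  fin_cases i
  · simp [toV]
    ring
  · simp [toV]
    ring
  · simp [toV]

/-- the analysis of the case where the combination has norm `1` -/
theorem key (x y : Fin 3 → ℝ) (hx : x ∈ octa \ octaEdges) (hy : y ∈ octa \ octaEdges)
    (a b : ℝ) (ha : 0 < a) (hb : 0 < b) (hab : a + b = 1)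
    (hz : |(a • x + b • y) 0| + |(a • x + b • y) 1| + |(a • x + b • y) 2| = 1) :
    (|x 0| + |x 1| + |x 2| = 1) ∧ (|y 0| + |y 1| + |y 2| = 1) ∧ (∀ i, x i ≠ 0) ∧
      (∀ i, y i ≠ 0) ∧ ∀ i, |(a • x + b • y) i| = a * |x i| + b * |y i| := by
  obtain ⟨hx1, hx2⟩ := hx
  obtain ⟨hy1, hy2⟩ := hy
  have hx1' : |x 0| + |x 1| + |x 2| ≤ 1 := hx1
  have hy1' : |y 0| + |y 1| + |y 2| ≤ 1 := hy1
  simp only [Pi.add_apply, Pi.smul_apply, smul_eq_mul] at hz ⊢
  have t0 := abs_combo a b (x 0) (y 0) ha hb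
  have t1 := abs_combo a b (x 1) (y 1) ha hb
  have t2 := abs_combo a b (x 2) (y 2) ha hb
  have hX : |x 0| + |x 1| + |x 2| = 1 := by
    refine le_antisymm hx1' ?_
    by_contra hlt
    have hlt : |x 0| + |x 1| + |x 2| < 1 := lt_of_not_ge hlt
    have e1 : a * (|x 0| + |x 1| + |x 2|) < a * 1 := mul_lt_mul_of_pos_left hlt ha
    have e2 : b * (|y 0| + |y 1| + |y 2|) ≤ b * 1 := mul_le_mul_of_nonneg_left hy1' hb.le
    nlinarith
  have hY : |y 0| + |y 1| + |y 2| = 1 := by
    refine le_antisymm hy1' ?_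
    by_contra hlt
    have hlt : |y 0| + |y 1| + |y 2| < 1 := lt_of_not_ge hlt
    have e1 : b * (|y 0| + |y 1| + |y 2|) < b * 1 := mul_lt_mul_of_pos_left hlt hb
    have e2 : a * (|x 0| + |x 1| + |x 2|) ≤ a * 1 := mul_le_mul_of_nonneg_left hx1' ha.le
    nlinarith
  have hsum : a * (|x 0| + |x 1| + |x 2|) + b * (|y 0| + |y 1| + |y 2|) = 1 := by
    rw [hX, hY]
    linarith
  refine ⟨hX, hY, fun i hi => hx2 ⟨hX, i, hi⟩, fun i hi => hy2 ⟨hY, i, hi⟩, fun i => ?_⟩
  fin_cases i
  · show |a * x 0 + b * y 0| = a * |x 0| + b * |y 0|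
    linarith
  · show |a * x 1 + b * y 1| = a * |x 1| + b * |y 1|
    linarith
  · show |a * x 2 + b * y 2| = a * |x 2| + b * |y 2|
    linarith

theorem octa_combo (x y : Fin 3 → ℝ) (hx : x ∈ octa) (hy : y ∈ octa)
    (a b : ℝ) (ha : 0 < a) (hb : 0 < b) (hab : a + b = 1) : a • x + b • y ∈ octa := by
  have hx1' : |x 0| + |x 1| + |x 2| ≤ 1 := hx
  have hy1' : |y 0| + |y 1| + |y 2| ≤ 1 := hy
  show |(a • x + b • y) 0| + |(a • x + b • y) 1| + |(a • x + b • y) 2| ≤ 1
  simp only [Pi.add_apply, Pi.smul_apply, smul_eq_mul]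
  have t0 := abs_combo a b (x 0) (y 0) ha hb
  have t1 := abs_combo a b (x 1) (y 1) ha hb
  have t2 := abs_combo a b (x 2) (y 2) ha hb
  have e1 : a * (|x 0| + |x 1| + |x 2|) ≤ a * 1 := mul_le_mul_of_nonneg_left hx1' ha.le
  have e2 : b * (|y 0| + |y 1| + |y 2|) ≤ b * 1 := mul_le_mul_of_nonneg_left hy1' hb.le
  nlinarith

/-- positive vectors with sum `1` -/
theorem facet_eq (s : Fin 3 → ℝ) (h0 : 0 < s 0) (h1 : 0 < s 1) (h2 : 0 < s 2)
    (hs : s 0 + s 1 + s 2 = 1) : Ethree s = Emax st2 ![s 1, s 2] := by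
  have e : toV s = ![s 1, 0, s 2] := by
    funext i
    fin_cases i
    · simp [toV]
      linarith
    · simp [toV]
      linarith
    · simp [toV]
  have ht : ![s 1, s 2] ∈ triangle := by
    refine ⟨?_, ?_, ?_⟩
    · simpa using h1.le
    · simpa using h2.le
    · have : s 1 + s 2 ≤ 1 := by linarith
      simpa using this
  unfold Ethree
  rw [e]
  exact le_antisymm (facet_le _ _ ht) (facet_ge _ _ ht)

theorem facet_abs (s : Fin 3 → ℝ) (h : ∀ i, s i ≠ 0) (hs : |s 0| + |s 1| + |s 2| = 1) :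
    Ethree s = Emax st2 ![|s 1|, |s 2|] := by
  rw [← ethree_flip s (fun i => |s i|) fun i => abs_abs (s i)]
  exact facet_eq (fun i => |s i|) (abs_pos.2 (h 0)) (abs_pos.2 (h 1)) (abs_pos.2 (h 2)) hs

theorem eq_of_abs (a b x y : ℝ) (ha : 0 < a) (hb : 0 < b) (hab : a + b = 1) (hx : x ≠ 0)
    (h : |x| = |y|) (hz : |a * x + b * y| = a * |x| + b * |y|) : x = y := by
  rcases abs_eq_abs.1 h with h' | h'
  · exact h'
  · exfalso
    have hy : y = -x := by rw [h']; ring
    subst hy
    have e : a * x + b * -x = (a - b) * x := by ring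
    rw [e, abs_mul, abs_neg, ← add_mul, hab, one_mul] at hz
    have hxp : 0 < |x| := abs_pos.2 hx
    have h1 : |a - b| = 1 := by
      have : |a - b| * |x| = 1 * |x| := by rw [hz, one_mul]
      exact mul_right_cancel₀ hxp.ne' this
    have h2 : |a - b| < 1 := by
      rw [abs_lt]
      constructor <;> linarith
    linarith

end Strict3Aux

open Strict3Aux in
theorem strict3 (hDC2 : DCofInv st2) (hG2 : ThmG st2) (hDC3 : DCofInv st3) (hG3 : ThmG st3) :
    StrictConcaveOn ℝ (octa \ octaEdges) Ethree := by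
  refine ⟨?_, ?_⟩
  · rw [convex_iff_forall_pos]
    intro x hx y hy a b ha hb hab
    refine ⟨octa_combo x y hx.1 hy.1 a b ha hb hab, ?_⟩
    rintro ⟨h1, i, hi⟩
    obtain ⟨-, -, kx, ky, kz⟩ := key x y hx hy a b ha hb hab h1
    have h2 := kz i
    rw [hi, abs_zero] at h2
    have h3 : 0 < a * |x i| := mul_pos ha (abs_pos.2 (kx i))
    have h4 : 0 < b * |y i| := mul_pos hb (abs_pos.2 (ky i))
    linarith
  · intro x hx y hy hxy a b ha hb hab
    have hb' : b = 1 - a := by linarith
    have ha1 : a < 1 := by linarith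
    have hzo := octa_combo x y hx.1 hy.1 a b ha hb hab
    have hzo' : |(a • x + b • y) 0| + |(a • x + b • y) 1| + |(a • x + b • y) 2| ≤ 1 := hzo
    rcases hzo'.lt_or_eq with hlt | heq
    · have h1 := strict3i hDC3 hG3 (toV x) (toV y) (toV (a • x + b • y))
        (by rw [nV_toV]; exact hx.1) (by rw [nV_toV]; exact hy.1)
        (fun h => hxy (toV_inj h)) a ha ha1 (toV_combo x y a b hab)
        (by rw [nV_toV]; exact hlt)
      rw [hb'] at h1 ⊢
      exact h1
    · obtain ⟨nx, ny, kx, ky, kz⟩ := key x y hx hy a b ha hb hab heq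
      have kz0 : ∀ i, (a • x + b • y) i ≠ 0 := by
        intro i hi
        have h2 := kz i
        rw [hi, abs_zero] at h2
        have h3 : 0 < a * |x i| := mul_pos ha (abs_pos.2 (kx i))
        have h4 : 0 < b * |y i| := mul_pos hb (abs_pos.2 (ky i))
        linarith
      have hne : ![|x 1|, |x 2|] ≠ ![|y 1|, |y 2|] := by
        intro h
        have e1 : |x 1| = |y 1| := by simpa using congrFun h 0
        have e2 : |x 2| = |y 2| := by simpa using congrFun h 1
        have e0 : |x 0| = |y 0| := by linarith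
        apply hxy
        funext i
        have hall : |x i| = |y i| := by
          fin_cases i
          · exact e0
          · exact e1
          · exact e2
        exact eq_of_abs a b (x i) (y i) ha hb hab (kx i) hall (kz i)
      have tri : ∀ s : Fin 3 → ℝ, |s 0| + |s 1| + |s 2| = 1 → ![|s 1|, |s 2|] ∈ triangle := by
        intro s hs
        refine ⟨?_, ?_, ?_⟩
        · simp
        · simp
        · have : |s 1| + |s 2| ≤ 1 := by linarith [abs_nonneg (s 0)]
          simpa using this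
      have hcomb : ![|(a • x + b • y) 1|, |(a • x + b • y) 2|] =
          a • ![|x 1|, |x 2|] + (1 - a) • ![|y 1|, |y 2|] := by
        rw [kz 1, kz 2, hb']
        funext i
        fin_cases i <;> simp
      have hO : ![|(a • x + b • y) 1|, |(a • x + b • y) 2|] ∈ triangleO := by
        have p0 := abs_pos.2 (kz0 0)
        have p1 := abs_pos.2 (kz0 1)
        have p2 := abs_pos.2 (kz0 2)
        refine ⟨p1, p2, ?_⟩
        show |(a • x + b • y) 1| + |(a • x + b • y) 2| < 1
        linarith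
      have h1 := strict2 hDC2 hG2 ![|x 1|, |x 2|] ![|y 1|, |y 2|] _ (tri x nx) (tri y ny) hne
        a ha ha1 hcomb hO
      rw [facet_abs x kx nx, facet_abs y ky ny, facet_abs _ kz0 heq]
      rw [hb'] at h1 ⊢
      exact h1

end Helper15.DE
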